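import Mathlib

/-!
# Basic definitions for the TFW problem: weak gradients and the Hilbert space `L²`.
-/

set_option autoImplicit false
set_option linter.unusedSectionVars false

open MeasureTheory Filter Topology
open scoped ENNReal NNReal

namespace Pool.Agent.Helper99.TFW

/-- Three dimensional Euclidean space. -/
abbrev E := EuclideanSpace ℝ (Fin 3)

/-- `g` is the weak gradient of `u`. -/
def WG (u : E → ℝ) (g : E → E) : Prop :=
  ∀ φ : E → ℝ, ContDiff ℝ (⊤ : ℕ∞) φ → HasCompactSupport φ →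
    ∀ v : E, ∫ x, u x * fderiv ℝ φ x v = -∫ x, inner ℝ (g x) v * φ x

/-- `u ∈ L²` with weak gradient `g ∈ L²`. -/
structure H1 (u : E → ℝ) (g : E → E) : Prop where
  mem : MemLp u 2
  memg : MemLp g 2
  wg : WG u g

/-- The gradient vector of a function. -/
noncomputable def grad (u : E → ℝ) (x : E) : E :=
  (InnerProductSpace.toDual ℝ E).symm (fderiv ℝ u x)

theorem inner_grad (u : E → ℝ) (x v : E) : inner ℝ (grad u x) v = fderiv ℝ u x v := by
  simp [grad]

theorem norm_grad (u : E → ℝ) (x : E) : ‖grad u x‖ = ‖fderiv ℝ u x‖ := by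
  simp [grad]

theorem continuous_grad {u : E → ℝ} (hu : ContDiff ℝ 1 u) : Continuous (grad u) := by
  have h : Continuous (fderiv ℝ u) := hu.continuous_fderiv (by norm_num)
  exact (InnerProductSpace.toDual ℝ E).symm.continuous.comp h

section Ltwo

variable {F : Type*} [NormedAddCommGroup F] [InnerProductSpace ℝ F]
variable {α : Type*} [MeasurableSpace α] {μ : Measure α}

theorem inner_toLp {f k : α → F} (hf : MemLp f 2 μ) (hk : MemLp k 2 μ) :
    inner ℝ (hf.toLp f) (hk.toLp k) = ∫ x, inner ℝ (f x) (k x) ∂μ := by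
  rw [L2.inner_def]
  apply integral_congr_ae
  filter_upwards [hf.coeFn_toLp, hk.coeFn_toLp] with x h1 h2
  rw [h1, h2]

theorem norm_toLp_sq {f : α → F} (hf : MemLp f 2 μ) :
    ‖hf.toLp f‖ ^ 2 = ∫ x, ‖f x‖ ^ 2 ∂μ := by
  rw [← real_inner_self_eq_norm_sq, inner_toLp]
  simp

theorem integrable_norm_sq {f : α → F} (hf : MemLp f 2 μ) :
    Integrable (fun x => ‖f x‖ ^ 2) μ :=
  (memLp_two_iff_integrable_sq_norm hf.1).1 hf

theorem integrable_inner {f k : α → F} (hf : MemLp f 2 μ) (hk : MemLp k 2 μ) :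
    Integrable (fun x => inner ℝ (f x) (k x)) μ := by
  have := L2.integrable_inner (𝕜 := ℝ) (hf.toLp f) (hk.toLp k)
  refine this.congr ?_
  filter_upwards [hf.coeFn_toLp, hk.coeFn_toLp] with x h1 h2
  rw [h1, h2]

theorem integrable_mul_L2 {f k : α → ℝ} (hf : MemLp f 2 μ) (hk : MemLp k 2 μ) :
    Integrable (fun x => f x * k x) μ := by
  have := integrable_inner hk hf
  simpa [RCLike.inner_apply, mul_comm] using this

/-- Convergence of `L²` functions expressed by the integral of the squared distance implies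
convergence in the Hilbert space. -/
theorem tendsto_toLp {ι : Type*} {l : Filter ι} {f : ι → α → F} {f₀ : α → F}
    (hf : ∀ i, MemLp (f i) 2 μ) (h0 : MemLp f₀ 2 μ)
    (h : Tendsto (fun i => ∫ x, ‖f i x - f₀ x‖ ^ 2 ∂μ) l (𝓝 0)) :
    Tendsto (fun i => (hf i).toLp (f i)) l (𝓝 (h0.toLp f₀)) := by
  rw [tendsto_iff_norm_sub_tendsto_zero]
  have h1 : ∀ i, ‖(hf i).toLp (f i) - h0.toLp f₀‖ = Real.sqrt (∫ x, ‖f i x - f₀ x‖ ^ 2 ∂μ) := by
    intro i
    rw [← MemLp.toLp_sub (hf i) h0]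
    have := norm_toLp_sq ((hf i).sub h0)
    simp only [Pi.sub_apply] at this
    rw [← this, Real.sqrt_sq (norm_nonneg _)]
  simp_rw [h1]
  have := h.sqrt
  simpa using this

theorem tendsto_integral_inner {ι : Type*} {l : Filter ι} {f : ι → α → F} {f₀ k : α → F}
    (hf : ∀ i, MemLp (f i) 2 μ) (h0 : MemLp f₀ 2 μ) (hk : MemLp k 2 μ)
    (h : Tendsto (fun i => ∫ x, ‖f i x - f₀ x‖ ^ 2 ∂μ) l (𝓝 0)) :
    Tendsto (fun i => ∫ x, inner ℝ (f i x) (k x) ∂μ) l (𝓝 (∫ x, inner ℝ (f₀ x) (k x) ∂μ)) := by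
  have h1 := tendsto_toLp hf h0 h
  have h2 := h1.inner (𝕜 := ℝ) (tendsto_const_nhds (x := hk.toLp k))
  rw [inner_toLp] at h2
  refine h2.congr fun i => ?_
  rw [inner_toLp]

theorem tendsto_integral_mul {ι : Type*} {l : Filter ι} {f : ι → α → ℝ} {f₀ k : α → ℝ}
    (hf : ∀ i, MemLp (f i) 2 μ) (h0 : MemLp f₀ 2 μ) (hk : MemLp k 2 μ)
    (h : Tendsto (fun i => ∫ x, ‖f i x - f₀ x‖ ^ 2 ∂μ) l (𝓝 0)) :
    Tendsto (fun i => ∫ x, f i x * k x ∂μ) l (𝓝 (∫ x, f₀ x * k x ∂μ)) := by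
  have := tendsto_integral_inner hf h0 hk h
  simpa [RCLike.inner_apply, mul_comm] using this

theorem tendsto_integral_norm_sq {ι : Type*} {l : Filter ι} {f : ι → α → F} {f₀ : α → F}
    (hf : ∀ i, MemLp (f i) 2 μ) (h0 : MemLp f₀ 2 μ)
    (h : Tendsto (fun i => ∫ x, ‖f i x - f₀ x‖ ^ 2 ∂μ) l (𝓝 0)) :
    Tendsto (fun i => ∫ x, ‖f i x‖ ^ 2 ∂μ) l (𝓝 (∫ x, ‖f₀ x‖ ^ 2 ∂μ)) := by
  have h1 := tendsto_toLp hf h0 h
  have h2 := h1.norm.pow 2
  rw [norm_toLp_sq] at h2
  refine h2.congr fun i => ?_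
  rw [norm_toLp_sq]

end Ltwo

/-- Weak sequential compactness of bounded sets in a separable Hilbert space. -/
theorem exists_weak_limit {H : Type*} [NormedAddCommGroup H] [InnerProductSpace ℝ H]
    [CompleteSpace H] [TopologicalSpace.SeparableSpace H] (x : ℕ → H) (C : ℝ)
    (hx : ∀ n, ‖x n‖ ≤ C) :
    ∃ (y : H) (φ : ℕ → ℕ), StrictMono φ ∧
      ∀ z, Tendsto (fun n => inner ℝ (x (φ n)) z) atTop (𝓝 (inner ℝ y z)) := by
  let D : ℕ → WeakDual ℝ H := fun n => StrongDual.toWeakDual (InnerProductSpace.toDual ℝ H (x n))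
  have hD : ∀ n, D n ∈ (WeakDual.toStrongDual ⁻¹' Metric.closedBall (0 : StrongDual ℝ H) C) := by
    intro n
    simp only [Set.mem_preimage, Metric.mem_closedBall, dist_zero_right, D]
    have : ‖InnerProductSpace.toDual ℝ H (x n)‖ = ‖x n‖ := by simp
    exact this.le.trans (hx n)
  obtain ⟨d, hd, φ, hφ, hlim⟩ := (WeakDual.isSeqCompact_closedBall ℝ H 0 C) hD
  refine ⟨(InnerProductSpace.toDual ℝ H).symm (WeakDual.toStrongDual d), φ, hφ, fun z => ?_⟩
  have h1 := (WeakDual.eval_continuous (𝕜 := ℝ) z).tendsto d |>.comp hlim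
  simp only [InnerProductSpace.toDual_symm_apply]
  exact h1

end Pool.Agent.Helper99.TFW
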