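import Mathlib
import Pool.Agent.helper99.TFW.Basic

/-!
# The Coulomb kernel on `L¹ ∩ L^{5/3}`
-/

set_option autoImplicit false
set_option linter.unusedSectionVars false

open MeasureTheory Filter Topology
open scoped ENNReal NNReal

namespace Pool.Agent.Helper99.TFW

theorem finrank_E : Module.finrank ℝ E = 3 := by simp [E]

/-- The singular part of the kernel raised to the power `5/2`. -/
noncomputable def q (x : E) : ℝ := if ‖x‖ < 1 then (1 / ‖x‖) ^ (5 / 2 : ℝ) else 0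

theorem q_nonneg (x : E) : 0 ≤ q x := by
  unfold q
  split_ifs
  · positivity
  · exact le_rfl

theorem q_integrable : Integrable q := by
  have h : q = fun x : E => (fun r : ℝ => if r < 1 then (1 / r) ^ (5 / 2 : ℝ) else 0) ‖x‖ := by
    ext x; rfl
  rw [h, integrable_fun_norm_addHaar (volume : Measure E)
    (f := fun r : ℝ => if r < 1 then (1 / r) ^ (5 / 2 : ℝ) else 0), finrank_E]
  have h1 : IntegrableOn (fun y : ℝ => y ^ (-(1 / 2) : ℝ)) (Set.Ioo 0 1) :=
    (intervalIntegral.integrableOn_Ioo_rpow_iff one_pos).2 (by norm_num)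
  have h2 : Integrable ((Set.Ioo (0 : ℝ) 1).indicator (fun y : ℝ => y ^ (-(1 / 2) : ℝ))) :=
    (integrable_indicator_iff measurableSet_Ioo).2 h1
  refine (h2.integrableOn (s := Set.Ioi 0)).congr_fun (fun y hy => ?_) measurableSet_Ioi
  have hy0 : (0 : ℝ) < y := hy
  by_cases hy1 : y < 1
  · rw [Set.indicator_of_mem (show y ∈ Set.Ioo (0 : ℝ) 1 from ⟨hy0, hy1⟩)]
    simp only [hy1, if_true, smul_eq_mul]
    have e : (1 / y) ^ (5 / 2 : ℝ) = y ^ (-(5 / 2) : ℝ) := by
      rw [one_div, Real.inv_rpow hy0.le, ← Real.rpow_neg hy0.le]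
    rw [e, ← Real.rpow_natCast, ← Real.rpow_add hy0]
    norm_num
  · rw [Set.indicator_of_notMem (fun h => hy1 h.2)]
    simp [hy1]

/-- The integral of `q`. -/
noncomputable def Q : ℝ := ∫ x, q x

theorem Q_nonneg : 0 ≤ Q := integral_nonneg q_nonneg

theorem young53 {a b ε : ℝ} (ha : 0 ≤ a) (hb : 0 ≤ b) (hε : 0 < ε) :
    a * b ≤ ε * a ^ (5 / 3 : ℝ) + ε ^ (-(3 / 2) : ℝ) * b ^ (5 / 2 : ℝ) := by
  have hc : (5 / 3 : ℝ).HolderConjugate (5 / 2) := by
    rw [Real.holderConjugate_iff]; norm_num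
  have h := Real.young_inequality_of_nonneg (a := ε ^ (3 / 5 : ℝ) * a)
    (b := ε ^ (-(3 / 5) : ℝ) * b) (by positivity) (by positivity) hc
  have e1 : ε ^ (3 / 5 : ℝ) * a * (ε ^ (-(3 / 5) : ℝ) * b) = a * b := by
    have : ε ^ (3 / 5 : ℝ) * ε ^ (-(3 / 5) : ℝ) = 1 := by
      rw [← Real.rpow_add hε]; norm_num
    calc ε ^ (3 / 5 : ℝ) * a * (ε ^ (-(3 / 5) : ℝ) * b) =
        (ε ^ (3 / 5 : ℝ) * ε ^ (-(3 / 5) : ℝ)) * (a * b) := by ring
      _ = a * b := by rw [this, one_mul]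
  have e2 : (ε ^ (3 / 5 : ℝ) * a) ^ (5 / 3 : ℝ) = ε * a ^ (5 / 3 : ℝ) := by
    rw [Real.mul_rpow (by positivity) ha, ← Real.rpow_mul hε.le]; norm_num
  have e3 : (ε ^ (-(3 / 5) : ℝ) * b) ^ (5 / 2 : ℝ) = ε ^ (-(3 / 2) : ℝ) * b ^ (5 / 2 : ℝ) := by
    rw [Real.mul_rpow (by positivity) hb, ← Real.rpow_mul hε.le]; norm_num
  rw [e1, e2, e3] at h
  have p1 : 0 ≤ ε * a ^ (5 / 3 : ℝ) := by positivity
  have p2 : 0 ≤ ε ^ (-(3 / 2) : ℝ) * b ^ (5 / 2 : ℝ) := by positivity
  linarith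

/-- Pointwise bound of the Coulomb kernel. -/
theorem kernel_bound {a ε : ℝ} (ha : 0 ≤ a) (hε : 0 < ε) (x : E) :
    a / ‖x‖ ≤ ε * a ^ (5 / 3 : ℝ) + ε ^ (-(3 / 2) : ℝ) * q x + a := by
  by_cases hx : ‖x‖ < 1
  · have h := young53 ha (b := 1 / ‖x‖) (by positivity) hε
    have : q x = (1 / ‖x‖) ^ (5 / 2 : ℝ) := by simp [q, hx]
    rw [this]
    rw [mul_one_div] at h
    linarith
  · have h1 : a / ‖x‖ ≤ a := div_le_self ha (not_lt.1 hx)
    have h2 := q_nonneg x
    have p1 : 0 ≤ ε * a ^ (5 / 3 : ℝ) := by positivity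
    have p2 : 0 ≤ ε ^ (-(3 / 2) : ℝ) * q x := by positivity
    linarith

/-- Nonnegative functions in `L¹ ∩ L^{5/3}`. -/
structure Dens (ρ : E → ℝ) : Prop where
  nn : ∀ x, 0 ≤ ρ x
  int : Integrable ρ
  int53 : Integrable (fun x => ρ x ^ (5 / 3 : ℝ))

theorem rpow_add_le {a b : ℝ} (ha : 0 ≤ a) (hb : 0 ≤ b) :
    (a + b) ^ (5 / 3 : ℝ) ≤ 4 * (a ^ (5 / 3 : ℝ) + b ^ (5 / 3 : ℝ)) := by
  have h2 : (2 : ℝ) ^ (5 / 3 : ℝ) ≤ 4 := by
    calc (2 : ℝ) ^ (5 / 3 : ℝ) ≤ 2 ^ (2 : ℝ) :=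
          Real.rpow_le_rpow_of_exponent_le (by norm_num) (by norm_num)
      _ = 4 := by norm_num
  have pa : 0 ≤ a ^ (5 / 3 : ℝ) := by positivity
  have pb : 0 ≤ b ^ (5 / 3 : ℝ) := by positivity
  rcases le_total a b with h | h
  · calc (a + b) ^ (5 / 3 : ℝ) ≤ (2 * b) ^ (5 / 3 : ℝ) :=
          Real.rpow_le_rpow (by positivity) (by linarith) (by norm_num)
      _ = 2 ^ (5 / 3 : ℝ) * b ^ (5 / 3 : ℝ) := Real.mul_rpow (by norm_num) hb
      _ ≤ 4 * b ^ (5 / 3 : ℝ) := mul_le_mul_of_nonneg_right h2 pb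
      _ ≤ _ := by linarith
  · calc (a + b) ^ (5 / 3 : ℝ) ≤ (2 * a) ^ (5 / 3 : ℝ) :=
          Real.rpow_le_rpow (by positivity) (by linarith) (by norm_num)
      _ = 2 ^ (5 / 3 : ℝ) * a ^ (5 / 3 : ℝ) := Real.mul_rpow (by norm_num) ha
      _ ≤ 4 * a ^ (5 / 3 : ℝ) := mul_le_mul_of_nonneg_right h2 pa
      _ ≤ _ := by linarith

theorem Dens.add {ρ σ : E → ℝ} (h : Dens ρ) (h' : Dens σ) : Dens (fun x => ρ x + σ x) := by
  refine ⟨fun x => add_nonneg (h.nn x) (h'.nn x), h.int.add h'.int, ?_⟩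
  refine Integrable.mono' ((h.int53.add h'.int53).const_mul 4) ?_ ?_
  · exact ((h.int.1.aemeasurable.add h'.int.1.aemeasurable).pow_const _).aestronglyMeasurable
  · refine Eventually.of_forall fun x => ?_
    rw [Real.norm_eq_abs, abs_of_nonneg (Real.rpow_nonneg (add_nonneg (h.nn x) (h'.nn x)) _)]
    exact rpow_add_le (h.nn x) (h'.nn x)

theorem Dens.smul {ρ : E → ℝ} (h : Dens ρ) {t : ℝ} (ht : 0 ≤ t) : Dens (fun x => t * ρ x) := by
  refine ⟨fun x => mul_nonneg ht (h.nn x), h.int.const_mul t, ?_⟩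
  refine (h.int53.const_mul (t ^ (5 / 3 : ℝ))).congr (Eventually.of_forall fun x => ?_)
  simp only
  rw [Real.mul_rpow ht (h.nn x)]

theorem Dens.mono {ρ σ : E → ℝ} (h : Dens ρ) (hσ : AEStronglyMeasurable σ volume)
    (h0 : ∀ x, 0 ≤ σ x) (hle : ∀ x, σ x ≤ ρ x) : Dens σ := by
  refine ⟨h0, ?_, ?_⟩
  · refine h.int.mono' hσ (Eventually.of_forall fun x => ?_)
    rw [Real.norm_eq_abs, abs_of_nonneg (h0 x)]
    exact hle x
  · refine h.int53.mono' (hσ.aemeasurable.pow_const _).aestronglyMeasurable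
      (Eventually.of_forall fun x => ?_)
    rw [Real.norm_eq_abs, abs_of_nonneg (Real.rpow_nonneg (h0 x) _)]
    exact Real.rpow_le_rpow (h0 x) (hle x) (by norm_num)

theorem Dens.zero : Dens (fun _ => 0) := by
  refine ⟨fun _ => le_rfl, integrable_zero _ _ _, ?_⟩
  have : (fun _ : E => (0 : ℝ) ^ (5 / 3 : ℝ)) = fun _ => 0 := by
    ext x; exact Real.zero_rpow (by norm_num)
  rw [this]
  exact integrable_zero _ _ _

theorem aesm_kernel {ρ : E → ℝ} (h : AEStronglyMeasurable ρ volume) (R : E) :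
    AEStronglyMeasurable (fun x => ρ x / ‖x - R‖) volume := by
  have h1 : Measurable (fun x : E => ‖x - R‖) := (continuous_id.sub continuous_const).norm.measurable
  exact (h.aemeasurable.div h1.aemeasurable).aestronglyMeasurable

theorem Dens.kernel_integrable {ρ : E → ℝ} (h : Dens ρ) (R : E) :
    Integrable (fun x => ρ x / ‖x - R‖) := by
  have hq : Integrable (fun x => q (x - R)) := q_integrable.comp_sub_right R
  refine Integrable.mono' (((h.int53.const_mul 1).add (hq.const_mul ((1 : ℝ) ^ (-(3 / 2) : ℝ)))).add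
    h.int) (aesm_kernel h.int.1 R) (Eventually.of_forall fun x => ?_)
  rw [Real.norm_eq_abs, abs_of_nonneg (div_nonneg (h.nn x) (norm_nonneg _))]
  exact kernel_bound (h.nn x) one_pos (x - R)

theorem Dens.kernel_le {ρ : E → ℝ} (h : Dens ρ) (R : E) {ε : ℝ} (hε : 0 < ε) :
    ∫ x, ρ x / ‖x - R‖ ≤ ε * (∫ x, ρ x ^ (5 / 3 : ℝ)) + ε ^ (-(3 / 2) : ℝ) * Q + ∫ x, ρ x := by
  have hq : Integrable (fun x => q (x - R)) := q_integrable.comp_sub_right R
  have e : ∫ x, (ε * ρ x ^ (5 / 3 : ℝ) + ε ^ (-(3 / 2) : ℝ) * q (x - R) + ρ x) =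
      ε * (∫ x, ρ x ^ (5 / 3 : ℝ)) + ε ^ (-(3 / 2) : ℝ) * Q + ∫ x, ρ x := by
    have i1 : Integrable (fun x => ε * ρ x ^ (5 / 3 : ℝ) + ε ^ (-(3 / 2) : ℝ) * q (x - R)) :=
      (h.int53.const_mul ε).add (hq.const_mul _)
    rw [integral_add i1 h.int, integral_add (h.int53.const_mul ε) (hq.const_mul _),
      integral_const_mul, integral_const_mul,
      integral_sub_right_eq_self (μ := (volume : Measure E)) q R]
    rfl
  rw [← e]
  refine integral_mono (h.kernel_integrable R)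
    (((h.int53.const_mul ε).add (hq.const_mul _)).add h.int) fun x => ?_
  exact kernel_bound (h.nn x) hε (x - R)

/-- The Coulomb potential. -/
noncomputable def U (ρ : E → ℝ) (x : E) : ℝ := ∫ y, ρ y / ‖x - y‖

theorem U_eq (ρ : E → ℝ) (x : E) : U ρ x = ∫ y, ρ y / ‖y - x‖ := by
  unfold U
  simp_rw [norm_sub_rev x]

theorem U_nonneg {ρ : E → ℝ} (h : ∀ x, 0 ≤ ρ x) (x : E) : 0 ≤ U ρ x :=
  integral_nonneg fun y => div_nonneg (h y) (norm_nonneg _)

/-- A uniform bound of the Coulomb potential. -/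
noncomputable def Ub (ρ : E → ℝ) : ℝ := (∫ x, ρ x ^ (5 / 3 : ℝ)) + Q + ∫ x, ρ x

theorem Dens.U_le {ρ : E → ℝ} (h : Dens ρ) (x : E) : U ρ x ≤ Ub ρ := by
  rw [U_eq]
  have := h.kernel_le x one_pos
  simpa [Ub] using this

theorem Dens.abs_U_le {ρ : E → ℝ} (h : Dens ρ) (x : E) : |U ρ x| ≤ Ub ρ := by
  rw [abs_of_nonneg (U_nonneg h.nn x)]
  exact h.U_le x

theorem aesm_prod {ρ : E → ℝ} (h : AEStronglyMeasurable ρ volume) :
    AEStronglyMeasurable (fun p : E × E => ρ p.2 / ‖p.1 - p.2‖)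
      ((volume : Measure E).prod (volume : Measure E)) := by
  have h1 : Measurable (fun p : E × E => ‖p.1 - p.2‖) :=
    (continuous_fst.sub continuous_snd).norm.measurable
  exact (h.comp_snd.aemeasurable.div h1.aemeasurable).aestronglyMeasurable

theorem aesm_U {ρ : E → ℝ} (h : AEStronglyMeasurable ρ volume) :
    AEStronglyMeasurable (U ρ) volume :=
  (aesm_prod h).integral_prod_right'

theorem Dens.int_mul_U {α ρ : E → ℝ} (h : Dens ρ) (hα : Integrable α) :
    Integrable (fun x => α x * U ρ x) := by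
  refine Integrable.mono' (hα.norm.const_mul (Ub ρ)) (hα.1.mul (aesm_U h.int.1))
    (Eventually.of_forall fun x => ?_)
  rw [norm_mul, mul_comm]
  exact mul_le_mul_of_nonneg_right (h.abs_U_le x) (norm_nonneg _)

theorem Dens.int_prod {α ρ : E → ℝ} (h : Dens ρ) (hα : Integrable α) :
    Integrable (fun p : E × E => α p.1 * ρ p.2 / ‖p.1 - p.2‖)
      ((volume : Measure E).prod (volume : Measure E)) := by
  have hm : AEStronglyMeasurable (fun p : E × E => α p.1 * ρ p.2 / ‖p.1 - p.2‖)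
      ((volume : Measure E).prod (volume : Measure E)) := by
    have := hα.1.comp_fst (ν := (volume : Measure E)).mul (aesm_prod h.int.1)
    refine this.congr (Eventually.of_forall fun p => ?_)
    simp only [Pi.mul_apply]
    ring
  rw [integrable_prod_iff hm]
  refine ⟨Eventually.of_forall fun x => ?_, ?_⟩
  · have := (h.kernel_integrable x).const_mul (α x)
    refine this.congr (Eventually.of_forall fun y => ?_)
    simp only
    rw [norm_sub_rev]; ring
  · have := h.int_mul_U hα.norm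
    refine this.congr (Eventually.of_forall fun x => ?_)
    simp only
    unfold U
    rw [← integral_const_mul]
    apply integral_congr_ae
    refine Eventually.of_forall fun y => ?_
    simp only [norm_div, norm_mul, norm_norm]
    rw [Real.norm_eq_abs (ρ y), abs_of_nonneg (h.nn y)]
    ring

theorem int_mul_U_eq (α ρ : E → ℝ) :
    ∫ x, α x * U ρ x = ∫ x, ∫ y, α x * ρ y / ‖x - y‖ := by
  apply integral_congr_ae
  refine Eventually.of_forall fun x => ?_
  simp only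
  unfold U
  rw [← integral_const_mul]
  apply integral_congr_ae
  refine Eventually.of_forall fun y => ?_
  simp only
  ring

theorem U_symm {α ρ : E → ℝ} (hα : Dens α) (hρ : Dens ρ) :
    ∫ x, α x * U ρ x = ∫ x, ρ x * U α x := by
  rw [int_mul_U_eq, int_mul_U_eq,
    integral_integral_swap (f := fun x y => α x * ρ y / ‖x - y‖) (hρ.int_prod hα.int)]
  apply integral_congr_ae
  refine Eventually.of_forall fun x => ?_
  simp only
  apply integral_congr_ae
  refine Eventually.of_forall fun y => ?_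
  simp only
  rw [norm_sub_rev]; ring

theorem U_add {α ρ : E → ℝ} (hα : Dens α) (hρ : Dens ρ) (x : E) :
    U (fun y => α y + ρ y) x = U α x + U ρ x := by
  rw [U_eq, U_eq, U_eq, ← integral_add (hα.kernel_integrable x) (hρ.kernel_integrable x)]
  apply integral_congr_ae
  refine Eventually.of_forall fun y => ?_
  simp only
  ring

theorem U_smul (ρ : E → ℝ) (t : ℝ) (x : E) :
    U (fun y => t * ρ y) x = t * U ρ x := by
  unfold U
  rw [← integral_const_mul]
  apply integral_congr_ae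
  refine Eventually.of_forall fun y => ?_
  simp only
  ring

/-- Expansion of the Coulomb energy. -/
theorem coulomb_expand {ρ γ : E → ℝ} (hρ : Dens ρ) (hγ : Dens γ) {t : ℝ} (ht : 0 ≤ t) :
    ∫ x, (ρ x + t * γ x) * U (fun y => ρ y + t * γ y) x =
      (∫ x, ρ x * U ρ x) + 2 * t * (∫ x, γ x * U ρ x) + t ^ 2 * ∫ x, γ x * U γ x := by
  have hs := U_symm hρ hγ
  have i1 := hρ.int_mul_U hρ.int
  have i2 := hρ.int_mul_U hγ.int
  have i3 := hγ.int_mul_U hρ.int
  have i4 := hγ.int_mul_U hγ.int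
  have e : ∀ x, (ρ x + t * γ x) * U (fun y => ρ y + t * γ y) x =
      ρ x * U ρ x + t * (ρ x * U γ x) + t * (γ x * U ρ x) + t ^ 2 * (γ x * U γ x) := by
    intro x
    rw [U_add hρ (hγ.smul ht), U_smul]
    ring
  simp_rw [e]
  have j1 : Integrable (fun x => ρ x * U ρ x + t * (ρ x * U γ x)) := i1.add (i3.const_mul t)
  have j2 : Integrable (fun x => ρ x * U ρ x + t * (ρ x * U γ x) + t * (γ x * U ρ x)) :=
    j1.add (i2.const_mul t)
  rw [integral_add j2 (i4.const_mul _), integral_add j1 (i2.const_mul _),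
    integral_add i1 (i3.const_mul _), integral_const_mul, integral_const_mul, integral_const_mul,
    hs]
  ring

end Pool.Agent.Helper99.TFW
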