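import Mathlib

/-!
# Real valued Fatou lemma and a generalized dominated convergence lemma
-/

set_option autoImplicit false

open MeasureTheory Filter Topology
open scoped ENNReal NNReal

namespace Pool.Agent.Helper99.TFW

variable {α : Type*} [MeasurableSpace α] {μ : Measure α}

/-- Real valued Fatou lemma. -/
theorem fatou_real {f : ℕ → α → ℝ} {f0 : α → ℝ} {c : ℝ}
    (hf : ∀ n, Integrable (f n) μ) (h0 : ∀ n, 0 ≤ᵐ[μ] f n)
    (hlim : ∀ᵐ x ∂μ, Tendsto (fun n => f n x) atTop (𝓝 (f0 x)))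
    (hI : Tendsto (fun n => ∫ x, f n x ∂μ) atTop (𝓝 c)) :
    Integrable f0 μ ∧ 0 ≤ᵐ[μ] f0 ∧ ∫ x, f0 x ∂μ ≤ c := by
  have hmeas : AEStronglyMeasurable f0 μ :=
    aestronglyMeasurable_of_tendsto_ae atTop (fun n => (hf n).1) hlim
  have h00 : 0 ≤ᵐ[μ] f0 := by
    have h0' : ∀ᵐ x ∂μ, ∀ n, 0 ≤ f n x := ae_all_iff.2 h0
    filter_upwards [h0', hlim] with x h1 h2
    exact ge_of_tendsto' h2 h1
  have key : ∫⁻ x, ENNReal.ofReal (f0 x) ∂μ ≤ ENNReal.ofReal c := by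
    have h1 : ∫⁻ x, ENNReal.ofReal (f0 x) ∂μ =
        ∫⁻ x, liminf (fun n => ENNReal.ofReal (f n x)) atTop ∂μ := by
      apply lintegral_congr_ae
      filter_upwards [hlim] with x hx
      exact ((ENNReal.continuous_ofReal.tendsto _).comp hx).liminf_eq.symm
    rw [h1]
    refine (lintegral_liminf_le' (fun n => (hf n).1.aemeasurable.ennreal_ofReal)).trans ?_
    have h2 : ∀ n, ∫⁻ x, ENNReal.ofReal (f n x) ∂μ = ENNReal.ofReal (∫ x, f n x ∂μ) := fun n =>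
      (ofReal_integral_eq_lintegral_ofReal (hf n) (h0 n)).symm
    simp_rw [h2]
    exact ((ENNReal.continuous_ofReal.tendsto _).comp hI).liminf_eq.le
  have hint : Integrable f0 μ := by
    refine ⟨hmeas, ?_⟩
    rw [hasFiniteIntegral_iff_ofReal h00]
    exact key.trans_lt ENNReal.ofReal_lt_top
  refine ⟨hint, h00, ?_⟩
  rw [← ofReal_integral_eq_lintegral_ofReal hint h00] at key
  have hc : 0 ≤ c := ge_of_tendsto' hI fun n => integral_nonneg_of_ae (h0 n)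
  exact (ENNReal.ofReal_le_ofReal_iff hc).1 key

/-- Generalized dominated convergence (Pratt). -/
theorem tendsto_integral_zero_of_dominated_seq {f F : ℕ → α → ℝ} {F0 : α → ℝ}
    (hf : ∀ n, Integrable (f n) μ) (hF : ∀ n, Integrable (F n) μ)
    (h0 : ∀ n, 0 ≤ᵐ[μ] f n) (hle : ∀ n, f n ≤ᵐ[μ] F n)
    (hFlim : ∀ᵐ x ∂μ, Tendsto (fun n => F n x) atTop (𝓝 (F0 x)))
    (hflim : ∀ᵐ x ∂μ, Tendsto (fun n => f n x) atTop (𝓝 0))
    (hInt : Tendsto (fun n => ∫ x, F n x ∂μ) atTop (𝓝 (∫ x, F0 x ∂μ))) :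
    Tendsto (fun n => ∫ x, f n x ∂μ) atTop (𝓝 0) := by
  apply tendsto_of_subseq_tendsto
  intro ns hns
  -- bounded
  obtain ⟨B, hB⟩ : ∃ B, ∀ n, ∫ x, F n x ∂μ ≤ B := by
    obtain ⟨B, hB⟩ := hInt.bddAbove_range
    exact ⟨B, fun n => hB ⟨n, rfl⟩⟩
  have hmem : ∀ k, ∫ x, f (ns k) x ∂μ ∈ Set.Icc (0 : ℝ) B := by
    intro k
    refine ⟨integral_nonneg_of_ae (h0 _), ?_⟩
    exact (integral_mono_ae (hf _) (hF _) (hle _)).trans (hB _)
  obtain ⟨c, hc, φ, hφ, hlim⟩ := isCompact_Icc.tendsto_subseq hmem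
  refine ⟨φ, ?_⟩
  have hcomp : Tendsto (fun k => ns (φ k)) atTop atTop := hns.comp hφ.tendsto_atTop
  have h1 := fatou_real (μ := μ) (f := fun k x => F (ns (φ k)) x - f (ns (φ k)) x) (f0 := F0)
    (c := ∫ x, F0 x ∂μ - c) (fun k => (hF _).sub (hf _))
    (fun k => by
      filter_upwards [hle (ns (φ k))] with x hx
      simpa using hx)
    (by
      filter_upwards [hFlim, hflim] with x hx1 hx2
      have := (hx1.comp hcomp).sub (hx2.comp hcomp)
      simpa using this)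
    (by
      have h2 : ∀ k, ∫ x, (F (ns (φ k)) x - f (ns (φ k)) x) ∂μ =
          ∫ x, F (ns (φ k)) x ∂μ - ∫ x, f (ns (φ k)) x ∂μ := fun k => integral_sub (hF _) (hf _)
      simp_rw [h2]
      exact (hInt.comp hcomp).sub hlim)
  have hc0 : c = 0 := le_antisymm (by linarith [h1.2.2]) hc.1
  rw [← hc0]
  exact hlim

end Pool.Agent.Helper99.TFW
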