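import Mathlib
import Pool.Agent.helper99.TFW.Basic
import Pool.Agent.helper99.TFW.Fatou

/-!
# Mollification
-/

set_option autoImplicit false
set_option linter.unusedSectionVars false

open MeasureTheory Filter Topology
open scoped ENNReal NNReal Convolution

namespace Pool.Agent.Helper99.TFW

/-- A sequence of bump functions concentrating at zero. -/
noncomputable def bump (n : ℕ) : ContDiffBump (0 : E) where
  rIn := 1 / (2 * ((n : ℝ) + 1))
  rOut := 1 / ((n : ℝ) + 1)
  rIn_pos := by positivity
  rIn_lt_rOut := by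
    apply one_div_lt_one_div_of_lt (by positivity)
    have : (0 : ℝ) < (n : ℝ) + 1 := by positivity
    linarith

/-- The normalized bump. -/
noncomputable def eta (n : ℕ) : E → ℝ := (bump n).normed volume

theorem eta_nonneg (n : ℕ) (x : E) : 0 ≤ eta n x := (bump n).nonneg_normed x

theorem eta_contDiff (n : ℕ) : ContDiff ℝ (⊤ : ℕ∞) (eta n) := (bump n).contDiff_normed

theorem eta_continuous (n : ℕ) : Continuous (eta n) := (bump n).continuous_normed

theorem eta_compact (n : ℕ) : HasCompactSupport (eta n) := (bump n).hasCompactSupport_normed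

theorem eta_integral (n : ℕ) : ∫ x, eta n x = 1 := (bump n).integral_normed

theorem eta_integrable (n : ℕ) : Integrable (eta n) := (bump n).integrable_normed

theorem eta_zero (n : ℕ) (x : E) (hx : 1 / ((n : ℝ) + 1) ≤ ‖x‖) : eta n x = 0 := by
  by_contra h
  have : x ∈ Function.support ((bump n).normed volume) := h
  rw [ContDiffBump.support_normed_eq] at this
  simp only [Metric.mem_ball, dist_zero_right] at this
  have h2 : (bump n).rOut = 1 / ((n : ℝ) + 1) := rfl
  rw [h2] at this
  linarith

variable {F : Type*} [NormedAddCommGroup F] [NormedSpace ℝ F] [CompleteSpace F]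

/-- Mollification. -/
noncomputable def moll (n : ℕ) (w : E → F) (x : E) : F := ∫ t, eta n t • w (x - t)

theorem moll_eq (n : ℕ) (w : E → F) :
    moll n w = ((bump n).normed volume ⋆[ContinuousLinearMap.lsmul ℝ ℝ, volume] w) := rfl

theorem moll_swap (n : ℕ) (w : E → F) (x : E) : moll n w x = ∫ t, eta n (x - t) • w t := by
  rw [moll_eq, convolution_lsmul_swap]
  rfl

theorem moll_contDiff (n : ℕ) {w : E → F} (hw : LocallyIntegrable w) :
    ContDiff ℝ (⊤ : ℕ∞) (moll n w) := by
  rw [moll_eq]
  exact (eta_compact n).contDiff_convolution_left _ (eta_contDiff n) hw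

theorem moll_continuous (n : ℕ) {w : E → F} (hw : LocallyIntegrable w) :
    Continuous (moll n w) := (moll_contDiff n hw).continuous

theorem moll_integrand (n : ℕ) {w : E → F} (hw : LocallyIntegrable w) (x : E) :
    Integrable (fun t => eta n t • w (x - t)) :=
  (eta_compact n).convolutionExists_left (ContinuousLinearMap.lsmul ℝ ℝ) (eta_continuous n) hw x

theorem moll_integrand_swap (n : ℕ) {w : E → F} (hw : LocallyIntegrable w) (x : E) :
    Integrable (fun t => eta n (x - t) • w t) := by
  have := (moll_integrand n hw x).comp_sub_left x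
  simpa using this

theorem ae_tendsto_moll {w : E → F} (hw : LocallyIntegrable w) :
    ∀ᵐ x, Tendsto (fun n => moll n w x) atTop (𝓝 (w x)) := by
  refine ContDiffBump.ae_convolution_tendsto_right_of_locallyIntegrable (K := 2) ?_ ?_ hw
  · exact tendsto_one_div_add_atTop_nhds_zero_nat
  · refine Eventually.of_forall fun n => ?_
    change 1 / ((n : ℝ) + 1) ≤ 2 * (1 / (2 * ((n : ℝ) + 1)))
    apply le_of_eq
    field_simp

theorem integral_moll (n : ℕ) {w : E → ℝ} (hw : Integrable w) :
    ∫ x, moll n w x = ∫ x, w x := by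
  have h := integral_convolution (ν := (volume : Measure E)) (μ := (volume : Measure E))
    (ContinuousLinearMap.lsmul ℝ ℝ) (eta_integrable n) hw
  rw [eta_integral, ContinuousLinearMap.lsmul_apply, one_smul] at h
  exact h

theorem integrable_moll (n : ℕ) {w : E → F} (hw : Integrable w) :
    Integrable (moll n w) :=
  (eta_integrable n).integrable_convolution (ContinuousLinearMap.lsmul ℝ ℝ) hw

theorem moll_nonneg (n : ℕ) {w : E → ℝ} (hw : ∀ x, 0 ≤ w x) (x : E) : 0 ≤ moll n w x :=
  integral_nonneg fun _ => mul_nonneg (eta_nonneg _ _) (hw _)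

theorem locInt_of_L2 {w : E → F} (hw : MemLp w 2) : LocallyIntegrable w :=
  hw.locallyIntegrable (by norm_num)

theorem integrable_normsq {w : E → F} (hw : MemLp w 2) : Integrable (fun x => ‖w x‖ ^ 2) :=
  (memLp_two_iff_integrable_sq_norm hw.1).1 hw

/-- Jensen's inequality for mollification. -/
theorem norm_moll_sq_le (n : ℕ) {w : E → F} (hw : MemLp w 2) (x : E) :
    ‖moll n w x‖ ^ 2 ≤ moll n (fun y => ‖w y‖ ^ 2) x := by
  have hl := locInt_of_L2 hw
  have hl2 : LocallyIntegrable (fun y => ‖w y‖ ^ 2) := (integrable_normsq hw).locallyIntegrable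
  have hl1 : LocallyIntegrable (fun y => ‖w y‖) := locInt_of_L2 hw.norm
  set s := moll n (fun y => ‖w y‖) x with hs
  have h1 : ‖moll n w x‖ ≤ s := by
    refine (norm_integral_le_integral_norm _).trans (le_of_eq ?_)
    rw [hs]
    apply integral_congr_ae
    refine Eventually.of_forall fun t => ?_
    simp only [norm_smul, smul_eq_mul, Real.norm_eq_abs, abs_of_nonneg (eta_nonneg _ _)]
  have hi1 := moll_integrand n hl1 x
  have hi2 := moll_integrand n hl2 x
  have h2 : 0 ≤ ∫ t, eta n t * (‖w (x - t)‖ - s) ^ 2 :=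
    integral_nonneg fun t => mul_nonneg (eta_nonneg _ _) (sq_nonneg _)
  have h3 : ∫ t, eta n t * (‖w (x - t)‖ - s) ^ 2 =
      moll n (fun y => ‖w y‖ ^ 2) x - 2 * s * s + s ^ 2 * 1 := by
    have : ∀ t, eta n t * (‖w (x - t)‖ - s) ^ 2 =
        eta n t • ‖w (x - t)‖ ^ 2 - (2 * s) * (eta n t • ‖w (x - t)‖) + s ^ 2 * eta n t := by
      intro t; simp only [smul_eq_mul]; ring
    simp_rw [this]
    have hs1 : Integrable (fun t => eta n t • ‖w (x - t)‖ ^ 2 -
        (2 * s) * (eta n t • ‖w (x - t)‖)) := hi2.sub (hi1.const_mul _)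
    rw [integral_add hs1 ((eta_integrable n).const_mul _),
      integral_sub hi2 (hi1.const_mul _), integral_const_mul, integral_const_mul, eta_integral]
    rfl
  have h4 : ‖moll n w x‖ ^ 2 ≤ s ^ 2 := pow_le_pow_left₀ (norm_nonneg _) h1 2
  nlinarith

theorem memLp_moll (n : ℕ) {w : E → F} (hw : MemLp w 2) : MemLp (moll n w) 2 := by
  have hc := moll_continuous n (locInt_of_L2 hw)
  rw [memLp_two_iff_integrable_sq_norm hc.aestronglyMeasurable]
  refine Integrable.mono' (integrable_moll n (integrable_normsq hw)) ?_ ?_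
  · exact (hc.norm.pow 2).aestronglyMeasurable
  · refine Eventually.of_forall fun x => ?_
    simpa using norm_moll_sq_le n hw x

theorem integral_moll_sq_le (n : ℕ) {w : E → F} (hw : MemLp w 2) :
    ∫ x, ‖moll n w x‖ ^ 2 ≤ ∫ x, ‖w x‖ ^ 2 := by
  rw [← integral_moll n (integrable_normsq hw)]
  exact integral_mono (integrable_normsq (memLp_moll n hw))
    (integrable_moll n (integrable_normsq hw)) (fun x => norm_moll_sq_le n hw x)

/-- Mollifications converge in `L²`. -/
theorem tendsto_moll {w : E → F} (hw : MemLp w 2) :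
    Tendsto (fun n => ∫ x, ‖moll n w x - w x‖ ^ 2) atTop (𝓝 0) := by
  have hi := integrable_normsq hw
  refine tendsto_integral_zero_of_dominated_seq
    (F := fun n x => 2 * moll n (fun y => ‖w y‖ ^ 2) x + 2 * ‖w x‖ ^ 2)
    (F0 := fun x => 4 * ‖w x‖ ^ 2) ?_ ?_ ?_ ?_ ?_ ?_ ?_
  · intro n
    exact integrable_normsq ((memLp_moll n hw).sub hw)
  · intro n
    exact ((integrable_moll n hi).const_mul 2).add (hi.const_mul 2)
  · intro n
    exact Eventually.of_forall fun x => sq_nonneg _
  · intro n
    refine Eventually.of_forall fun x => ?_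
    have h1 := norm_moll_sq_le n hw x
    have h2 : ‖moll n w x - w x‖ ^ 2 ≤ 2 * ‖moll n w x‖ ^ 2 + 2 * ‖w x‖ ^ 2 := by
      have h3 := norm_sub_le (moll n w x) (w x)
      have h4 := norm_nonneg (moll n w x - w x)
      have h5 : ‖moll n w x - w x‖ ^ 2 ≤ (‖moll n w x‖ + ‖w x‖) ^ 2 :=
        pow_le_pow_left₀ h4 h3 2
      nlinarith [sq_nonneg (‖moll n w x‖ - ‖w x‖)]
    simp only
    linarith
  · filter_upwards [ae_tendsto_moll hi.locallyIntegrable] with x hx
    have := (hx.const_mul 2).add (tendsto_const_nhds (x := 2 * ‖w x‖ ^ 2))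
    convert this using 2
    ring
  · filter_upwards [ae_tendsto_moll (locInt_of_L2 hw)] with x hx
    have := ((hx.sub (tendsto_const_nhds (x := w x))).norm).pow 2
    simpa using this
  · have : ∀ n, ∫ x, (2 * moll n (fun y => ‖w y‖ ^ 2) x + 2 * ‖w x‖ ^ 2) = ∫ x, 4 * ‖w x‖ ^ 2 := by
      intro n
      rw [integral_add ((integrable_moll n hi).const_mul 2) (hi.const_mul 2),
        integral_const_mul, integral_const_mul, integral_const_mul, integral_moll n hi]
      ring
    simp_rw [this]
    exact tendsto_const_nhds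

/-- The derivative of the mollification of a function with a weak gradient. -/
theorem fderiv_moll {u : E → ℝ} {g : E → E} (h : H1 u g) (n : ℕ) (x v : E) :
    fderiv ℝ (moll n u) x v = inner ℝ (moll n g x) v := by
  have hlu := locInt_of_L2 h.mem
  have hlg := locInt_of_L2 h.memg
  have h1 := (eta_compact n).hasFDerivAt_convolution_left (ContinuousLinearMap.lsmul ℝ ℝ)
    (((eta_contDiff n).of_le (by exact_mod_cast le_top))) hlu x
  have h2 : fderiv ℝ (moll n u) x = _ := h1.fderiv
  rw [h2, convolution_eq_swap]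
  have hint : Integrable (fun t => ((ContinuousLinearMap.lsmul ℝ ℝ :
      ℝ →L[ℝ] ℝ →L[ℝ] ℝ).precompL E) (fderiv ℝ (eta n) (x - t)) (u t)) := by
    have h3 := ((eta_compact n).fderiv (𝕜 := ℝ)).convolutionExists_left
      ((ContinuousLinearMap.lsmul ℝ ℝ : ℝ →L[ℝ] ℝ →L[ℝ] ℝ).precompL E)
      ((eta_contDiff n).continuous_fderiv (by simp)) hlu x
    have h4 := (convolutionExistsAt_iff_integrable_swap).1 h3
    exact h4
  rw [ContinuousLinearMap.integral_apply hint]
  have h5 : ∀ t, (((ContinuousLinearMap.lsmul ℝ ℝ :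
      ℝ →L[ℝ] ℝ →L[ℝ] ℝ).precompL E) (fderiv ℝ (eta n) (x - t)) (u t)) v =
      - (u t * fderiv ℝ (fun y => eta n (x - y)) t v) := by
    intro t
    have hd : HasFDerivAt (fun y => eta n (x - y))
        ((fderiv ℝ (eta n) (x - t)).comp (-(ContinuousLinearMap.id ℝ E))) t := by
      have hd1 : HasFDerivAt (eta n) (fderiv ℝ (eta n) (x - t)) (x - t) :=
        (((eta_contDiff n).differentiable (by simp)) _).hasFDerivAt
      have hd2 : HasFDerivAt (fun y : E => x - y) (-(ContinuousLinearMap.id ℝ E)) t := by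
        simpa using (hasFDerivAt_id t).const_sub x
      exact hd1.comp t hd2
    rw [hd.fderiv]
    simp only [ContinuousLinearMap.precompL_apply, ContinuousLinearMap.lsmul_apply,
      ContinuousLinearMap.comp_apply, neg_apply,
      ContinuousLinearMap.id_apply, map_neg, smul_eq_mul]
    ring
  simp_rw [h5]
  rw [integral_neg]
  have h6 := h.wg (fun y => eta n (x - y)) ?_ ?_ v
  · rw [h6, neg_neg, moll_swap]
    have h7 : ∀ t, inner ℝ (g t) v * eta n (x - t) = inner ℝ (eta n (x - t) • g t) v := by
      intro t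
      rw [real_inner_smul_left]; ring
    simp_rw [h7]
    have h8 := integral_inner (𝕜 := ℝ) (moll_integrand_swap n hlg x) v
    rw [real_inner_comm] at h8
    rw [← h8]
    apply integral_congr_ae
    refine Eventually.of_forall fun t => ?_
    simp only [real_inner_comm]
  · exact (eta_contDiff n).comp (contDiff_const.sub contDiff_id)
  · have := (eta_compact n).comp_homeomorph (Homeomorph.subLeft x)
    exact this

theorem grad_moll {u : E → ℝ} {g : E → E} (h : H1 u g) (n : ℕ) :
    grad (moll n u) = moll n g := by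
  ext1 x
  refine ext_inner_right ℝ fun v => ?_
  rw [inner_grad, fderiv_moll h]

end Pool.Agent.Helper99.TFW
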