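import Mathlib
import Pool.Agent.helper99.TFW.Moll

/-!
# Calculus of weak gradients
-/

set_option autoImplicit false
set_option linter.unusedSectionVars false

open MeasureTheory Filter Topology
open scoped ENNReal NNReal

namespace Pool.Agent.Helper99.TFW

theorem continuous_fderiv_apply {u : E → ℝ} (hu : ContDiff ℝ 1 u) (v : E) :
    Continuous (fun x => fderiv ℝ u x v) :=
  (hu.continuous_fderiv (by norm_num)).clm_apply continuous_const

theorem compact_fderiv_apply {u : E → ℝ} (hc : HasCompactSupport u) (v : E) :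
    HasCompactSupport (fun x => fderiv ℝ u x v) :=
  hc.fderiv_apply (𝕜 := ℝ) v

theorem compact_grad {u : E → ℝ} (hc : HasCompactSupport u) :
    HasCompactSupport (grad u) := by
  have h := hc.fderiv (𝕜 := ℝ)
  exact h.comp_left (g := (InnerProductSpace.toDual ℝ E).symm) (by simp)

/-- Classical integration by parts. -/
theorem ibp {u η : E → ℝ} (hu : ContDiff ℝ 1 u) (hη : ContDiff ℝ 1 η)
    (hc : HasCompactSupport η) (v : E) :
    ∫ x, u x * fderiv ℝ η x v = -∫ x, inner ℝ (grad u x) v * η x := by
  have h := integral_mul_fderiv_eq_neg_fderiv_mul_of_integrable (μ := (volume : Measure E))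
    (f := u) (g := η) (v := v) ?_ ?_ ?_ ?_ ?_
  · rw [h]
    simp_rw [inner_grad]
  · exact ((continuous_fderiv_apply hu v).mul hη.continuous).integrable_of_hasCompactSupport
      hc.mul_left
  · exact (hu.continuous.mul (continuous_fderiv_apply hη v)).integrable_of_hasCompactSupport
      (compact_fderiv_apply hc v).mul_left
  · exact (hu.continuous.mul hη.continuous).integrable_of_hasCompactSupport hc.mul_left
  · exact fun x _ => hu.differentiable (by norm_num) x
  · exact fun x _ => hη.differentiable (by norm_num) x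

theorem contDiff_one_of_top {φ : E → ℝ} (h : ContDiff ℝ (⊤ : ℕ∞) φ) : ContDiff ℝ 1 φ :=
  h.of_le (by exact_mod_cast le_top)

theorem H1_of_contDiff {u : E → ℝ} (hu : ContDiff ℝ 1 u) (h2 : MemLp u 2)
    (hg : MemLp (grad u) 2) : H1 u (grad u) :=
  ⟨h2, hg, fun _ hφ hc v => ibp hu (contDiff_one_of_top hφ) hc v⟩

theorem H1_of_compact {u : E → ℝ} (hu : ContDiff ℝ 1 u) (hc : HasCompactSupport u) :
    H1 u (grad u) :=
  H1_of_contDiff hu (hu.continuous.memLp_of_hasCompactSupport hc)
    ((continuous_grad hu).memLp_of_hasCompactSupport (compact_grad hc))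

/-- Weak gradients may be tested against compactly supported `C¹` functions. -/
theorem H1.test {u : E → ℝ} {g : E → E} (h : H1 u g) {η : E → ℝ} (hη : ContDiff ℝ 1 η)
    (hc : HasCompactSupport η) (v : E) :
    ∫ x, u x * fderiv ℝ η x v = -∫ x, inner ℝ (g x) v * η x := by
  have h1 : ∀ n, ∫ x, moll n u x * fderiv ℝ η x v = -∫ x, inner ℝ (moll n g x) (η x • v) := by
    intro n
    rw [ibp (contDiff_one_of_top (moll_contDiff n (locInt_of_L2 h.mem))) hη hc v, grad_moll h]
    congr 1
    apply integral_congr_ae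
    refine Eventually.of_forall fun x => ?_
    simp only [real_inner_smul_right]
    ring
  have hk : MemLp (fun x => fderiv ℝ η x v) 2 :=
    (continuous_fderiv_apply hη v).memLp_of_hasCompactSupport (compact_fderiv_apply hc v)
  have hk2 : MemLp (fun x => η x • v) 2 :=
    (hη.continuous.smul continuous_const).memLp_of_hasCompactSupport hc.smul_right
  have l1 := tendsto_integral_mul (fun n => memLp_moll n h.mem) h.mem hk (tendsto_moll h.mem)
  have l2 := (tendsto_integral_inner (fun n => memLp_moll n h.memg) h.memg hk2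
    (tendsto_moll h.memg)).neg
  simp_rw [h1] at l1
  have h3 := tendsto_nhds_unique l1 l2
  rw [h3]
  congr 1
  apply integral_congr_ae
  refine Eventually.of_forall fun x => ?_
  simp only [real_inner_smul_right]
  ring

theorem H1.of_tendsto {u : E → ℝ} {g : E → E} {U : ℕ → E → ℝ} {G : ℕ → E → E}
    (h : ∀ n, H1 (U n) (G n)) (hu : MemLp u 2) (hg : MemLp g 2)
    (h1 : Tendsto (fun n => ∫ x, ‖U n x - u x‖ ^ 2) atTop (𝓝 0))
    (h2 : Tendsto (fun n => ∫ x, ‖G n x - g x‖ ^ 2) atTop (𝓝 0)) : H1 u g := by
  refine ⟨hu, hg, fun φ hφ hc v => ?_⟩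
  have hφ1 := contDiff_one_of_top hφ
  have hk : MemLp (fun x => fderiv ℝ φ x v) 2 :=
    (continuous_fderiv_apply hφ1 v).memLp_of_hasCompactSupport (compact_fderiv_apply hc v)
  have hk2 : MemLp (fun x => φ x • v) 2 :=
    (hφ.continuous.smul continuous_const).memLp_of_hasCompactSupport hc.smul_right
  have l1 := tendsto_integral_mul (fun n => (h n).mem) hu hk h1
  have l2 := (tendsto_integral_inner (fun n => (h n).memg) hg hk2 h2).neg
  have h3 : ∀ n, ∫ x, U n x * fderiv ℝ φ x v = -∫ x, inner ℝ (G n x) (φ x • v) := by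
    intro n
    rw [(h n).wg φ hφ hc v]
    congr 1
    apply integral_congr_ae
    refine Eventually.of_forall fun x => ?_
    simp only [real_inner_smul_right]
    ring
  simp_rw [h3] at l1
  rw [tendsto_nhds_unique l1 l2]
  congr 1
  apply integral_congr_ae
  refine Eventually.of_forall fun x => ?_
  simp only [real_inner_smul_right]
  ring

theorem H1.congr_ae {u u' : E → ℝ} {g g' : E → E} (h : H1 u g) (hu : u =ᵐ[volume] u')
    (hg : g =ᵐ[volume] g') : H1 u' g' := by
  refine ⟨h.mem.ae_eq hu, h.memg.ae_eq hg, fun φ hφ hc v => ?_⟩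
  have h1 := h.wg φ hφ hc v
  have e1 : ∫ x, u' x * fderiv ℝ φ x v = ∫ x, u x * fderiv ℝ φ x v := by
    apply integral_congr_ae
    filter_upwards [hu] with x hx
    rw [hx]
  have e2 : ∫ x, inner ℝ (g' x) v * φ x = ∫ x, inner ℝ (g x) v * φ x := by
    apply integral_congr_ae
    filter_upwards [hg] with x hx
    rw [hx]
  rw [e1, e2, h1]

theorem H1.add_smul {u η : E → ℝ} {g γ : E → E} (h : H1 u g) (h' : H1 η γ) (t : ℝ) :
    H1 (fun x => u x + t * η x) (fun x => g x + t • γ x) := by
  refine ⟨h.mem.add (h'.mem.const_mul t), h.memg.add (h'.memg.const_smul t), ?_⟩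
  intro φ hφ hc v
  have hφ1 := contDiff_one_of_top hφ
  have hk : MemLp (fun x => fderiv ℝ φ x v) 2 :=
    (continuous_fderiv_apply hφ1 v).memLp_of_hasCompactSupport (compact_fderiv_apply hc v)
  have hk2 : MemLp (fun x => φ x • v) 2 :=
    (hφ.continuous.smul continuous_const).memLp_of_hasCompactSupport hc.smul_right
  have i1 := integrable_mul_L2 h.mem hk
  have i2 := integrable_mul_L2 h'.mem hk
  have i3 := integrable_inner h.memg hk2
  have i4 := integrable_inner h'.memg hk2
  have e1 : ∫ x, (u x + t * η x) * fderiv ℝ φ x v =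
      (∫ x, u x * fderiv ℝ φ x v) + t * ∫ x, η x * fderiv ℝ φ x v := by
    rw [← integral_const_mul, ← integral_add i1 (i2.const_mul t)]
    apply integral_congr_ae
    refine Eventually.of_forall fun x => ?_
    ring
  have e2 : ∫ x, inner ℝ (g x + t • γ x) v * φ x =
      (∫ x, inner ℝ (g x) v * φ x) + t * ∫ x, inner ℝ (γ x) v * φ x := by
    have i3' : Integrable (fun x => inner ℝ (g x) v * φ x) := by
      refine i3.congr (Eventually.of_forall fun x => ?_)
      simp only [real_inner_smul_right]; ring
    have i4' : Integrable (fun x => inner ℝ (γ x) v * φ x) := by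
      refine i4.congr (Eventually.of_forall fun x => ?_)
      simp only [real_inner_smul_right]; ring
    rw [← integral_const_mul, ← integral_add i3' (i4'.const_mul t)]
    apply integral_congr_ae
    refine Eventually.of_forall fun x => ?_
    simp only [inner_add_left, real_inner_smul_left]
    ring
  rw [e1, e2, h.wg φ hφ hc v, h'.wg φ hφ hc v]
  ring

theorem exists_bound_of_compact {F : Type*} [NormedAddCommGroup F] {f : E → F}
    (hf : Continuous f) (hc : HasCompactSupport f) : ∃ C, 0 ≤ C ∧ ∀ x, ‖f x‖ ≤ C := by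
  obtain ⟨C, hC⟩ := hf.bounded_above_of_compact_support hc
  exact ⟨max C 0, le_max_right _ _, fun x => (hC x).trans (le_max_left _ _)⟩

/-- Multiplication by a compactly supported `C¹` function. -/
theorem H1.mul_test {u f : E → ℝ} {g : E → E} (h : H1 u g) (hf : ContDiff ℝ 1 f)
    (hc : HasCompactSupport f) :
    H1 (fun x => f x * u x) (fun x => u x • grad f x + f x • g x) := by
  obtain ⟨C, hC0, hC⟩ := exists_bound_of_compact hf.continuous hc
  obtain ⟨C', hC0', hC'⟩ := exists_bound_of_compact (continuous_grad hf) (compact_grad hc)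
  have m1 : MemLp (fun x => f x * u x) 2 := by
    refine h.mem.of_le_mul (c := C) (hf.continuous.aestronglyMeasurable.mul h.mem.1) ?_
    refine Eventually.of_forall fun x => ?_
    rw [norm_mul]
    exact mul_le_mul_of_nonneg_right (hC x) (norm_nonneg _)
  have m2 : MemLp (fun x => u x • grad f x) 2 := by
    refine h.mem.of_le_mul (c := C') (h.mem.1.smul (continuous_grad hf).aestronglyMeasurable) ?_
    refine Eventually.of_forall fun x => ?_
    rw [norm_smul, mul_comm]
    exact mul_le_mul_of_nonneg_right (hC' x) (norm_nonneg _)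
  have m3 : MemLp (fun x => f x • g x) 2 := by
    refine h.memg.of_le_mul (c := C) (hf.continuous.aestronglyMeasurable.smul h.memg.1) ?_
    refine Eventually.of_forall fun x => ?_
    rw [norm_smul]
    exact mul_le_mul_of_nonneg_right (hC x) (norm_nonneg _)
  refine ⟨m1, m2.add m3, ?_⟩
  intro φ hφ hcφ v
  have hφ1 := contDiff_one_of_top hφ
  have hk : MemLp (fun x => fderiv ℝ φ x v) 2 :=
    (continuous_fderiv_apply hφ1 v).memLp_of_hasCompactSupport (compact_fderiv_apply hcφ v)
  have hk2 : MemLp (fun x => φ x • v) 2 :=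
    (hφ.continuous.smul continuous_const).memLp_of_hasCompactSupport hcφ.smul_right
  have hfφ : ContDiff ℝ 1 (fun x => f x * φ x) := hf.mul hφ1
  have hcfφ : HasCompactSupport (fun x => f x * φ x) := hcφ.mul_left
  have key := h.test hfφ hcfφ v
  have hd : ∀ x, fderiv ℝ (fun x => f x * φ x) x v =
      f x * fderiv ℝ φ x v + φ x * fderiv ℝ f x v := by
    intro x
    have h1 : HasFDerivAt (fun x => f x * φ x) (f x • fderiv ℝ φ x + φ x • fderiv ℝ f x) x :=
      (hf.differentiable (by norm_num) x).hasFDerivAt.mul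
        (hφ1.differentiable (by norm_num) x).hasFDerivAt
    rw [h1.fderiv]
    simp
  simp_rw [hd] at key
  have i1 := integrable_mul_L2 m1 hk
  have i2 : Integrable (fun x => u x * (φ x * fderiv ℝ f x v)) := by
    refine integrable_mul_L2 h.mem ?_
    exact (hφ.continuous.mul (continuous_fderiv_apply hf v)).memLp_of_hasCompactSupport
      hcφ.mul_right
  have i3 : Integrable (fun x => inner ℝ (f x • g x) v * φ x) := by
    refine (integrable_inner m3 hk2).congr (Eventually.of_forall fun x => ?_)
    simp only [real_inner_smul_right]; ring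
  have i4 : Integrable (fun x => inner ℝ (u x • grad f x) v * φ x) := by
    refine (integrable_inner m2 hk2).congr (Eventually.of_forall fun x => ?_)
    simp only [real_inner_smul_right]; ring
  have e1 : ∫ x, u x * (f x * fderiv ℝ φ x v + φ x * fderiv ℝ f x v) =
      (∫ x, f x * u x * fderiv ℝ φ x v) + ∫ x, u x * (φ x * fderiv ℝ f x v) := by
    rw [← integral_add i1 i2]
    apply integral_congr_ae
    refine Eventually.of_forall fun x => ?_
    ring
  have e2 : ∫ x, inner ℝ (u x • grad f x + f x • g x) v * φ x =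
      (∫ x, inner ℝ (u x • grad f x) v * φ x) + ∫ x, inner ℝ (f x • g x) v * φ x := by
    rw [← integral_add i4 i3]
    apply integral_congr_ae
    refine Eventually.of_forall fun x => ?_
    simp only [inner_add_left]
    ring
  have e3 : ∫ x, inner ℝ (u x • grad f x) v * φ x = ∫ x, u x * (φ x * fderiv ℝ f x v) := by
    apply integral_congr_ae
    refine Eventually.of_forall fun x => ?_
    simp only [real_inner_smul_left, inner_grad]
    ring
  have e4 : ∫ x, inner ℝ (f x • g x) v * φ x = ∫ x, inner ℝ (g x) v * (f x * φ x) := by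
    apply integral_congr_ae
    refine Eventually.of_forall fun x => ?_
    simp only [real_inner_smul_left]
    ring
  rw [e2, e3, e4]
  rw [e1] at key
  linarith

/-- Lipschitz bound from a derivative bound on the half line. -/
theorem lip_of_deriv {Φ Φ' : ℝ → ℝ} {C : ℝ} (hΦ : ∀ s, 0 ≤ s → HasDerivAt Φ (Φ' s) s)
    (hb : ∀ s, 0 ≤ s → |Φ' s| ≤ C) {s t : ℝ} (hs : 0 ≤ s) (ht : 0 ≤ t) :
    |Φ s - Φ t| ≤ C * |s - t| := by
  have := Convex.norm_image_sub_le_of_norm_hasDerivWithin_le (s := Set.Ici (0 : ℝ))
    (f := Φ) (f' := Φ') (C := C) (x := t) (y := s)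
    (fun x hx => (hΦ x hx).hasDerivWithinAt) (fun x hx => hb x hx) (convex_Ici 0) ht hs
  simpa [Real.norm_eq_abs] using this

/-- Chain rule for weak gradients. -/
theorem H1.chain {u : E → ℝ} {g : E → E} (h : H1 u g) (h0 : ∀ x, 0 ≤ u x) {Φ Φ' : ℝ → ℝ}
    {C : ℝ} (hΦ : ∀ s, 0 ≤ s → HasDerivAt Φ (Φ' s) s) (hc : ContinuousOn Φ' (Set.Ici 0))
    (hb : ∀ s, 0 ≤ s → |Φ' s| ≤ C) (hΦ0 : Φ 0 = 0) :
    H1 (fun x => Φ (u x)) (fun x => Φ' (u x) • g x) := by
  have hC : 0 ≤ C := (abs_nonneg _).trans (hb 0 le_rfl)
  have hΦc : ContinuousOn Φ (Set.Ici 0) := fun s hs => (hΦ s hs).continuousAt.continuousWithinAt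
  -- continuous extensions
  have hmax : Continuous (fun s : ℝ => max s 0) := continuous_id.max continuous_const
  have hE1 : Continuous (fun s : ℝ => Φ (max s 0)) :=
    hΦc.comp_continuous hmax (fun s => Set.mem_Ici.2 (le_max_right _ _))
  have hE2 : Continuous (fun s : ℝ => Φ' (max s 0)) :=
    hc.comp_continuous hmax (fun s => Set.mem_Ici.2 (le_max_right _ _))
  have meas1 : ∀ w : E → ℝ, AEStronglyMeasurable w volume → (∀ x, 0 ≤ w x) →
      AEStronglyMeasurable (fun x => Φ (w x)) volume := by
    intro w hw hw0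
    have := hE1.comp_aestronglyMeasurable hw
    refine this.congr (Eventually.of_forall fun x => ?_)
    simp [hw0 x]
  have meas2 : ∀ w : E → ℝ, AEStronglyMeasurable w volume → (∀ x, 0 ≤ w x) →
      AEStronglyMeasurable (fun x => Φ' (w x)) volume := by
    intro w hw hw0
    have := hE2.comp_aestronglyMeasurable hw
    refine this.congr (Eventually.of_forall fun x => ?_)
    simp [hw0 x]
  have lip : ∀ s t, 0 ≤ s → 0 ≤ t → |Φ s - Φ t| ≤ C * |s - t| := fun s t hs ht =>
    lip_of_deriv hΦ hb hs ht
  have bd : ∀ s, 0 ≤ s → |Φ s| ≤ C * |s| := by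
    intro s hs
    have := lip s 0 hs le_rfl
    simpa [hΦ0] using this
  have memA : ∀ w : E → ℝ, MemLp w 2 → (∀ x, 0 ≤ w x) → MemLp (fun x => Φ (w x)) 2 := by
    intro w hw hw0
    refine hw.of_le_mul (c := C) (meas1 w hw.1 hw0) (Eventually.of_forall fun x => ?_)
    simpa [Real.norm_eq_abs] using bd (w x) (hw0 x)
  have memB : ∀ (w : E → ℝ) (γ : E → E), AEStronglyMeasurable w volume → (∀ x, 0 ≤ w x) →
      MemLp γ 2 → MemLp (fun x => Φ' (w x) • γ x) 2 := by
    intro w γ hw hw0 hγ
    refine hγ.of_le_mul (c := C) ((meas2 w hw hw0).smul hγ.1) (Eventually.of_forall fun x => ?_)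
    rw [norm_smul]
    exact mul_le_mul_of_nonneg_right (hb _ (hw0 x)) (norm_nonneg _)
  -- approximations
  have hmc : ∀ n, ContDiff ℝ 1 (moll n u) := fun n =>
    contDiff_one_of_top (moll_contDiff n (locInt_of_L2 h.mem))
  have hm0 : ∀ n x, 0 ≤ moll n u x := fun n x => moll_nonneg n h0 x
  have hH : ∀ n, H1 (fun x => Φ (moll n u x)) (fun x => Φ' (moll n u x) • moll n g x) := by
    intro n
    have hd : ∀ x, HasFDerivAt (fun x => Φ (moll n u x))
        (Φ' (moll n u x) • fderiv ℝ (moll n u) x) x := by
      intro x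
      exact (hΦ _ (hm0 n x)).comp_hasFDerivAt x ((hmc n).differentiable (by norm_num) x).hasFDerivAt
    have hC1 : ContDiff ℝ 1 (fun x => Φ (moll n u x)) := by
      rw [contDiff_one_iff_fderiv]
      refine ⟨fun x => (hd x).differentiableAt, ?_⟩
      have : fderiv ℝ (fun x => Φ (moll n u x)) =
          fun x => Φ' (moll n u x) • fderiv ℝ (moll n u) x := by
        ext1 x; exact (hd x).fderiv
      rw [this]
      exact (hc.comp_continuous (hmc n).continuous (fun x => hm0 n x)).smul
        ((hmc n).continuous_fderiv (by norm_num))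
    have hg' : grad (fun x => Φ (moll n u x)) = fun x => Φ' (moll n u x) • moll n g x := by
      ext1 x
      refine ext_inner_right ℝ fun v => ?_
      rw [inner_grad, (hd x).fderiv, real_inner_smul_left, ← grad_moll h, inner_grad]
      simp
    have m1 := memA (moll n u) (memLp_moll n h.mem) (hm0 n)
    have m2 := memB (moll n u) (moll n g) (memLp_moll n h.mem).1 (hm0 n) (memLp_moll n h.memg)
    have := H1_of_contDiff hC1 m1 (by rw [hg']; exact m2)
    rwa [hg'] at this
  have mA := memA u h.mem h0
  have mB := memB u g h.mem.1 h0 h.memg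
  refine H1.of_tendsto hH mA mB ?_ ?_
  · have l1 := (tendsto_moll h.mem).const_mul (C ^ 2)
    rw [mul_zero] at l1
    refine squeeze_zero (fun n => integral_nonneg fun x => sq_nonneg _) (fun n => ?_) l1
    rw [← integral_const_mul]
    refine integral_mono (integrable_normsq ((hH n).mem.sub mA))
      ((integrable_normsq ((memLp_moll n h.mem).sub h.mem)).const_mul _) fun x => ?_
    simp only [Pi.sub_apply, Real.norm_eq_abs]
    have := lip (moll n u x) (u x) (hm0 n x) (h0 x)
    calc |Φ (moll n u x) - Φ (u x)| ^ 2 ≤ (C * |moll n u x - u x|) ^ 2 :=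
          pow_le_pow_left₀ (abs_nonneg _) this 2
      _ = _ := by ring
  · -- gradients
    have l1 := (tendsto_moll h.memg).const_mul (2 * C ^ 2)
    rw [mul_zero] at l1
    have l2 : Tendsto (fun n => ∫ x, 2 * (|Φ' (moll n u x) - Φ' (u x)| ^ 2 * ‖g x‖ ^ 2))
        atTop (𝓝 (∫ _x : E, (0 : ℝ))) := by
      refine tendsto_integral_of_dominated_convergence (fun x => 2 * ((2 * C) ^ 2 * ‖g x‖ ^ 2))
        ?_ ?_ ?_ ?_
      · intro n
        have a1 := (meas2 (moll n u) (memLp_moll n h.mem).1 (hm0 n)).sub (meas2 u h.mem.1 h0)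
        exact ((a1.norm.pow 2).mul (h.memg.1.norm.pow 2)).const_mul 2
      · exact ((integrable_normsq h.memg).const_mul _).const_mul _
      · intro n
        refine Eventually.of_forall fun x => ?_
        have b1 := hb _ (hm0 n x)
        have b2 := hb _ (h0 x)
        have b3 : |Φ' (moll n u x) - Φ' (u x)| ≤ 2 * C := by
          have := abs_sub (Φ' (moll n u x)) (Φ' (u x))
          linarith
        have b4 : |Φ' (moll n u x) - Φ' (u x)| ^ 2 ≤ (2 * C) ^ 2 :=
          pow_le_pow_left₀ (abs_nonneg _) b3 2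
        rw [Real.norm_eq_abs, abs_of_nonneg (by positivity)]
        have := mul_le_mul_of_nonneg_right b4 (sq_nonneg ‖g x‖)
        linarith
      · filter_upwards [ae_tendsto_moll (locInt_of_L2 h.mem)] with x hx
        have c1 : Tendsto (fun n => Φ' (moll n u x)) atTop (𝓝 (Φ' (u x))) := by
          have := (hE2.tendsto (u x)).comp hx
          simp only [Function.comp_def] at this
          rw [max_eq_left (h0 x)] at this
          refine this.congr fun n => ?_
          rw [max_eq_left (hm0 n x)]
        have c2 := (((c1.sub (tendsto_const_nhds (x := Φ' (u x)))).abs.pow 2).mul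
          (tendsto_const_nhds (x := ‖g x‖ ^ 2))).const_mul 2
        simpa using c2
    rw [integral_zero] at l2
    have l3 := l1.add l2
    rw [add_zero] at l3
    refine squeeze_zero (fun n => integral_nonneg fun x => sq_nonneg _) (fun n => ?_) l3
    have i1 : Integrable (fun x => 2 * C ^ 2 * ‖moll n g x - g x‖ ^ 2) :=
      (integrable_normsq ((memLp_moll n h.memg).sub h.memg)).const_mul _
    have i2 : Integrable (fun x => 2 * (|Φ' (moll n u x) - Φ' (u x)| ^ 2 * ‖g x‖ ^ 2)) := by
      refine Integrable.mono' (((integrable_normsq h.memg).const_mul ((2 * C) ^ 2)).const_mul 2)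
        ?_ ?_
      · have a1 := (meas2 (moll n u) (memLp_moll n h.mem).1 (hm0 n)).sub (meas2 u h.mem.1 h0)
        exact ((a1.norm.pow 2).mul (h.memg.1.norm.pow 2)).const_mul 2
      · refine Eventually.of_forall fun x => ?_
        have b1 := hb _ (hm0 n x)
        have b2 := hb _ (h0 x)
        have b3 : |Φ' (moll n u x) - Φ' (u x)| ≤ 2 * C := by
          have := abs_sub (Φ' (moll n u x)) (Φ' (u x))
          linarith
        have b4 : |Φ' (moll n u x) - Φ' (u x)| ^ 2 ≤ (2 * C) ^ 2 :=
          pow_le_pow_left₀ (abs_nonneg _) b3 2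
        rw [Real.norm_eq_abs, abs_of_nonneg (by positivity)]
        have := mul_le_mul_of_nonneg_right b4 (sq_nonneg ‖g x‖)
        linarith
    rw [← integral_const_mul, ← integral_add i1 i2]
    refine integral_mono (integrable_normsq ((hH n).memg.sub mB)) (i1.add i2) fun x => ?_
    simp only [Pi.sub_apply]
    set a := Φ' (moll n u x) with ha
    set b := Φ' (u x) with hb'
    have e1 : a • moll n g x - b • g x = a • (moll n g x - g x) + (a - b) • g x := by
      rw [smul_sub, sub_smul]; abel
    rw [e1]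
    have e2 := norm_add_le (a • (moll n g x - g x)) ((a - b) • g x)
    rw [norm_smul, norm_smul, Real.norm_eq_abs, Real.norm_eq_abs] at e2
    have e3 : |a| ≤ C := hb _ (hm0 n x)
    have e4 : ‖a • (moll n g x - g x) + (a - b) • g x‖ ^ 2 ≤
        (C * ‖moll n g x - g x‖ + |a - b| * ‖g x‖) ^ 2 := by
      refine pow_le_pow_left₀ (norm_nonneg _) (e2.trans ?_) 2
      gcongr
    refine e4.trans ?_
    nlinarith [sq_nonneg (C * ‖moll n g x - g x‖ - |a - b| * ‖g x‖)]

end Pool.Agent.Helper99.TFW
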