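import Mathlib
import Pool.Agent.helper99.TFW.WeakGrad

/-!
# Translation estimates, a Poincaré type inequality, and the mollification error
-/

set_option autoImplicit false
set_option linter.unusedSectionVars false

open MeasureTheory Filter Topology
open scoped ENNReal NNReal

namespace Pool.Agent.Helper99.TFW

/-- Jensen's inequality for the square and a probability weight. -/
theorem jensen_sq {α : Type*} [MeasurableSpace α] {μ : Measure α} {p a : α → ℝ}
    (hp : ∀ t, 0 ≤ p t) (hpi : Integrable p μ) (hp1 : ∫ t, p t ∂μ = 1)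
    (h1 : Integrable (fun t => p t * a t) μ) (h2 : Integrable (fun t => p t * a t ^ 2) μ) :
    (∫ t, p t * a t ∂μ) ^ 2 ≤ ∫ t, p t * a t ^ 2 ∂μ := by
  set s := ∫ t, p t * a t ∂μ with hs
  have h3 : 0 ≤ ∫ t, p t * (a t - s) ^ 2 ∂μ :=
    integral_nonneg fun t => mul_nonneg (hp t) (sq_nonneg _)
  have h4 : ∫ t, p t * (a t - s) ^ 2 ∂μ = (∫ t, p t * a t ^ 2 ∂μ) - 2 * s * s + s ^ 2 * 1 := by
    have : ∀ t, p t * (a t - s) ^ 2 = p t * a t ^ 2 - (2 * s) * (p t * a t) + s ^ 2 * p t := by
      intro t; ring
    simp_rw [this]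
    have hs1 : Integrable (fun t => p t * a t ^ 2 - (2 * s) * (p t * a t)) μ :=
      h2.sub (h1.const_mul _)
    rw [integral_add hs1 (hpi.const_mul _), integral_sub h2 (h1.const_mul _), integral_const_mul,
      integral_const_mul, hp1]
  nlinarith

theorem transl_pointwise {u : E → ℝ} (hu : ContDiff ℝ 1 u) (x z : E) :
    ENNReal.ofReal (‖u (x + z) - u x‖ ^ 2) ≤
      ∫⁻ t in Set.Icc (0 : ℝ) 1, ENNReal.ofReal (‖z‖ ^ 2 * ‖grad u (x + t • z)‖ ^ 2) := by
  have hline : Continuous (fun t : ℝ => x + t • z) := by fun_prop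
  have hcont : Continuous (fun t : ℝ => fderiv ℝ u (x + t • z) z) :=
    (continuous_fderiv_apply hu z).comp hline
  have hftc : ∫ t in (0 : ℝ)..1, fderiv ℝ u (x + t • z) z = u (x + z) - u x := by
    have hd : ∀ t ∈ Set.uIcc (0 : ℝ) 1,
        HasDerivAt (fun t : ℝ => u (x + t • z)) (fderiv ℝ u (x + t • z) z) t := by
      intro t _
      have h1 : HasFDerivAt u (fderiv ℝ u (x + t • z)) (x + t • z) :=
        (hu.differentiable (by norm_num) _).hasFDerivAt
      have h2 : HasDerivAt (fun t : ℝ => x + t • z) z t := by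
        simpa using ((hasDerivAt_id t).smul_const z).const_add x
      exact h1.comp_hasDerivAt t h2
    have := intervalIntegral.integral_eq_sub_of_hasDerivAt hd (hcont.intervalIntegrable _ _)
    simpa using this
  have hI : ∫ t in Set.Icc (0 : ℝ) 1, fderiv ℝ u (x + t • z) z = u (x + z) - u x := by
    rw [integral_Icc_eq_integral_Ioc, ← intervalIntegral.integral_of_le zero_le_one, hftc]
  have hint1 : Integrable (fun t : ℝ => fderiv ℝ u (x + t • z) z)
      (volume.restrict (Set.Icc (0 : ℝ) 1)) := hcont.integrableOn_Icc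
  have hint2 : Integrable (fun t : ℝ => (fderiv ℝ u (x + t • z) z) ^ 2)
      (volume.restrict (Set.Icc (0 : ℝ) 1)) := (hcont.pow 2).integrableOn_Icc
  have hj := jensen_sq (μ := volume.restrict (Set.Icc (0 : ℝ) 1)) (p := fun _ => (1 : ℝ))
    (a := fun t => fderiv ℝ u (x + t • z) z) (fun _ => zero_le_one)
    (integrable_const _) (by simp) (by simpa using hint1) (by simpa using hint2)
  simp only [one_mul] at hj
  rw [hI] at hj
  have hnorm : ‖u (x + z) - u x‖ ^ 2 = (u (x + z) - u x) ^ 2 := by
    rw [Real.norm_eq_abs, sq_abs]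
  rw [hnorm]
  refine (ENNReal.ofReal_le_ofReal hj).trans ?_
  rw [ofReal_integral_eq_lintegral_ofReal hint2 (Eventually.of_forall fun t => sq_nonneg _)]
  refine lintegral_mono fun t => ENNReal.ofReal_le_ofReal ?_
  have h5 : |fderiv ℝ u (x + t • z) z| ≤ ‖grad u (x + t • z)‖ * ‖z‖ := by
    rw [norm_grad]
    exact (fderiv ℝ u (x + t • z)).le_opNorm z
  calc (fderiv ℝ u (x + t • z) z) ^ 2 = |fderiv ℝ u (x + t • z) z| ^ 2 := (sq_abs _).symm
    _ ≤ (‖grad u (x + t • z)‖ * ‖z‖) ^ 2 := pow_le_pow_left₀ (abs_nonneg _) h5 2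
    _ = _ := by ring

theorem transl_C1 {u : E → ℝ} (hu : ContDiff ℝ 1 u) (z : E) {S T : Set E}
    (hS : MeasurableSet S) (hT : MeasurableSet T)
    (hST : ∀ x ∈ S, ∀ t ∈ Set.Icc (0 : ℝ) 1, x + t • z ∈ T) :
    ∫⁻ x in S, ENNReal.ofReal (‖u (x + z) - u x‖ ^ 2) ≤
      ∫⁻ x in T, ENNReal.ofReal (‖z‖ ^ 2 * ‖grad u x‖ ^ 2) := by
  have hgc := continuous_grad hu
  have hm : Measurable (Function.uncurry fun (x : E) (t : ℝ) =>
      ENNReal.ofReal (‖z‖ ^ 2 * ‖grad u (x + t • z)‖ ^ 2)) := by
    have : Continuous (Function.uncurry fun (x : E) (t : ℝ) =>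
        (‖z‖ ^ 2 * ‖grad u (x + t • z)‖ ^ 2)) := by
      have h1 : Continuous (fun p : E × ℝ => p.1 + p.2 • z) := by fun_prop
      have h2 := (hgc.comp h1).norm.pow 2
      exact continuous_const.mul h2
    exact this.measurable.ennreal_ofReal
  calc ∫⁻ x in S, ENNReal.ofReal (‖u (x + z) - u x‖ ^ 2)
      ≤ ∫⁻ x in S, ∫⁻ t in Set.Icc (0 : ℝ) 1,
          ENNReal.ofReal (‖z‖ ^ 2 * ‖grad u (x + t • z)‖ ^ 2) :=
        lintegral_mono fun x => transl_pointwise hu x z
    _ = ∫⁻ t in Set.Icc (0 : ℝ) 1, ∫⁻ x in S,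
          ENNReal.ofReal (‖z‖ ^ 2 * ‖grad u (x + t • z)‖ ^ 2) :=
        lintegral_lintegral_swap hm.aemeasurable
    _ ≤ ∫⁻ t in Set.Icc (0 : ℝ) 1, ∫⁻ x in T,
          ENNReal.ofReal (‖z‖ ^ 2 * ‖grad u x‖ ^ 2) := by
        refine setLIntegral_mono' measurableSet_Icc fun t ht => ?_
        rw [← lintegral_indicator hS, ← lintegral_indicator hT]
        rw [← lintegral_add_right_eq_self (μ := (volume : Measure E))
          (T.indicator fun x => ENNReal.ofReal (‖z‖ ^ 2 * ‖grad u x‖ ^ 2)) (t • z)]
        refine lintegral_mono fun x => ?_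
        by_cases hx : x ∈ S
        · rw [Set.indicator_of_mem hx, Set.indicator_of_mem (hST x hx t ht)]
        · rw [Set.indicator_of_notMem hx]; exact zero_le
    _ = ∫⁻ x in T, ENNReal.ofReal (‖z‖ ^ 2 * ‖grad u x‖ ^ 2) := by simp

theorem memLp_transl {F : Type*} [NormedAddCommGroup F] {w : E → F} (hw : MemLp w 2) (z : E) :
    MemLp (fun x => w (x + z)) 2 :=
  hw.comp_measurePreserving (measurePreserving_add_right volume z)

/-- Translation estimate for functions with weak gradients. -/
theorem H1.transl {u : E → ℝ} {g : E → E} (h : H1 u g) (z : E) {S T : Set E}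
    (hS : MeasurableSet S) (hT : MeasurableSet T)
    (hST : ∀ x ∈ S, ∀ t ∈ Set.Icc (0 : ℝ) 1, x + t • z ∈ T) :
    ∫ x in S, ‖u (x + z) - u x‖ ^ 2 ≤ ‖z‖ ^ 2 * ∫ x in T, ‖g x‖ ^ 2 := by
  have hmm : ∀ n, MemLp (moll n u) 2 := fun n => memLp_moll n h.mem
  have hmg : ∀ n, MemLp (moll n g) 2 := fun n => memLp_moll n h.memg
  have step : ∀ n, ∫ x in S, ‖moll n u (x + z) - moll n u x‖ ^ 2 ≤
      ‖z‖ ^ 2 * ∫ x in T, ‖moll n g x‖ ^ 2 := by
    intro n
    have h1 := transl_C1 (contDiff_one_of_top (moll_contDiff n (locInt_of_L2 h.mem))) z hS hT hST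
    rw [grad_moll h] at h1
    have i1 : Integrable (fun x => ‖moll n u (x + z) - moll n u x‖ ^ 2) (volume.restrict S) :=
      (integrable_normsq ((memLp_transl (hmm n) z).sub (hmm n))).restrict
    have i2 : Integrable (fun x => ‖z‖ ^ 2 * ‖moll n g x‖ ^ 2) (volume.restrict T) :=
      ((integrable_normsq (hmg n)).const_mul _).restrict
    rw [← ofReal_integral_eq_lintegral_ofReal i1 (Eventually.of_forall fun t => sq_nonneg _),
      ← ofReal_integral_eq_lintegral_ofReal i2
        (Eventually.of_forall fun t => mul_nonneg (sq_nonneg _) (sq_nonneg _)),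
      integral_const_mul] at h1
    refine (ENNReal.ofReal_le_ofReal_iff ?_).1 h1
    exact mul_nonneg (sq_nonneg _) (integral_nonneg fun _ => sq_nonneg _)
  have l1 : Tendsto (fun n => ∫ x in S, ‖moll n u (x + z) - moll n u x‖ ^ 2) atTop
      (𝓝 (∫ x in S, ‖u (x + z) - u x‖ ^ 2)) := by
    refine tendsto_integral_norm_sq (μ := volume.restrict S)
      (f := fun n x => moll n u (x + z) - moll n u x) (f₀ := fun x => u (x + z) - u x)
      (fun n => ((memLp_transl (hmm n) z).sub (hmm n)).restrict S)
      (((memLp_transl h.mem z).sub h.mem).restrict S) ?_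
    have l2 := (tendsto_moll h.mem).const_mul 4
    rw [mul_zero] at l2
    refine squeeze_zero (fun n => integral_nonneg fun x => sq_nonneg _) (fun n => ?_) l2
    have m1 : MemLp (fun x => moll n u x - u x) 2 := (hmm n).sub h.mem
    have j1 := integrable_normsq m1
    have j2 := integrable_normsq (memLp_transl m1 z)
    have j3 := integrable_normsq (((memLp_transl (hmm n) z).sub (hmm n)).sub
      ((memLp_transl h.mem z).sub h.mem))
    have e1 : ∫ x, ‖moll n u (x + z) - u (x + z)‖ ^ 2 = ∫ x, ‖moll n u x - u x‖ ^ 2 :=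
      integral_add_right_eq_self (μ := (volume : Measure E))
        (fun x => ‖moll n u x - u x‖ ^ 2) z
    have e2 : 4 * ∫ x, ‖moll n u x - u x‖ ^ 2 =
        ∫ x, (2 * ‖moll n u (x + z) - u (x + z)‖ ^ 2 + 2 * ‖moll n u x - u x‖ ^ 2) := by
      rw [integral_add (j2.const_mul 2) (j1.const_mul 2), integral_const_mul,
        integral_const_mul, e1]
      ring
    rw [e2]
    refine (setIntegral_le_integral j3 (Eventually.of_forall fun x => sq_nonneg _)).trans ?_
    refine integral_mono j3 ((j2.const_mul 2).add (j1.const_mul 2)) fun x => ?_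
    simp only [Pi.sub_apply]
    have e3 : moll n u (x + z) - moll n u x - (u (x + z) - u x) =
      (moll n u (x + z) - u (x + z)) - (moll n u x - u x) := by ring
    rw [e3, Real.norm_eq_abs, Real.norm_eq_abs, Real.norm_eq_abs, sq_abs, sq_abs, sq_abs]
    nlinarith [sq_nonneg ((moll n u (x + z) - u (x + z)) + (moll n u x - u x))]
  have l3 : Tendsto (fun n => ‖z‖ ^ 2 * ∫ x in T, ‖moll n g x‖ ^ 2) atTop
      (𝓝 (‖z‖ ^ 2 * ∫ x in T, ‖g x‖ ^ 2)) := by
    refine Tendsto.const_mul _ ?_
    refine tendsto_integral_norm_sq (μ := volume.restrict T)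
      (fun n => (hmg n).restrict T) (h.memg.restrict T) ?_
    refine squeeze_zero (fun n => integral_nonneg fun x => sq_nonneg _) (fun n => ?_)
      (tendsto_moll h.memg)
    exact setIntegral_le_integral (integrable_normsq ((hmg n).sub h.memg))
      (Eventually.of_forall fun x => sq_nonneg _)
  exact le_of_tendsto_of_tendsto' l1 l3 step

theorem aemeas_diff {u : E → ℝ} (hu : AEStronglyMeasurable u volume) :
    AEMeasurable (fun p : E × E => ENNReal.ofReal (‖u (p.1 + p.2) - u p.1‖ ^ 2))
      ((volume : Measure E).prod (volume : Measure E)) := by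
  have h1 : AEStronglyMeasurable (fun p : E × E => u (p.1 + p.2))
      ((volume : Measure E).prod (volume : Measure E)) := by
    have hq : Measure.QuasiMeasurePreserving (fun p : E × E => p.1 + p.2)
        ((volume : Measure E).prod (volume : Measure E)) volume := by
      have := measurePreserving_add_prod (volume : Measure E) (volume : Measure E)
      have h2 : Measure.QuasiMeasurePreserving (Prod.fst : E × E → E)
        ((volume : Measure E).prod (volume : Measure E)) volume :=
          Measure.quasiMeasurePreserving_fst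
      exact h2.comp this.quasiMeasurePreserving
    exact hu.comp_quasiMeasurePreserving hq
  have h2 : AEStronglyMeasurable (fun p : E × E => u p.1)
      ((volume : Measure E).prod (volume : Measure E)) := hu.comp_fst
  exact ((h1.sub h2).norm.pow 2).aemeasurable.ennreal_ofReal

/-- A Poincaré type inequality. -/
theorem H1.poincare {u : E → ℝ} {g : E → E} (h : H1 u g) {R : ℝ} (hR : 0 < R) :
    ∫⁻ x in Metric.ball (0 : E) R, ∫⁻ y in Metric.ball (0 : E) R,
      ENNReal.ofReal (‖u y - u x‖ ^ 2) ≤
    volume (Metric.ball (0 : E) (2 * R)) *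
      ENNReal.ofReal ((2 * R) ^ 2 * ∫ x in Metric.ball (0 : E) (3 * R), ‖g x‖ ^ 2) := by
  set B := Metric.ball (0 : E) R with hB
  set B2 := Metric.ball (0 : E) (2 * R) with hB2
  set B3 := Metric.ball (0 : E) (3 * R) with hB3
  have step1 : ∀ x ∈ B, ∫⁻ y in B, ENNReal.ofReal (‖u y - u x‖ ^ 2) ≤
      ∫⁻ z in B2, ENNReal.ofReal (‖u (x + z) - u x‖ ^ 2) := by
    intro x hx
    rw [← lintegral_indicator measurableSet_ball, ← lintegral_indicator measurableSet_ball]
    rw [← lintegral_add_left_eq_self (μ := (volume : Measure E))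
      (B.indicator fun y => ENNReal.ofReal (‖u y - u x‖ ^ 2)) x]
    refine lintegral_mono fun z => ?_
    by_cases hz : x + z ∈ B
    · have hz2 : z ∈ B2 := by
        simp only [hB, hB2, Metric.mem_ball, dist_zero_right] at hx hz ⊢
        have : ‖z‖ ≤ ‖x + z‖ + ‖x‖ := by
          have := norm_sub_le (x + z) x
          simpa using this
        linarith
      rw [Set.indicator_of_mem hz, Set.indicator_of_mem hz2]
    · rw [Set.indicator_of_notMem hz]; exact zero_le
  have hmeas : AEMeasurable (Function.uncurry fun (x : E) (z : E) =>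
      ENNReal.ofReal (‖u (x + z) - u x‖ ^ 2))
      (((volume : Measure E).restrict B).prod ((volume : Measure E).restrict B2)) := by
    have h1 := aemeas_diff h.mem.1
    rw [Measure.prod_restrict]
    exact h1.restrict
  calc ∫⁻ x in B, ∫⁻ y in B, ENNReal.ofReal (‖u y - u x‖ ^ 2)
      ≤ ∫⁻ x in B, ∫⁻ z in B2, ENNReal.ofReal (‖u (x + z) - u x‖ ^ 2) :=
        setLIntegral_mono' measurableSet_ball step1
    _ = ∫⁻ z in B2, ∫⁻ x in B, ENNReal.ofReal (‖u (x + z) - u x‖ ^ 2) :=
        lintegral_lintegral_swap hmeas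
    _ ≤ ∫⁻ _z in B2, ENNReal.ofReal ((2 * R) ^ 2 * ∫ x in B3, ‖g x‖ ^ 2) := by
        refine setLIntegral_mono' measurableSet_ball fun z hz => ?_
        have hz' : ‖z‖ < 2 * R := by simpa [hB2] using hz
        have h1 := h.transl z (S := B) (T := B3) measurableSet_ball measurableSet_ball ?_
        · have i1 : Integrable (fun x => ‖u (x + z) - u x‖ ^ 2) (volume.restrict B) :=
            (integrable_normsq ((memLp_transl h.mem z).sub h.mem)).restrict
          rw [← ofReal_integral_eq_lintegral_ofReal i1 (Eventually.of_forall fun t => sq_nonneg _)]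
          refine ENNReal.ofReal_le_ofReal (h1.trans ?_)
          refine mul_le_mul_of_nonneg_right ?_ (integral_nonneg fun _ => sq_nonneg _)
          exact pow_le_pow_left₀ (norm_nonneg _) hz'.le 2
        · intro x hx t ht
          simp only [hB, hB3, Metric.mem_ball, dist_zero_right] at hx ⊢
          have h2 : ‖x + t • z‖ ≤ ‖x‖ + ‖t • z‖ := norm_add_le _ _
          have h3 : ‖t • z‖ ≤ ‖z‖ := by
            rw [norm_smul, Real.norm_eq_abs, abs_of_nonneg ht.1]
            exact mul_le_of_le_one_left (norm_nonneg _) ht.2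
          linarith
    _ = volume B2 * ENNReal.ofReal ((2 * R) ^ 2 * ∫ x in B3, ‖g x‖ ^ 2) := by
        rw [lintegral_const, Measure.restrict_apply_univ, mul_comm]

/-- The mollification error. -/
theorem H1.moll_err {u : E → ℝ} {g : E → E} (h : H1 u g) (n : ℕ) :
    ∫ x, ‖moll n u x - u x‖ ^ 2 ≤ (1 / ((n : ℝ) + 1)) ^ 2 * ∫ x, ‖g x‖ ^ 2 := by
  set I := ∫ x, ‖g x‖ ^ 2 with hI
  have hI0 : 0 ≤ I := integral_nonneg fun _ => sq_nonneg _
  have hl := locInt_of_L2 h.mem
  have hl2 : LocallyIntegrable (fun y => ‖u y‖ ^ 2) := (integrable_normsq h.mem).locallyIntegrable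
  -- pointwise bound
  have pw : ∀ x, ENNReal.ofReal (‖moll n u x - u x‖ ^ 2) ≤
      ∫⁻ t, ENNReal.ofReal (eta n t) * ENNReal.ofReal (‖u (x + (-t)) - u x‖ ^ 2) := by
    intro x
    have a1 := moll_integrand n hl x
    have a2 := moll_integrand n hl2 x
    simp only [smul_eq_mul] at a1 a2
    have b1 : Integrable (fun t => eta n t * (u (x - t) - u x)) := by
      have := a1.sub ((eta_integrable n).mul_const (u x))
      refine this.congr (Eventually.of_forall fun t => ?_)
      simp only [Pi.sub_apply]; ring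
    have b2 : Integrable (fun t => eta n t * (u (x - t) - u x) ^ 2) := by
      have := (a2.sub (a1.const_mul (2 * u x))).add ((eta_integrable n).mul_const (u x ^ 2))
      refine this.congr (Eventually.of_forall fun t => ?_)
      simp only [Pi.sub_apply, Pi.add_apply, Real.norm_eq_abs, sq_abs]; ring
    have hj := jensen_sq (eta_nonneg n) (eta_integrable n) (eta_integral n) b1 b2
    have e1 : ∫ t, eta n t * (u (x - t) - u x) = moll n u x - u x := by
      have : ∀ t, eta n t * (u (x - t) - u x) = eta n t * u (x - t) - eta n t * u x := by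
        intro t; ring
      simp_rw [this]
      rw [integral_sub a1 ((eta_integrable n).mul_const (u x)), integral_mul_const, eta_integral,
        one_mul]
      rfl
    rw [e1] at hj
    have e2 : ‖moll n u x - u x‖ ^ 2 = (moll n u x - u x) ^ 2 := by
      rw [Real.norm_eq_abs, sq_abs]
    rw [e2]
    refine (ENNReal.ofReal_le_ofReal hj).trans ?_
    rw [ofReal_integral_eq_lintegral_ofReal b2
      (Eventually.of_forall fun t => mul_nonneg (eta_nonneg _ _) (sq_nonneg _))]
    refine lintegral_mono fun t => ?_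
    rw [ENNReal.ofReal_mul (eta_nonneg _ _), Real.norm_eq_abs, sq_abs, ← sub_eq_add_neg]
  have hmeas : AEMeasurable (Function.uncurry fun (x : E) (t : E) =>
      ENNReal.ofReal (eta n t) * ENNReal.ofReal (‖u (x + (-t)) - u x‖ ^ 2))
      ((volume : Measure E).prod (volume : Measure E)) := by
    have h1 := aemeas_diff h.mem.1
    have hq : Measure.QuasiMeasurePreserving (fun p : E × E => (p.1, -p.2))
        ((volume : Measure E).prod (volume : Measure E))
        ((volume : Measure E).prod (volume : Measure E)) :=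
      ((MeasurePreserving.id (volume : Measure E)).prod
        (Measure.measurePreserving_neg (volume : Measure E))).quasiMeasurePreserving
    have h2 := h1.comp_quasiMeasurePreserving hq
    have h3 : AEMeasurable (fun p : E × E => ENNReal.ofReal (eta n p.2))
        ((volume : Measure E).prod (volume : Measure E)) :=
      ((eta_continuous n).measurable.comp measurable_snd).ennreal_ofReal.aemeasurable
    exact h3.mul h2
  have main : ∫⁻ x, ENNReal.ofReal (‖moll n u x - u x‖ ^ 2) ≤
      ENNReal.ofReal ((1 / ((n : ℝ) + 1)) ^ 2 * I) := by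
    calc ∫⁻ x, ENNReal.ofReal (‖moll n u x - u x‖ ^ 2)
        ≤ ∫⁻ x, ∫⁻ t, ENNReal.ofReal (eta n t) * ENNReal.ofReal (‖u (x + (-t)) - u x‖ ^ 2) :=
          lintegral_mono pw
      _ = ∫⁻ t, ∫⁻ x, ENNReal.ofReal (eta n t) * ENNReal.ofReal (‖u (x + (-t)) - u x‖ ^ 2) :=
          lintegral_lintegral_swap hmeas
      _ ≤ ∫⁻ t, ENNReal.ofReal (eta n t) * ENNReal.ofReal ((1 / ((n : ℝ) + 1)) ^ 2 * I) := by
          refine lintegral_mono fun t => ?_
          simp only
          rw [lintegral_const_mul' _ _ ENNReal.ofReal_ne_top]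
          by_cases ht : 1 / ((n : ℝ) + 1) ≤ ‖t‖
          · rw [eta_zero n t ht]; simp
          · push Not at ht
            have h1 := h.transl (-t) (S := Set.univ) (T := Set.univ) MeasurableSet.univ
              MeasurableSet.univ (fun _ _ _ _ => Set.mem_univ _)
            simp only [Measure.restrict_univ, norm_neg] at h1
            have i1 : Integrable (fun x => ‖u (x + (-t)) - u x‖ ^ 2) :=
              integrable_normsq ((memLp_transl h.mem (-t)).sub h.mem)
            rw [← ofReal_integral_eq_lintegral_ofReal i1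
              (Eventually.of_forall fun t => sq_nonneg _)]
            refine mul_le_mul' le_rfl (ENNReal.ofReal_le_ofReal (h1.trans ?_))
            refine mul_le_mul_of_nonneg_right ?_ hI0
            exact pow_le_pow_left₀ (norm_nonneg _) ht.le 2
      _ = ENNReal.ofReal ((1 / ((n : ℝ) + 1)) ^ 2 * I) := by
          rw [lintegral_mul_const' _ _ ENNReal.ofReal_ne_top,
            ← ofReal_integral_eq_lintegral_ofReal (eta_integrable n)
              (Eventually.of_forall fun t => eta_nonneg _ _), eta_integral]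
          simp
  have hfin : Integrable (fun x => ‖moll n u x - u x‖ ^ 2) :=
    integrable_normsq ((memLp_moll n h.mem).sub h.mem)
  rw [← ofReal_integral_eq_lintegral_ofReal hfin
    (Eventually.of_forall fun t => sq_nonneg _)] at main
  exact (ENNReal.ofReal_le_ofReal_iff (mul_nonneg (sq_nonneg _) hI0)).1 main

end Pool.Agent.Helper99.TFW
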