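import Mathlib
import Pool.Agent.helper99.TFW.Trans

/-!
# Local compactness of bounded sequences with bounded weak gradients
-/

set_option autoImplicit false
set_option linter.unusedSectionVars false

open MeasureTheory Filter Topology
open scoped ENNReal NNReal

namespace Pool.Agent.Helper99.TFW

theorem norm_toLp_le {F : Type*} [NormedAddCommGroup F] [InnerProductSpace ℝ F] {f : E → F}
    (hf : MemLp f 2) {C : ℝ} (h : ∫ x, ‖f x‖ ^ 2 ≤ C) : ‖hf.toLp f‖ ≤ Real.sqrt C := by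
  apply Real.le_sqrt_of_sq_le
  rw [norm_toLp_sq]
  exact h

/-- From local `L²` convergence one can extract an almost everywhere convergent subsequence. -/
theorem exists_ae_subseq {ψ : ℕ → E → ℝ} {ψ₀ : E → ℝ} (hm : ∀ n, MemLp (ψ n) 2)
    (hm0 : MemLp ψ₀ 2)
    (h : ∀ R : ℝ, Tendsto (fun n => ∫ x in Metric.ball (0 : E) R, ‖ψ n x - ψ₀ x‖ ^ 2) atTop
      (𝓝 0)) :
    ∃ φ : ℕ → ℕ, StrictMono φ ∧ ∀ᵐ x, Tendsto (fun n => ψ (φ n) x) atTop (𝓝 (ψ₀ x)) := by
  have hi : ∀ n, Integrable (fun x => ‖ψ n x - ψ₀ x‖ ^ 2) := fun n =>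
    integrable_normsq ((hm n).sub hm0)
  obtain ⟨φ, hφ, hsmall⟩ := extraction_forall_of_eventually
    (P := fun j n => ∫ x in Metric.ball (0 : E) (j : ℝ), ‖ψ n x - ψ₀ x‖ ^ 2 ≤ (1 / 2) ^ j)
    (fun j => by
      have hpos : (0 : ℝ) < (1 / 2) ^ j := by positivity
      filter_upwards [(h j).eventually (gt_mem_nhds hpos)] with n hn
      exact hn.le)
  refine ⟨φ, hφ, ?_⟩
  set T : ℕ → E → ℝ≥0∞ := fun j => (Metric.ball (0 : E) (j : ℝ)).indicator
    (fun x => ENNReal.ofReal (‖ψ (φ j) x - ψ₀ x‖ ^ 2)) with hT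
  have hTm : ∀ j, AEMeasurable (T j) volume := by
    intro j
    exact ((hi (φ j)).1.aemeasurable.ennreal_ofReal).indicator measurableSet_ball
  have hsum : ∫⁻ x, ∑' j, T j x ≠ ⊤ := by
    rw [lintegral_tsum hTm]
    have hle : ∀ j, ∫⁻ x, T j x ≤ ENNReal.ofReal ((1 / 2) ^ j) := by
      intro j
      rw [hT, lintegral_indicator measurableSet_ball]
      rw [← ofReal_integral_eq_lintegral_ofReal ((hi (φ j)).restrict)
        (Eventually.of_forall fun t => sq_nonneg _)]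
      exact ENNReal.ofReal_le_ofReal (hsmall j)
    have hsum2 : ∑' j : ℕ, ENNReal.ofReal ((1 / 2 : ℝ) ^ j) ≠ ⊤ := by
      rw [← ENNReal.ofReal_tsum_of_nonneg (fun j => by positivity)
        (summable_geometric_of_lt_one (by norm_num) (by norm_num))]
      exact ENNReal.ofReal_ne_top
    exact ne_top_of_le_ne_top hsum2 (ENNReal.tsum_le_tsum hle)
  have hae : ∀ᵐ x, ∑' j, T j x < ⊤ :=
    ae_lt_top' (AEMeasurable.tsum hTm) hsum
  filter_upwards [hae] with x hx
  have h1 := ENNReal.tendsto_atTop_zero_of_tsum_ne_top hx.ne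
  have h2 : ∀ᶠ j : ℕ in atTop, T j x = ENNReal.ofReal (‖ψ (φ j) x - ψ₀ x‖ ^ 2) := by
    obtain ⟨N, hN⟩ := exists_nat_gt ‖x‖
    filter_upwards [eventually_ge_atTop N] with j hj
    rw [hT]
    apply Set.indicator_of_mem
    simp only [Metric.mem_ball, dist_zero_right]
    exact hN.trans_le (by exact_mod_cast hj)
  have h3 : Tendsto (fun j => ENNReal.ofReal (‖ψ (φ j) x - ψ₀ x‖ ^ 2)) atTop (𝓝 0) :=
    h1.congr' h2
  have h4 : Tendsto (fun j => ‖ψ (φ j) x - ψ₀ x‖ ^ 2) atTop (𝓝 0) := by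
    have := (ENNReal.tendsto_toReal ENNReal.zero_ne_top).comp h3
    simp only [Function.comp_def, ENNReal.toReal_zero] at this
    refine this.congr fun j => ?_
    rw [ENNReal.toReal_ofReal (sq_nonneg _)]
  have h5 : Tendsto (fun j => ‖ψ (φ j) x - ψ₀ x‖) atTop (𝓝 0) := by
    have := h4.sqrt
    rw [Real.sqrt_zero] at this
    refine this.congr fun j => ?_
    rw [Real.sqrt_sq (norm_nonneg _)]
  exact tendsto_iff_norm_sub_tendsto_zero.2 h5

theorem rellich {ψ : ℕ → E → ℝ} {g : ℕ → E → E} (h : ∀ n, H1 (ψ n) (g n)) {C : ℝ}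
    (h1 : ∀ n, ∫ x, ‖ψ n x‖ ^ 2 ≤ C) (h2 : ∀ n, ∫ x, ‖g n x‖ ^ 2 ≤ C) :
    ∃ (φ : ℕ → ℕ) (ψ₀ : E → ℝ) (g₀ : E → E), StrictMono φ ∧ H1 ψ₀ g₀ ∧
      (∀ R : ℝ, Tendsto (fun n => ∫ x in Metric.ball (0 : E) R, ‖ψ (φ n) x - ψ₀ x‖ ^ 2) atTop
        (𝓝 0)) ∧
      (∀ᵐ x, Tendsto (fun n => ψ (φ n) x) atTop (𝓝 (ψ₀ x))) ∧
      (∀ (θ : ℕ → ℕ) (c : ℝ), StrictMono θ →
        Tendsto (fun n => ∫ x, ‖g (φ (θ n)) x‖ ^ 2) atTop (𝓝 c) → ∫ x, ‖g₀ x‖ ^ 2 ≤ c) := by
  have : Fact ((2 : ℝ≥0∞) ≠ ⊤) := ⟨by norm_num⟩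
  have hC0 : 0 ≤ C := (integral_nonneg fun x => sq_nonneg _).trans (h1 0)
  obtain ⟨y, φ1, hφ1, hy⟩ := exists_weak_limit (fun n => (h n).mem.toLp (ψ n)) (Real.sqrt C)
    (fun n => norm_toLp_le _ (h1 n))
  obtain ⟨y', φ2, hφ2, hy'⟩ := exists_weak_limit (fun n => (h (φ1 n)).memg.toLp (g (φ1 n)))
    (Real.sqrt C) (fun n => norm_toLp_le _ (h2 _))
  set ψ₀ : E → ℝ := ⇑y with hψ₀
  set g₀ : E → E := ⇑y' with hg₀
  have m0 : MemLp ψ₀ 2 := Lp.memLp y
  have m0' : MemLp g₀ 2 := Lp.memLp y'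
  have ey : m0.toLp ψ₀ = y := Lp.toLp_coeFn y m0
  have ey' : m0'.toLp g₀ = y' := Lp.toLp_coeFn y' m0'
  -- weak convergence in terms of integrals
  have w1 : ∀ z : E → ℝ, MemLp z 2 → Tendsto (fun n => ∫ x, ψ (φ1 (φ2 n)) x * z x) atTop
      (𝓝 (∫ x, ψ₀ x * z x)) := by
    intro z hz
    have := (hy (hz.toLp z)).comp hφ2.tendsto_atTop
    rw [← ey, inner_toLp] at this
    simp only [Function.comp_def, inner_toLp] at this
    simpa [RCLike.inner_apply, mul_comm] using this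
  have w2 : ∀ z : E → E, MemLp z 2 → Tendsto (fun n => ∫ x, inner ℝ (g (φ1 (φ2 n)) x) (z x)) atTop
      (𝓝 (∫ x, inner ℝ (g₀ x) (z x))) := by
    intro z hz
    have := hy' (hz.toLp z)
    rw [← ey', inner_toLp] at this
    simp only [inner_toLp] at this
    exact this
  have hH : H1 ψ₀ g₀ := by
    refine ⟨m0, m0', fun φ hφ hc v => ?_⟩
    have hφ1' := contDiff_one_of_top hφ
    have hk : MemLp (fun x => fderiv ℝ φ x v) 2 :=
      (continuous_fderiv_apply hφ1' v).memLp_of_hasCompactSupport (compact_fderiv_apply hc v)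
    have hk2 : MemLp (fun x => φ x • v) 2 :=
      (hφ.continuous.smul continuous_const).memLp_of_hasCompactSupport hc.smul_right
    have l1 := w1 _ hk
    have l2 := (w2 _ hk2).neg
    have h3 : ∀ n, ∫ x, ψ (φ1 (φ2 n)) x * fderiv ℝ φ x v =
        -∫ x, inner ℝ (g (φ1 (φ2 n)) x) (φ x • v) := by
      intro n
      rw [(h _).wg φ hφ hc v]
      congr 1
      apply integral_congr_ae
      refine Eventually.of_forall fun x => ?_
      simp only [real_inner_smul_right]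
      ring
    simp_rw [h3] at l1
    rw [tendsto_nhds_unique l1 l2]
    congr 1
    apply integral_congr_ae
    refine Eventually.of_forall fun x => ?_
    simp only [real_inner_smul_right]
    ring
  -- local convergence
  have hloc : ∀ R : ℝ, Tendsto
      (fun n => ∫ x in Metric.ball (0 : E) R, ‖ψ (φ1 (φ2 n)) x - ψ₀ x‖ ^ 2) atTop (𝓝 0) := by
    intro R
    -- convergence of the mollifications
    have hk : ∀ k, Tendsto (fun n => ∫ x in Metric.ball (0 : E) R,
        ‖moll k (ψ (φ1 (φ2 n))) x - moll k ψ₀ x‖ ^ 2) atTop (𝓝 0) := by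
      intro k
      obtain ⟨M, hM0, hM⟩ := exists_bound_of_compact (eta_continuous k) (eta_compact k)
      have bd : ∀ w : E → ℝ, MemLp w 2 → ∀ x, ‖moll k w x‖ ^ 2 ≤ M * ∫ t, ‖w t‖ ^ 2 := by
        intro w hw x
        refine (norm_moll_sq_le k hw x).trans ?_
        rw [moll_swap, ← integral_const_mul]
        refine integral_mono (moll_integrand_swap k (integrable_normsq hw).locallyIntegrable x)
          ((integrable_normsq hw).const_mul M) fun t => ?_
        simp only [smul_eq_mul]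
        refine mul_le_mul_of_nonneg_right ?_ (sq_nonneg _)
        exact (le_abs_self _).trans (hM _)
      have lim0 : Tendsto (fun n => ∫ x in Metric.ball (0 : E) R,
          ‖moll k (ψ (φ1 (φ2 n))) x - moll k ψ₀ x‖ ^ 2) atTop
          (𝓝 (∫ _x in Metric.ball (0 : E) R, (0 : ℝ))) := by
        refine tendsto_integral_of_dominated_convergence
          (fun _ => 2 * (M * C) + 2 * (M * ∫ t, ‖ψ₀ t‖ ^ 2)) ?_ ?_ ?_ ?_
        · intro n
          exact ((integrable_normsq ((memLp_moll k (h _).mem).sub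
            (memLp_moll k m0))).restrict).1
        · exact integrable_const_iff.2 (Or.inr ⟨by
            rw [Measure.restrict_apply_univ]; exact measure_ball_lt_top⟩)
        · intro n
          refine Eventually.of_forall fun x => ?_
          have b1 := bd _ (h (φ1 (φ2 n))).mem x
          have b2 := bd _ m0 x
          have b3 : M * ∫ t, ‖ψ (φ1 (φ2 n)) t‖ ^ 2 ≤ M * C := mul_le_mul_of_nonneg_left (h1 _) hM0
          rw [Real.norm_eq_abs, abs_of_nonneg (sq_nonneg _)]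
          rw [Real.norm_eq_abs, sq_abs] at b1 b2 ⊢
          nlinarith [sq_nonneg (moll k (ψ (φ1 (φ2 n))) x + moll k ψ₀ x)]
        · refine Eventually.of_forall fun x => ?_
          have hz : MemLp (fun t => eta k (x - t)) 2 := by
            refine Continuous.memLp_of_hasCompactSupport ?_ ?_
            · exact (eta_continuous k).comp (continuous_const.sub continuous_id)
            · exact (eta_compact k).comp_homeomorph (Homeomorph.subLeft x)
          have c1 := w1 _ hz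
          have e1 : ∀ w : E → ℝ, moll k w x = ∫ t, w t * eta k (x - t) := by
            intro w
            rw [moll_swap]
            simp only [smul_eq_mul, mul_comm]
          simp_rw [e1]
          have c2 := (c1.sub (tendsto_const_nhds (x := ∫ t, ψ₀ t * eta k (x - t)))).norm.pow 2
          simpa using c2
      simpa using lim0
    rw [Metric.tendsto_atTop]
    intro ε hε
    -- choose k
    obtain ⟨k, hk'⟩ : ∃ k : ℕ, 3 * ((1 / ((k : ℝ) + 1)) ^ 2 * C +
        (1 / ((k : ℝ) + 1)) ^ 2 * ∫ x, ‖g₀ x‖ ^ 2) < ε / 2 := by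
      have l1 : Tendsto (fun k : ℕ => 3 * ((1 / ((k : ℝ) + 1)) ^ 2 * C +
        (1 / ((k : ℝ) + 1)) ^ 2 * ∫ x, ‖g₀ x‖ ^ 2)) atTop (𝓝 0) := by
        have l2 := (tendsto_one_div_add_atTop_nhds_zero_nat (𝕜 := ℝ)).pow 2
        have l3 := ((l2.mul_const C).add (l2.mul_const (∫ x, ‖g₀ x‖ ^ 2))).const_mul 3
        simpa using l3
      exact (l1.eventually (gt_mem_nhds (by positivity))).exists
    obtain ⟨N, hN⟩ := (Metric.tendsto_atTop.1 (hk k)) (ε / 6) (by positivity)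
    refine ⟨N, fun n hn => ?_⟩
    have hNn := hN n hn
    rw [Real.dist_eq, sub_zero, abs_of_nonneg (integral_nonneg fun x => sq_nonneg _)] at hNn ⊢
    set w := ψ (φ1 (φ2 n)) with hw
    have hwm : MemLp w 2 := (h _).mem
    have i1 := integrable_normsq (hwm.sub (memLp_moll k hwm))
    have i1' := integrable_normsq ((memLp_moll k hwm).sub hwm)
    have i2 := integrable_normsq ((memLp_moll k hwm).sub (memLp_moll k m0))
    have i3 := integrable_normsq ((memLp_moll k m0).sub m0)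
    have i4 := integrable_normsq (hwm.sub m0)
    simp only [Pi.sub_apply] at i1 i1' i2 i3 i4
    have e1 : ∫ x in Metric.ball (0 : E) R, ‖w x - ψ₀ x‖ ^ 2 ≤
        ∫ x in Metric.ball (0 : E) R, (3 * ‖moll k w x - w x‖ ^ 2 +
          3 * ‖moll k w x - moll k ψ₀ x‖ ^ 2 + 3 * ‖moll k ψ₀ x - ψ₀ x‖ ^ 2) := by
      refine integral_mono i4.restrict (((i1'.const_mul 3).add (i2.const_mul 3)).add
        (i3.const_mul 3)).restrict fun x => ?_
      simp only [Real.norm_eq_abs, sq_abs]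
      nlinarith [sq_nonneg ((moll k w x - w x) + (moll k w x - moll k ψ₀ x)),
        sq_nonneg ((moll k w x - moll k ψ₀ x) - (moll k ψ₀ x - ψ₀ x)),
        sq_nonneg ((moll k w x - w x) + (moll k ψ₀ x - ψ₀ x))]
    have e2 : ∫ x in Metric.ball (0 : E) R, (3 * ‖moll k w x - w x‖ ^ 2 +
          3 * ‖moll k w x - moll k ψ₀ x‖ ^ 2 + 3 * ‖moll k ψ₀ x - ψ₀ x‖ ^ 2) =
        3 * (∫ x in Metric.ball (0 : E) R, ‖moll k w x - w x‖ ^ 2) +
        3 * (∫ x in Metric.ball (0 : E) R, ‖moll k w x - moll k ψ₀ x‖ ^ 2) +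
        3 * (∫ x in Metric.ball (0 : E) R, ‖moll k ψ₀ x - ψ₀ x‖ ^ 2) := by
      have hs : Integrable (fun x => 3 * ‖moll k w x - w x‖ ^ 2 +
          3 * ‖moll k w x - moll k ψ₀ x‖ ^ 2) (volume.restrict (Metric.ball (0 : E) R)) :=
        ((i1'.const_mul 3).add (i2.const_mul 3)).restrict
      rw [integral_add hs
        ((i3.const_mul 3).restrict), integral_add (i1'.const_mul 3).restrict
        (i2.const_mul 3).restrict, integral_const_mul, integral_const_mul, integral_const_mul]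
    have e3 : ∫ x in Metric.ball (0 : E) R, ‖moll k w x - w x‖ ^ 2 ≤
        (1 / ((k : ℝ) + 1)) ^ 2 * C := by
      refine (setIntegral_le_integral i1' (Eventually.of_forall fun x => sq_nonneg _)).trans ?_
      refine ((h _).moll_err k).trans ?_
      exact mul_le_mul_of_nonneg_left (h2 _) (sq_nonneg _)
    have e4 : ∫ x in Metric.ball (0 : E) R, ‖moll k ψ₀ x - ψ₀ x‖ ^ 2 ≤
        (1 / ((k : ℝ) + 1)) ^ 2 * ∫ x, ‖g₀ x‖ ^ 2 := by
      refine (setIntegral_le_integral i3 (Eventually.of_forall fun x => sq_nonneg _)).trans ?_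
      exact hH.moll_err k
    rw [e2] at e1
    linarith
  obtain ⟨φ3, hφ3, hae⟩ := exists_ae_subseq (fun n => (h (φ1 (φ2 n))).mem) m0 hloc
  refine ⟨fun n => φ1 (φ2 (φ3 n)), ψ₀, g₀, ?_, hH, ?_, hae, ?_⟩
  · exact hφ1.comp (hφ2.comp hφ3)
  · intro R
    exact (hloc R).comp hφ3.tendsto_atTop
  · intro θ c hθ hc
    have l1 : Tendsto (fun n => ∫ x, inner ℝ (g (φ1 (φ2 (φ3 (θ n)))) x) (g₀ x)) atTop
        (𝓝 (∫ x, inner ℝ (g₀ x) (g₀ x))) :=
      (w2 g₀ m0').comp (hφ3.tendsto_atTop.comp hθ.tendsto_atTop)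
    have e0 : ∫ x, inner ℝ (g₀ x) (g₀ x) = ∫ x, ‖g₀ x‖ ^ 2 := by
      simp only [real_inner_self_eq_norm_sq]
    rw [e0] at l1
    have l2 := (hc.sub (l1.const_mul 2)).add (tendsto_const_nhds (x := ∫ x, ‖g₀ x‖ ^ 2))
    have h3 : ∀ n, 0 ≤ (∫ x, ‖g (φ1 (φ2 (φ3 (θ n)))) x‖ ^ 2) -
        2 * (∫ x, inner ℝ (g (φ1 (φ2 (φ3 (θ n)))) x) (g₀ x)) + ∫ x, ‖g₀ x‖ ^ 2 := by
      intro n
      set w := g (φ1 (φ2 (φ3 (θ n)))) with hw
      have hwm : MemLp w 2 := (h _).memg
      have i1 := integrable_normsq hwm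
      have i2 := integrable_inner hwm m0'
      have i3 := integrable_normsq m0'
      have e1 : ∫ x, ‖w x - g₀ x‖ ^ 2 = (∫ x, ‖w x‖ ^ 2) -
          2 * (∫ x, inner ℝ (w x) (g₀ x)) + ∫ x, ‖g₀ x‖ ^ 2 := by
        have : ∀ x, ‖w x - g₀ x‖ ^ 2 = ‖w x‖ ^ 2 - 2 * inner ℝ (w x) (g₀ x) + ‖g₀ x‖ ^ 2 :=
          fun x => norm_sub_sq_real _ _
        simp_rw [this]
        have hs : Integrable (fun x => ‖w x‖ ^ 2 - 2 * inner ℝ (w x) (g₀ x)) :=
          i1.sub (i2.const_mul 2)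
        rw [integral_add hs i3, integral_sub i1 (i2.const_mul 2),
          integral_const_mul]
      rw [← e1]
      exact integral_nonneg fun x => sq_nonneg _
    have h4 := ge_of_tendsto' l2 h3
    linarith

end Pool.Agent.Helper99.TFW
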