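import Mathlib
import Pool.Agent.helper99.TFW.Rellich
import Pool.Agent.helper99.TFW.Kernel

/-!
# Existence of a minimizer of the TFW energy with mass at most `M`
-/

set_option autoImplicit false
set_option linter.unusedSectionVars false

open MeasureTheory Filter Topology
open scoped ENNReal NNReal

namespace Pool.Agent.Helper99.TFW

/-- Admissible pairs. -/
structure Adm (ρ : E → ℝ) (g : E → E) : Prop where
  nn : ∀ x, 0 ≤ ρ x
  int : Integrable ρ
  int53 : Integrable (fun x => ρ x ^ (5 / 3 : ℝ))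
  memg : MemLp g 2
  wg : WG (fun x => Real.sqrt (ρ x)) g

theorem Adm.dens {ρ : E → ℝ} {g : E → E} (h : Adm ρ g) : Dens ρ := ⟨h.nn, h.int, h.int53⟩

theorem memLp_sqrt {ρ : E → ℝ} (h : Integrable ρ) (h0 : ∀ x, 0 ≤ ρ x) :
    MemLp (fun x => Real.sqrt (ρ x)) 2 := by
  have hm : AEStronglyMeasurable (fun x => Real.sqrt (ρ x)) volume :=
    Real.continuous_sqrt.comp_aestronglyMeasurable h.1
  rw [memLp_two_iff_integrable_sq hm]
  refine h.congr (Eventually.of_forall fun x => ?_)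
  simp only
  rw [Real.sq_sqrt (h0 x)]

theorem Adm.h1 {ρ : E → ℝ} {g : E → E} (h : Adm ρ g) : H1 (fun x => Real.sqrt (ρ x)) g :=
  ⟨memLp_sqrt h.int h.nn, h.memg, h.wg⟩

theorem integral_sqrt_sq {ρ : E → ℝ} (h0 : ∀ x, 0 ≤ ρ x) :
    ∫ x, ‖Real.sqrt (ρ x)‖ ^ 2 = ∫ x, ρ x := by
  apply integral_congr_ae
  refine Eventually.of_forall fun x => ?_
  simp only [Real.norm_eq_abs, sq_abs]
  exact Real.sq_sqrt (h0 x)

section Energy

variable {k : ℕ} (z : Fin k → ℝ) (R : Fin k → E)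

/-- The nuclear potential. -/
noncomputable def VV (x : E) : ℝ := ∑ i, z i / ‖x - R i‖

/-- The inner part of the nuclear potential. -/
noncomputable def Vin (x : E) : ℝ := ∑ i, if ‖x - R i‖ < 1 then z i / ‖x - R i‖ else 0

/-- The outer part of the nuclear potential. -/
noncomputable def Vout (x : E) : ℝ := ∑ i, if ‖x - R i‖ < 1 then 0 else z i / ‖x - R i‖

theorem VV_eq (x : E) : VV z R x = Vin z R x + Vout z R x := by
  unfold VV Vin Vout
  rw [← Finset.sum_add_distrib]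
  refine Finset.sum_congr rfl fun i _ => ?_
  split_ifs <;> simp

/-- The TFW energy. -/
noncomputable def energy (ρ : E → ℝ) (g : E → E) : ℝ :=
  (∫ x, ‖g x‖ ^ 2) + (3 / 5 : ℝ) * (∫ x, ρ x ^ (5 / 3 : ℝ))
    - (∫ x, (∑ i, z i / ‖x - R i‖) * ρ x)
    + (1 / 2 : ℝ) * (∫ x, ∫ y, ρ x * ρ y / ‖x - y‖)

variable {z R}

theorem meas_norm_sub (a : E) : Measurable (fun x : E => ‖x - a‖) :=
  (continuous_id.sub continuous_const).norm.measurable

theorem meas_VV : Measurable (VV z R) := by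
  unfold VV
  exact Finset.measurable_sum _ fun i _ => measurable_const.div (meas_norm_sub _)

theorem meas_Vin : Measurable (Vin z R) := by
  unfold Vin
  refine Finset.measurable_sum _ fun i _ => ?_
  exact Measurable.ite (measurableSet_lt (meas_norm_sub _) measurable_const)
    (measurable_const.div (meas_norm_sub _)) measurable_const

theorem meas_Vout : Measurable (Vout z R) := by
  unfold Vout
  refine Finset.measurable_sum _ fun i _ => ?_
  exact Measurable.ite (measurableSet_lt (meas_norm_sub _) measurable_const)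
    measurable_const (measurable_const.div (meas_norm_sub _))

theorem Vin_nonneg (hz : ∀ i, 0 < z i) (x : E) : 0 ≤ Vin z R x := by
  unfold Vin
  refine Finset.sum_nonneg fun i _ => ?_
  split_ifs
  · exact div_nonneg (hz i).le (norm_nonneg _)
  · exact le_rfl

theorem Vout_nonneg (hz : ∀ i, 0 < z i) (x : E) : 0 ≤ Vout z R x := by
  unfold Vout
  refine Finset.sum_nonneg fun i _ => ?_
  split_ifs
  · exact le_rfl
  · exact div_nonneg (hz i).le (norm_nonneg _)

theorem VV_nonneg (hz : ∀ i, 0 < z i) (x : E) : 0 ≤ VV z R x := by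
  rw [VV_eq]; exact add_nonneg (Vin_nonneg hz x) (Vout_nonneg hz x)

theorem Vout_le (hz : ∀ i, 0 < z i) (x : E) : Vout z R x ≤ ∑ i, z i := by
  unfold Vout
  refine Finset.sum_le_sum fun i _ => ?_
  split_ifs with h
  · exact (hz i).le
  · exact div_le_self (hz i).le (not_lt.1 h)

theorem int_VV {ρ : E → ℝ} (h : Dens ρ) : Integrable (fun x => VV z R x * ρ x) := by
  have : (fun x => VV z R x * ρ x) = fun x => ∑ i, z i * (ρ x / ‖x - R i‖) := by
    ext x
    unfold VV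
    rw [Finset.sum_mul]
    refine Finset.sum_congr rfl fun i _ => ?_
    ring
  rw [this]
  exact integrable_finsetSum _ fun i _ => (h.kernel_integrable (R i)).const_mul (z i)

theorem integral_VV {ρ : E → ℝ} (h : Dens ρ) :
    ∫ x, VV z R x * ρ x = ∑ i, z i * ∫ x, ρ x / ‖x - R i‖ := by
  have : (fun x => VV z R x * ρ x) = fun x => ∑ i, z i * (ρ x / ‖x - R i‖) := by
    ext x
    unfold VV
    rw [Finset.sum_mul]
    refine Finset.sum_congr rfl fun i _ => ?_
    ring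
  rw [this, integral_finsetSum _ fun i _ => (h.kernel_integrable (R i)).const_mul (z i)]
  refine Finset.sum_congr rfl fun i _ => ?_
  rw [integral_const_mul]

theorem int_Vout (hz : ∀ i, 0 < z i) {ρ : E → ℝ} (h : Dens ρ) :
    Integrable (fun x => Vout z R x * ρ x) := by
  refine Integrable.mono' (h.int.const_mul (∑ i, z i))
    (meas_Vout.aestronglyMeasurable.mul h.int.1) (Eventually.of_forall fun x => ?_)
  rw [Real.norm_eq_abs, abs_of_nonneg (mul_nonneg (Vout_nonneg hz x) (h.nn x))]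
  exact mul_le_mul_of_nonneg_right (Vout_le hz x) (h.nn x)

theorem int_Vin (hz : ∀ i, 0 < z i) {ρ : E → ℝ} (h : Dens ρ) :
    Integrable (fun x => Vin z R x * ρ x) := by
  have := (int_VV (z := z) (R := R) h).sub (int_Vout (R := R) hz h)
  refine this.congr (Eventually.of_forall fun x => ?_)
  simp only [Pi.sub_apply]
  rw [VV_eq]; ring

theorem integral_VV_split (hz : ∀ i, 0 < z i) {ρ : E → ℝ} (h : Dens ρ) :
    ∫ x, VV z R x * ρ x = (∫ x, Vin z R x * ρ x) + ∫ x, Vout z R x * ρ x := by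
  rw [← integral_add (int_Vin hz h) (int_Vout hz h)]
  apply integral_congr_ae
  refine Eventually.of_forall fun x => ?_
  simp only
  rw [VV_eq]; ring

theorem energy_eq (ρ : E → ℝ) (g : E → E) :
    energy z R ρ g = (∫ x, ‖g x‖ ^ 2) + (3 / 5 : ℝ) * (∫ x, ρ x ^ (5 / 3 : ℝ))
    - (∫ x, VV z R x * ρ x) + (1 / 2 : ℝ) * (∫ x, ρ x * U ρ x) := by
  unfold energy
  rw [int_mul_U_eq]
  rfl

/-- The parameter used in Young's inequality. -/
noncomputable def eps (z : Fin k → ℝ) : ℝ := 3 / (10 * ((∑ i, z i) + 1))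

theorem sum_nonneg' (hz : ∀ i, 0 < z i) : 0 ≤ ∑ i, z i := Finset.sum_nonneg fun i _ => (hz i).le

theorem eps_pos (hz : ∀ i, 0 < z i) : 0 < eps z := by
  have := sum_nonneg' hz
  unfold eps
  positivity

theorem eps_mul (hz : ∀ i, 0 < z i) : (∑ i, z i) * eps z ≤ 3 / 10 := by
  have h := sum_nonneg' hz
  unfold eps
  rw [mul_div_assoc', div_le_iff₀ (by positivity)]
  nlinarith

/-- The auxiliary dominating function. -/
noncomputable def HH (z : Fin k → ℝ) (R : Fin k → E) (x : E) : ℝ :=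
  ∑ i, z i * (eps z ^ (-(3 / 2) : ℝ) * q (x - R i))

theorem int_HH : Integrable (HH z R) := by
  unfold HH
  refine integrable_finsetSum _ fun i _ => ?_
  exact ((q_integrable.comp_sub_right (R i)).const_mul _).const_mul _

theorem Vin_bound (hz : ∀ i, 0 < z i) {a : ℝ} (ha : 0 ≤ a) (x : E) :
    Vin z R x * a ≤ (3 / 10) * a ^ (5 / 3 : ℝ) + HH z R x := by
  have hε := eps_pos hz
  have h1 : Vin z R x * a ≤
      ∑ i, z i * (eps z * a ^ (5 / 3 : ℝ) + eps z ^ (-(3 / 2) : ℝ) * q (x - R i)) := by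
    unfold Vin
    rw [Finset.sum_mul]
    refine Finset.sum_le_sum fun i _ => ?_
    split_ifs with h
    · have h2 := young53 ha (b := 1 / ‖x - R i‖) (by positivity) hε
      have : q (x - R i) = (1 / ‖x - R i‖) ^ (5 / 2 : ℝ) := by simp [q, h]
      rw [this]
      calc z i / ‖x - R i‖ * a = z i * (a * (1 / ‖x - R i‖)) := by ring
        _ ≤ _ := mul_le_mul_of_nonneg_left h2 (hz i).le
    · rw [zero_mul]
      have h3 := q_nonneg (x - R i)
      have h4 := (hz i).le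
      positivity
  refine h1.trans ?_
  have h2 : ∑ i, z i * (eps z * a ^ (5 / 3 : ℝ) + eps z ^ (-(3 / 2) : ℝ) * q (x - R i)) =
      ((∑ i, z i) * eps z) * a ^ (5 / 3 : ℝ) + HH z R x := by
    unfold HH
    rw [Finset.sum_mul, Finset.sum_mul, ← Finset.sum_add_distrib]
    refine Finset.sum_congr rfl fun i _ => ?_
    ring
  rw [h2]
  have h3 : 0 ≤ a ^ (5 / 3 : ℝ) := by positivity
  have := mul_le_mul_of_nonneg_right (eps_mul hz) h3
  linarith

/-- Coercivity. -/
theorem energy_lower (hz : ∀ i, 0 < z i) {M : ℝ} {ρ : E → ℝ} {g : E → E}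
    (h : Adm ρ g) (hm : ∫ x, ρ x ≤ M) :
    (∫ x, ‖g x‖ ^ 2) + (3 / 10 : ℝ) * (∫ x, ρ x ^ (5 / 3 : ℝ)) + (1 / 2) * (∫ x, ρ x * U ρ x)
      - ((∫ x, HH z R x) + (∑ i, z i) * M) ≤ energy z R ρ g := by
  rw [energy_eq, integral_VV_split hz h.dens]
  have h1 : ∫ x, Vin z R x * ρ x ≤ (3 / 10) * (∫ x, ρ x ^ (5 / 3 : ℝ)) + ∫ x, HH z R x := by
    rw [← integral_const_mul, ← integral_add (h.int53.const_mul _) int_HH]
    exact integral_mono (int_Vin hz h.dens) ((h.int53.const_mul _).add int_HH)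
      fun x => Vin_bound hz (h.nn x) x
  have h2 : ∫ x, Vout z R x * ρ x ≤ (∑ i, z i) * M := by
    calc ∫ x, Vout z R x * ρ x ≤ ∫ x, (∑ i, z i) * ρ x :=
          integral_mono (int_Vout hz h.dens) (h.int.const_mul _)
            fun x => mul_le_mul_of_nonneg_right (Vout_le hz x) (h.nn x)
      _ = (∑ i, z i) * ∫ x, ρ x := integral_const_mul _ _
      _ ≤ _ := mul_le_mul_of_nonneg_left hm (sum_nonneg' hz)
  linarith

theorem Adm.zero : Adm (fun _ => 0) (fun _ => 0) := by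
  refine ⟨fun _ => le_rfl, integrable_zero _ _ _, Dens.zero.int53, MemLp.zero, ?_⟩
  intro φ _ _ v
  simp

/-- Convergence of integrals against a bounded function vanishing at infinity. -/
theorem tendsto_out {ρ : ℕ → E → ℝ} {ρ₀ f : E → ℝ} {M B : ℝ} (h0 : ∀ n x, 0 ≤ ρ n x)
    (hi : ∀ n, Integrable (ρ n)) (hm : ∀ n, ∫ x, ρ n x ≤ M) (h00 : ∀ x, 0 ≤ ρ₀ x)
    (hi0 : Integrable ρ₀) (hm0 : ∫ x, ρ₀ x ≤ M)
    (hloc : ∀ S : ℝ, Tendsto (fun n => ∫ x in Metric.ball (0 : E) S, |ρ n x - ρ₀ x|) atTop (𝓝 0))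
    (hf : Measurable f) (hf0 : ∀ x, 0 ≤ f x) (hfB : ∀ x, f x ≤ B)
    (hfinf : ∀ ε > 0, ∃ S : ℝ, ∀ x, S ≤ ‖x‖ → f x ≤ ε) :
    Tendsto (fun n => ∫ x, f x * ρ n x) atTop (𝓝 (∫ x, f x * ρ₀ x)) := by
  have hB0 : 0 ≤ B := (hf0 0).trans (hfB 0)
  have hM0 : 0 ≤ M := (integral_nonneg h00).trans hm0
  have intf : ∀ σ : E → ℝ, Integrable σ → Integrable (fun x => f x * σ x) := by
    intro σ hσ
    refine Integrable.mono' (hσ.norm.const_mul B) (hf.aestronglyMeasurable.mul hσ.1)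
      (Eventually.of_forall fun x => ?_)
    rw [norm_mul, Real.norm_eq_abs (f x), abs_of_nonneg (hf0 x)]
    exact mul_le_mul_of_nonneg_right (hfB x) (norm_nonneg _)
  rw [Metric.tendsto_atTop]
  intro ε hε
  obtain ⟨S, hS⟩ := hfinf (ε / (4 * (M + 1))) (by positivity)
  have hl := (hloc S).const_mul B
  rw [mul_zero] at hl
  obtain ⟨N, hN⟩ := Metric.tendsto_atTop.1 hl (ε / 2) (by positivity)
  refine ⟨N, fun n hn => ?_⟩
  have h1 := hN n hn
  rw [Real.dist_eq, sub_zero, abs_of_nonneg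
    (mul_nonneg hB0 (integral_nonneg fun x => abs_nonneg _))] at h1
  rw [Real.dist_eq, ← integral_sub (intf _ (hi n)) (intf _ hi0)]
  have habs : Integrable (fun x => |ρ n x - ρ₀ x|) := ((hi n).sub hi0).abs
  have hind : Integrable ((Metric.ball (0 : E) S).indicator fun x => |ρ n x - ρ₀ x|) :=
    habs.indicator measurableSet_ball
  have h2 : |∫ x, (f x * ρ n x - f x * ρ₀ x)| ≤
      ∫ x, (B * (Metric.ball (0 : E) S).indicator (fun x => |ρ n x - ρ₀ x|) x +
        (ε / (4 * (M + 1))) * (ρ n x + ρ₀ x)) := by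
    refine (abs_integral_le_integral_abs).trans ?_
    refine integral_mono ((intf _ (hi n)).sub (intf _ hi0)).abs
      ((hind.const_mul B).add (((hi n).add hi0).const_mul _)) fun x => ?_
    simp only
    have e1 : f x * ρ n x - f x * ρ₀ x = f x * (ρ n x - ρ₀ x) := by ring
    rw [e1, abs_mul, abs_of_nonneg (hf0 x)]
    by_cases hx : ‖x‖ < S
    · rw [Set.indicator_of_mem (by simpa using hx)]
      have p1 : 0 ≤ (ε / (4 * (M + 1))) * (ρ n x + ρ₀ x) := by
        have := h0 n x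
        have := h00 x
        positivity
      have p2 := mul_le_mul_of_nonneg_right (hfB x) (abs_nonneg (ρ n x - ρ₀ x))
      linarith
    · rw [Set.indicator_of_notMem (by simpa using hx)]
      have p1 := hS x (not_lt.1 hx)
      have p2 : |ρ n x - ρ₀ x| ≤ ρ n x + ρ₀ x := by
        rw [abs_le]; constructor <;> linarith [h0 n x, h00 x]
      have p3 := mul_le_mul p1 p2 (abs_nonneg _) (by positivity)
      linarith
  have hadd : Integrable (fun x => ρ n x + ρ₀ x) := (hi n).add hi0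
  have h3 : ∫ x, (B * (Metric.ball (0 : E) S).indicator (fun x => |ρ n x - ρ₀ x|) x +
        (ε / (4 * (M + 1))) * (ρ n x + ρ₀ x)) =
      B * (∫ x in Metric.ball (0 : E) S, |ρ n x - ρ₀ x|) +
        (ε / (4 * (M + 1))) * ((∫ x, ρ n x) + ∫ x, ρ₀ x) := by
    rw [integral_add (hind.const_mul B) (hadd.const_mul _), integral_const_mul,
      integral_const_mul, integral_indicator measurableSet_ball, integral_add (hi n) hi0]
  rw [h3] at h2
  have h4 : (ε / (4 * (M + 1))) * ((∫ x, ρ n x) + ∫ x, ρ₀ x) ≤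
      (ε / (4 * (M + 1))) * (2 * M) := by
    refine mul_le_mul_of_nonneg_left ?_ (by positivity)
    linarith [hm n]
  have h5 : (ε / (4 * (M + 1))) * (2 * M) < ε / 2 := by
    rw [div_mul_eq_mul_div, div_lt_div_iff₀ (by positivity) (by norm_num)]
    nlinarith
  linarith

theorem Vout_inf (hz : ∀ i, 0 < z i) : ∀ ε > 0, ∃ S : ℝ, ∀ x, S ≤ ‖x‖ → Vout z R x ≤ ε := by
  intro ε hε
  set Z := ∑ i, z i with hZ
  have hZ0 : 0 ≤ Z := sum_nonneg' hz
  refine ⟨(∑ i, ‖R i‖) + (Z + 1) / ε, fun x hx => ?_⟩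
  have h1 : ∀ i, (Z + 1) / ε ≤ ‖x - R i‖ := by
    intro i
    have h2 : ‖R i‖ ≤ ∑ i, ‖R i‖ :=
      Finset.single_le_sum (f := fun i => ‖R i‖) (fun j _ => norm_nonneg _) (Finset.mem_univ i)
    have h3 : ‖x‖ - ‖R i‖ ≤ ‖x - R i‖ := norm_sub_norm_le _ _
    linarith
  have h2 : Vout z R x ≤ ∑ i, z i * (ε / (Z + 1)) := by
    unfold Vout
    refine Finset.sum_le_sum fun i _ => ?_
    split_ifs with h
    · have := (hz i).le
      positivity
    · rw [div_eq_mul_inv]
      refine mul_le_mul_of_nonneg_left ?_ (hz i).le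
      have hp : 0 < (Z + 1) / ε := by positivity
      have := inv_anti₀ hp (h1 i)
      rwa [inv_div] at this
  refine h2.trans ?_
  rw [← Finset.sum_mul, ← hZ, mul_div_assoc', div_le_iff₀ (by positivity)]
  nlinarith

/-- Existence of a minimizer among admissible pairs with mass at most `M`. -/
theorem exists_min (hz : ∀ i, 0 < z i) {M : ℝ} (hM : 0 ≤ M) :
    ∃ ρ g, Adm ρ g ∧ ∫ x, ρ x ≤ M ∧
      ∀ σ h, Adm σ h → ∫ x, σ x ≤ M → energy z R ρ g ≤ energy z R σ h := by
  set S : Set ℝ := {e | ∃ ρ g, Adm ρ g ∧ ∫ x, ρ x ≤ M ∧ e = energy z R ρ g} with hS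
  set C1 : ℝ := (∫ x, HH z R x) + (∑ i, z i) * M with hC1
  have low : ∀ ρ g, Adm ρ g → ∫ x, ρ x ≤ M → -C1 ≤ energy z R ρ g := by
    intro ρ g h hm
    have h1 := energy_lower (R := R) hz h hm
    have h2 : 0 ≤ ∫ x, ‖g x‖ ^ 2 := integral_nonneg fun _ => sq_nonneg _
    have h3 : 0 ≤ ∫ x, ρ x ^ (5 / 3 : ℝ) := integral_nonneg fun x => Real.rpow_nonneg (h.nn x) _
    have h4 : 0 ≤ ∫ x, ρ x * U ρ x := integral_nonneg fun x => mul_nonneg (h.nn x) (U_nonneg h.nn x)
    linarith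
  have hSne : S.Nonempty := ⟨_, _, _, Adm.zero, by simpa using hM, rfl⟩
  have hSbd : BddBelow S := ⟨-C1, by
    rintro e ⟨ρ, g, h, hm, rfl⟩
    exact low ρ g h hm⟩
  obtain ⟨u, hu1, hu2, hu3⟩ := exists_seq_tendsto_sInf hSne hSbd
  choose ρ g hadm hmass hen using hu3
  set I0 := sInf S with hI0
  -- uniform bounds
  set C2 := u 0 + C1 with hC2
  have bnd : ∀ n, (∫ x, ‖g n x‖ ^ 2) + (3 / 10 : ℝ) * (∫ x, ρ n x ^ (5 / 3 : ℝ)) +
      (1 / 2) * (∫ x, ρ n x * U (ρ n) x) ≤ C2 := by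
    intro n
    have h1 := energy_lower (R := R) hz (hadm n) (hmass n)
    have h2 : u n ≤ u 0 := hu1 (Nat.zero_le n)
    rw [← hen] at h1
    linarith
  have n1 : ∀ n, 0 ≤ ∫ x, ‖g n x‖ ^ 2 := fun n => integral_nonneg fun _ => sq_nonneg _
  have n2 : ∀ n, 0 ≤ ∫ x, ρ n x ^ (5 / 3 : ℝ) := fun n =>
    integral_nonneg fun x => Real.rpow_nonneg ((hadm n).nn x) _
  have n3 : ∀ n, 0 ≤ ∫ x, ρ n x * U (ρ n) x := fun n =>
    integral_nonneg fun x => mul_nonneg ((hadm n).nn x) (U_nonneg (hadm n).nn x)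
  have n4 : ∀ n, 0 ≤ ∫ x, ρ n x := fun n => integral_nonneg (hadm n).nn
  have hC20 : 0 ≤ C2 := by linarith [bnd 0, n1 0, n2 0, n3 0]
  obtain ⟨φ, ψ₀, g₀, hφ, hH0, hloc, hae, hgr⟩ := rellich (ψ := fun n x => Real.sqrt (ρ n x))
    (g := g) (C := max M C2) (fun n => (hadm n).h1)
    (fun n => by
      rw [integral_sqrt_sq (hadm n).nn]
      exact (hmass n).trans (le_max_left _ _))
    (fun n => by
      refine le_trans ?_ (le_max_right M C2)
      linarith [bnd n, n2 n, n3 n])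
  -- extraction
  obtain ⟨a, _, θ1, hθ1, ha⟩ := (isCompact_Icc (a := (0 : ℝ)) (b := C2)).tendsto_subseq
    (x := fun n => ∫ x, ‖g (φ n) x‖ ^ 2)
    (fun n => ⟨n1 _, by linarith [bnd (φ n), n2 (φ n), n3 (φ n)]⟩)
  obtain ⟨b, _, θ2, hθ2, hb⟩ := (isCompact_Icc (a := (0 : ℝ)) (b := 4 * C2)).tendsto_subseq
    (x := fun n => ∫ x, ρ (φ (θ1 n)) x ^ (5 / 3 : ℝ))
    (fun n => ⟨n2 _, by linarith [bnd (φ (θ1 n)), n1 (φ (θ1 n)), n3 (φ (θ1 n))]⟩)
  obtain ⟨d, _, θ3, hθ3, hd⟩ := (isCompact_Icc (a := (0 : ℝ)) (b := 2 * C2)).tendsto_subseq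
    (x := fun n => ∫ x, ρ (φ (θ1 (θ2 n))) x * U (ρ (φ (θ1 (θ2 n)))) x)
    (fun n => ⟨n3 _, by linarith [bnd (φ (θ1 (θ2 n))), n1 (φ (θ1 (θ2 n))), n2 (φ (θ1 (θ2 n)))]⟩)
  obtain ⟨m, hm', θ4, hθ4, hm⟩ := (isCompact_Icc (a := (0 : ℝ)) (b := M)).tendsto_subseq
    (x := fun n => ∫ x, ρ (φ (θ1 (θ2 (θ3 n)))) x)
    (fun n => ⟨n4 _, hmass _⟩)
  set θ : ℕ → ℕ := fun n => θ1 (θ2 (θ3 (θ4 n))) with hθdef
  have hθ : StrictMono θ := hθ1.comp (hθ2.comp (hθ3.comp hθ4))
  set r : ℕ → E → ℝ := fun n => ρ (φ (θ n)) with hr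
  have hrad : ∀ n, Adm (r n) (g (φ (θ n))) := fun n => hadm _
  have la : Tendsto (fun n => ∫ x, ‖g (φ (θ n)) x‖ ^ 2) atTop (𝓝 a) :=
    ha.comp ((hθ2.comp (hθ3.comp hθ4)).tendsto_atTop)
  have lb : Tendsto (fun n => ∫ x, r n x ^ (5 / 3 : ℝ)) atTop (𝓝 b) :=
    hb.comp ((hθ3.comp hθ4).tendsto_atTop)
  have ld : Tendsto (fun n => ∫ x, r n x * U (r n) x) atTop (𝓝 d) :=
    hd.comp (hθ4.tendsto_atTop)
  have lm : Tendsto (fun n => ∫ x, r n x) atTop (𝓝 m) := hm
  have lE : Tendsto (fun n => energy z R (r n) (g (φ (θ n)))) atTop (𝓝 I0) := by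
    have := hu2.comp (hφ.comp hθ).tendsto_atTop
    refine this.congr fun n => ?_
    simp only [Function.comp_def]
    exact hen _
  -- the limit density
  set ρ₀ : E → ℝ := fun x => ψ₀ x ^ 2 with hρ₀
  have hae' : ∀ᵐ x, Tendsto (fun n => Real.sqrt (r n x)) atTop (𝓝 (ψ₀ x)) := by
    filter_upwards [hae] with x hx
    exact hx.comp hθ.tendsto_atTop
  have haer : ∀ᵐ x, Tendsto (fun n => r n x) atTop (𝓝 (ρ₀ x)) := by
    filter_upwards [hae'] with x hx
    refine (hx.pow 2).congr fun n => ?_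
    exact Real.sq_sqrt ((hrad n).nn x)
  have hψnn : ∀ᵐ x, 0 ≤ ψ₀ x := by
    filter_upwards [hae'] with x hx
    exact ge_of_tendsto' hx fun n => Real.sqrt_nonneg _
  have hρnn : ∀ x, 0 ≤ ρ₀ x := fun x => sq_nonneg _
  have F1 := fatou_real (μ := volume) (f := r) (f0 := ρ₀) (c := m)
    (fun n => (hrad n).int) (fun n => Eventually.of_forall (hrad n).nn) haer lm
  have hm0M : ∫ x, ρ₀ x ≤ M := F1.2.2.trans hm'.2
  have F2 := fatou_real (μ := volume) (f := fun n x => r n x ^ (5 / 3 : ℝ))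
    (f0 := fun x => ρ₀ x ^ (5 / 3 : ℝ)) (c := b)
    (fun n => (hrad n).int53)
    (fun n => Eventually.of_forall fun x => Real.rpow_nonneg ((hrad n).nn x) _)
    (by
      filter_upwards [haer] with x hx
      exact (Real.continuousAt_rpow_const _ _ (Or.inr (by norm_num))).tendsto.comp hx) lb
  have hdens : Dens ρ₀ := ⟨hρnn, F1.1, F2.1⟩
  have hadm0 : Adm ρ₀ g₀ := by
    refine ⟨hρnn, F1.1, F2.1, hH0.memg, ?_⟩
    have : H1 (fun x => Real.sqrt (ρ₀ x)) g₀ := by
      refine hH0.congr_ae ?_ (EventuallyEq.refl _ _)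
      filter_upwards [hψnn] with x hx
      rw [hρ₀]
      simp only
      rw [Real.sqrt_sq hx]
    exact this.wg
  -- Coulomb energy
  have F3 : ∫ x, ρ₀ x * U ρ₀ x ≤ d := by
    have h1 := fatou_real (μ := (volume : Measure E).prod (volume : Measure E))
      (f := fun n p => r n p.1 * r n p.2 / ‖p.1 - p.2‖)
      (f0 := fun p => ρ₀ p.1 * ρ₀ p.2 / ‖p.1 - p.2‖) (c := d)
      (fun n => (hrad n).dens.int_prod (hrad n).int)
      (fun n => Eventually.of_forall fun p =>
        div_nonneg (mul_nonneg ((hrad n).nn _) ((hrad n).nn _)) (norm_nonneg _))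
      (by
        have e1 : ∀ᵐ p : E × E ∂((volume : Measure E).prod (volume : Measure E)),
            Tendsto (fun n => r n p.1) atTop (𝓝 (ρ₀ p.1)) :=
          Measure.quasiMeasurePreserving_fst.ae haer
        have e2 : ∀ᵐ p : E × E ∂((volume : Measure E).prod (volume : Measure E)),
            Tendsto (fun n => r n p.2) atTop (𝓝 (ρ₀ p.2)) :=
          Measure.quasiMeasurePreserving_snd.ae haer
        filter_upwards [e1, e2] with p h1 h2
        exact (h1.mul h2).div_const _)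
      (by
        refine ld.congr fun n => ?_
        rw [int_mul_U_eq, integral_prod _ ((hrad n).dens.int_prod (hrad n).int)])
    rw [int_mul_U_eq]
    have h2 := h1.2.2
    rw [integral_prod _ (hdens.int_prod hdens.int)] at h2
    exact h2
  -- local L¹ convergence
  have hloc1 : ∀ S : ℝ, Tendsto (fun n => ∫ x in Metric.ball (0 : E) S, |r n x - ρ₀ x|) atTop
      (𝓝 0) := by
    intro S
    have l1 : Tendsto (fun n => ∫ x in Metric.ball (0 : E) S, ‖Real.sqrt (r n x) - ψ₀ x‖ ^ 2)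
        atTop (𝓝 0) := (hloc S).comp hθ.tendsto_atTop
    have i1 : ∀ n, Integrable (fun x => ‖Real.sqrt (r n x) - ψ₀ x‖ ^ 2)
        (volume.restrict (Metric.ball (0 : E) S)) := fun n =>
      (integrable_normsq ((hrad n).h1.mem.sub hH0.mem)).restrict
    have i2 : Integrable (fun x => ρ₀ x) (volume.restrict (Metric.ball (0 : E) S)) :=
      F1.1.restrict
    refine tendsto_integral_zero_of_dominated_seq (μ := volume.restrict (Metric.ball (0 : E) S))
      (F := fun n x => 2 * ‖Real.sqrt (r n x) - ψ₀ x‖ ^ 2 + ρ₀ x) (F0 := ρ₀) ?_ ?_ ?_ ?_ ?_ ?_ ?_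
    · intro n
      exact (((hrad n).int.sub F1.1).abs).restrict
    · intro n
      exact ((i1 n).const_mul 2).add i2
    · exact fun n => Eventually.of_forall fun x => abs_nonneg _
    · intro n
      refine Eventually.of_forall fun x => ?_
      simp only [Real.norm_eq_abs, sq_abs]
      have e1 : r n x = Real.sqrt (r n x) ^ 2 := (Real.sq_sqrt ((hrad n).nn x)).symm
      set s := Real.sqrt (r n x) with hs
      rw [e1, hρ₀]
      simp only
      rw [abs_le]
      constructor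
      · nlinarith [sq_nonneg (s - ψ₀ x), sq_nonneg s, sq_nonneg (2 * (s - ψ₀ x) + ψ₀ x),
          sq_nonneg ((s - ψ₀ x) + ψ₀ x)]
      · nlinarith [sq_nonneg ((s - ψ₀ x) - ψ₀ x)]
    · refine ae_restrict_of_ae ?_
      filter_upwards [hae'] with x hx
      have := (((hx.sub (tendsto_const_nhds (x := ψ₀ x))).norm.pow 2).const_mul 2).add
        (tendsto_const_nhds (x := ρ₀ x))
      simpa using this
    · refine ae_restrict_of_ae ?_
      filter_upwards [haer] with x hx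
      have := (hx.sub (tendsto_const_nhds (x := ρ₀ x))).abs
      simpa using this
    · have e1 : ∀ n, ∫ x in Metric.ball (0 : E) S, (2 * ‖Real.sqrt (r n x) - ψ₀ x‖ ^ 2 + ρ₀ x) =
          2 * (∫ x in Metric.ball (0 : E) S, ‖Real.sqrt (r n x) - ψ₀ x‖ ^ 2) +
            ∫ x in Metric.ball (0 : E) S, ρ₀ x := by
        intro n
        rw [integral_add ((i1 n).const_mul 2) i2, integral_const_mul]
      simp_rw [e1]
      have := (l1.const_mul 2).add (tendsto_const_nhds (x := ∫ x in Metric.ball (0 : E) S, ρ₀ x))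
      simpa using this
  have lout : Tendsto (fun n => ∫ x, Vout z R x * r n x) atTop (𝓝 (∫ x, Vout z R x * ρ₀ x)) :=
    tendsto_out (fun n => (hrad n).nn) (fun n => (hrad n).int) (fun n => hmass _) hρnn F1.1 hm0M
      hloc1 meas_Vout (Vout_nonneg hz) (Vout_le hz) (Vout_inf hz)
  -- inner part
  have F4 := fatou_real (μ := volume)
    (f := fun n x => (3 / 5) * r n x ^ (5 / 3 : ℝ) - Vin z R x * r n x + HH z R x)
    (f0 := fun x => (3 / 5) * ρ₀ x ^ (5 / 3 : ℝ) - Vin z R x * ρ₀ x + HH z R x)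
    (c := I0 - a + (∫ x, Vout z R x * ρ₀ x) - (1 / 2) * d + ∫ x, HH z R x)
    (fun n => ((((hrad n).int53.const_mul _).sub (int_Vin hz (hrad n).dens)).add int_HH))
    (fun n => Eventually.of_forall fun x => by
      have h1 := Vin_bound (R := R) hz ((hrad n).nn x) x
      have h2 : 0 ≤ r n x ^ (5 / 3 : ℝ) := Real.rpow_nonneg ((hrad n).nn x) _
      simp only [Pi.zero_apply]
      linarith)
    (by
      filter_upwards [haer] with x hx
      have c1 : Tendsto (fun n => r n x ^ (5 / 3 : ℝ)) atTop (𝓝 (ρ₀ x ^ (5 / 3 : ℝ))) :=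
        (Real.continuousAt_rpow_const _ _ (Or.inr (by norm_num))).tendsto.comp hx
      exact ((c1.const_mul _).sub (hx.const_mul _)).add tendsto_const_nhds)
    (by
      have e1 : ∀ n, ∫ x, ((3 / 5) * r n x ^ (5 / 3 : ℝ) - Vin z R x * r n x + HH z R x) =
          energy z R (r n) (g (φ (θ n))) - (∫ x, ‖g (φ (θ n)) x‖ ^ 2) +
            (∫ x, Vout z R x * r n x) - (1 / 2) * (∫ x, r n x * U (r n) x) +
            ∫ x, HH z R x := by
        intro n
        have i1 : Integrable (fun x => (3 / 5) * r n x ^ (5 / 3 : ℝ) - Vin z R x * r n x) :=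
          ((hrad n).int53.const_mul _).sub (int_Vin hz (hrad n).dens)
        rw [integral_add i1 int_HH,
          integral_sub ((hrad n).int53.const_mul _) (int_Vin hz (hrad n).dens),
          integral_const_mul, energy_eq, integral_VV_split hz (hrad n).dens]
        ring
      simp_rw [e1]
      exact (((lE.sub la).add lout).sub (ld.const_mul _)).add tendsto_const_nhds)
  have F5 := F4.2.2
  have e2 : ∫ x, ((3 / 5) * ρ₀ x ^ (5 / 3 : ℝ) - Vin z R x * ρ₀ x + HH z R x) =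
      (3 / 5) * (∫ x, ρ₀ x ^ (5 / 3 : ℝ)) - (∫ x, Vin z R x * ρ₀ x) + ∫ x, HH z R x := by
    have i1 : Integrable (fun x => (3 / 5) * ρ₀ x ^ (5 / 3 : ℝ) - Vin z R x * ρ₀ x) :=
      (hdens.int53.const_mul _).sub (int_Vin hz hdens)
    rw [integral_add i1 int_HH, integral_sub (hdens.int53.const_mul _) (int_Vin hz hdens),
      integral_const_mul]
  rw [e2] at F5
  have F6 : ∫ x, ‖g₀ x‖ ^ 2 ≤ a := hgr θ a hθ la
  refine ⟨ρ₀, g₀, hadm0, hm0M, fun σ h hσ hσM => ?_⟩
  have f1 : energy z R ρ₀ g₀ ≤ I0 := by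
    rw [energy_eq, integral_VV_split hz hdens]
    linarith
  exact f1.trans (csInf_le hSbd ⟨σ, h, hσ, hσM, rfl⟩)

end Energy

end Pool.Agent.Helper99.TFW
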