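import Mathlib
import Pool.Agent.helper99.TFW.Exist

/-!
# The variational inequality for a minimizer whose mass is strictly below the constraint
-/

set_option autoImplicit false
set_option linter.unusedSectionVars false

open MeasureTheory Filter Topology
open scoped ENNReal NNReal

namespace Pool.Agent.Helper99.TFW

theorem integrable_of_bdd {f : E → ℝ} {C S : ℝ} (hf : AEStronglyMeasurable f volume)
    (hb : ∀ x, |f x| ≤ C) (h0 : ∀ x, S ≤ ‖x‖ → f x = 0) : Integrable f := by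
  have hC : 0 ≤ C := (abs_nonneg _).trans (hb 0)
  have h1 : Integrable ((Metric.ball (0 : E) S).indicator (fun _ => C)) := by
    rw [integrable_indicator_iff measurableSet_ball]
    exact integrableOn_const measure_ball_lt_top.ne
  refine h1.mono' hf (Eventually.of_forall fun x => ?_)
  by_cases hx : ‖x‖ < S
  · rw [Set.indicator_of_mem (by simpa using hx)]
    exact hb x
  · rw [Set.indicator_of_notMem (by simpa using hx), h0 x (not_lt.1 hx), norm_zero]

theorem dens_of_bdd {f : E → ℝ} {C S : ℝ} (hf : AEStronglyMeasurable f volume)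
    (hnn : ∀ x, 0 ≤ f x) (hb : ∀ x, f x ≤ C) (h0 : ∀ x, S ≤ ‖x‖ → f x = 0) : Dens f := by
  refine ⟨hnn, integrable_of_bdd hf (fun x => by rw [abs_of_nonneg (hnn x)]; exact hb x) h0, ?_⟩
  refine integrable_of_bdd (C := C ^ (5 / 3 : ℝ)) (S := S)
    (hf.aemeasurable.pow_const _).aestronglyMeasurable ?_ ?_
  · intro x
    rw [abs_of_nonneg (Real.rpow_nonneg (hnn x) _)]
    exact Real.rpow_le_rpow (hnn x) (hb x) (by norm_num)
  · intro x hx
    rw [h0 x hx, Real.zero_rpow (by norm_num)]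

/-- Convexity of `s ↦ s^{5/3}`. -/
theorem rpow_sub_le {a b : ℝ} (ha : 0 ≤ a) (hab : a ≤ b) :
    b ^ (5 / 3 : ℝ) - a ^ (5 / 3 : ℝ) ≤ (5 / 3) * (b ^ (2 / 3 : ℝ) * (b - a)) := by
  have hb : 0 ≤ b := ha.trans hab
  have h := Convex.norm_image_sub_le_of_norm_hasDerivWithin_le (s := Set.Icc (0 : ℝ) b)
    (f := fun s : ℝ => s ^ (5 / 3 : ℝ)) (f' := fun s => (5 / 3) * s ^ (5 / 3 - 1 : ℝ))
    (C := (5 / 3) * b ^ (2 / 3 : ℝ)) (x := a) (y := b)
    (fun x _ => (Real.hasDerivAt_rpow_const (Or.inr (by norm_num))).hasDerivWithinAt)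
    (fun x hx => by
      have h1 : (0 : ℝ) ≤ x ^ (5 / 3 - 1 : ℝ) := Real.rpow_nonneg hx.1 _
      rw [Real.norm_eq_abs, abs_of_nonneg (by positivity)]
      have h2 : x ^ (5 / 3 - 1 : ℝ) ≤ b ^ (5 / 3 - 1 : ℝ) :=
        Real.rpow_le_rpow hx.1 hx.2 (by norm_num)
      have h3 : (5 / 3 - 1 : ℝ) = 2 / 3 := by norm_num
      rw [h3] at h2 ⊢
      linarith) (convex_Icc 0 b) ⟨ha, hab⟩ ⟨hb, le_rfl⟩
  rw [Real.norm_eq_abs, Real.norm_eq_abs, abs_of_nonneg (sub_nonneg.2 hab)] at h
  have := (le_abs_self _).trans h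
  linarith

section Var

variable {k : ℕ} {z : Fin k → ℝ} {R : Fin k → E}

/-- The local field. -/
noncomputable def Lf (z : Fin k → ℝ) (R : Fin k → E) (ρ : E → ℝ) (x : E) : ℝ :=
  ρ x ^ (2 / 3 : ℝ) - VV z R x + U ρ x

/-- The variational inequality. -/
theorem variation (hz : ∀ i, 0 < z i) {M : ℝ} {ρ : E → ℝ} {g : E → E} (hadm : Adm ρ g)
    (hN : ∫ x, ρ x < M)
    (hmin : ∀ σ h, Adm σ h → ∫ x, σ x ≤ M → energy z R ρ g ≤ energy z R σ h)
    {η : E → ℝ} {γ : E → E} (hη : H1 η γ) (hη0 : ∀ x, 0 ≤ η x) {B S : ℝ}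
    (hηB : ∀ x, η x ≤ B) (hηS : ∀ x, S ≤ ‖x‖ → η x = 0) :
    Integrable (fun x => Lf z R ρ x * (Real.sqrt (ρ x) * η x)) ∧
    0 ≤ (∫ x, inner ℝ (g x) (γ x)) + ∫ x, Lf z R ρ x * (Real.sqrt (ρ x) * η x) := by
  set ψ : E → ℝ := fun x => Real.sqrt (ρ x) with hψ
  have hψ0 : ∀ x, 0 ≤ ψ x := fun x => Real.sqrt_nonneg _
  have hψsq : ∀ x, ψ x ^ 2 = ρ x := fun x => Real.sq_sqrt (hadm.nn x)
  have hB0 : 0 ≤ B := (hη0 0).trans (hηB 0)
  have hρ := hadm.dens
  have hψm : AEStronglyMeasurable ψ volume := hadm.h1.mem.1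
  -- the densities α and β
  set β : E → ℝ := fun x => η x ^ 2 with hβ
  have dβ : Dens β := by
    refine dens_of_bdd (C := B ^ 2) (S := S) (hη.mem.1.pow 2) (fun x => sq_nonneg _)
      (fun x => pow_le_pow_left₀ (hη0 x) (hηB x) 2) fun x hx => ?_
    simp [hβ, hηS x hx]
  set α : E → ℝ := fun x => 2 * (ψ x * η x) with hα
  have hα0 : ∀ x, 0 ≤ α x := fun x => by
    have := mul_nonneg (hψ0 x) (hη0 x)
    simp only [hα]; linarith
  have dα : Dens α := by
    refine (hρ.add dβ).mono ((hψm.mul hη.mem.1).const_mul 2) hα0 fun x => ?_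
    simp only [hα, hβ]
    rw [← hψsq]
    nlinarith [sq_nonneg (ψ x - η x)]
  have hβ0 : ∀ x, 0 ≤ β x := fun x => sq_nonneg _
  -- the family
  have dγ : ∀ t, 0 ≤ t → Dens (fun x => α x + t * β x) := fun t ht => dα.add (dβ.smul ht)
  have dρt : ∀ t, 0 ≤ t → Dens (fun x => ρ x + t * (α x + t * β x)) := fun t ht =>
    hρ.add ((dγ t ht).smul ht)
  have hsq : ∀ t x, ρ x + t * (α x + t * β x) = (ψ x + t * η x) ^ 2 := by
    intro t x
    simp only [hα, hβ]
    rw [← hψsq]; ring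
  have hadmt : ∀ t, 0 ≤ t → Adm (fun x => ρ x + t * (α x + t * β x)) (fun x => g x + t • γ x) := by
    intro t ht
    have h1 := hadm.h1.add_smul hη t
    refine ⟨(dρt t ht).nn, (dρt t ht).int, (dρt t ht).int53, h1.memg, ?_⟩
    have : (fun x => Real.sqrt (ρ x + t * (α x + t * β x))) = fun x => ψ x + t * η x := by
      ext x
      rw [hsq, Real.sqrt_sq (add_nonneg (hψ0 x) (mul_nonneg ht (hη0 x)))]
    rw [this]
    exact h1.wg
  -- integrals
  set A1 := ∫ x, α x with hA1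
  set A2 := ∫ x, β x with hA2
  have hA1' : 0 ≤ A1 := integral_nonneg hα0
  have hA2' : 0 ≤ A2 := integral_nonneg hβ0
  have mass : ∀ t, 0 ≤ t → ∫ x, (ρ x + t * (α x + t * β x)) = (∫ x, ρ x) + t * (A1 + t * A2) := by
    intro t ht
    rw [integral_add hρ.int (((dγ t ht).int).const_mul t), integral_const_mul t,
      integral_add dα.int (dβ.int.const_mul t), integral_const_mul t β]
  -- choose τ
  set τ := min 1 ((M - ∫ x, ρ x) / (A1 + A2 + 1)) with hτ
  have hMN : 0 < M - ∫ x, ρ x := by linarith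
  have hτ0 : 0 < τ := lt_min one_pos (by positivity)
  have hτ1 : τ ≤ 1 := min_le_left _ _
  have hmassle : ∀ t, 0 ≤ t → t ≤ τ → ∫ x, (ρ x + t * (α x + t * β x)) ≤ M := by
    intro t ht htτ
    rw [mass t ht]
    have h1 : t ≤ (M - ∫ x, ρ x) / (A1 + A2 + 1) := htτ.trans (min_le_right _ _)
    rw [le_div_iff₀ (by positivity)] at h1
    have h2 : t * A2 ≤ A2 := mul_le_of_le_one_left hA2' (htτ.trans hτ1)
    have h3 : t * (A1 + t * A2) ≤ t * (A1 + A2 + 1) := mul_le_mul_of_nonneg_left (by linarith) ht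
    linarith
  -- integrability facts
  have iVα := int_VV (z := z) (R := R) dα
  have iVβ := int_VV (z := z) (R := R) dβ
  have iUα := hρ.int_mul_U dα.int
  have iUβ := hρ.int_mul_U dβ.int
  have ig := integrable_normsq hadm.memg
  have iγ := integrable_normsq hη.memg
  have igγ := integrable_inner hadm.memg hη.memg
  -- the p-term
  set P : ℝ → E → ℝ := fun t x => (ρ x + t * (α x + t * β x)) ^ (2 / 3 : ℝ) * (α x + t * β x)
    with hP
  have hPm : ∀ t, 0 ≤ t → AEStronglyMeasurable (P t) volume := fun t ht =>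
    ((dρt t ht).int.1.aemeasurable.pow_const _).aestronglyMeasurable.mul (dγ t ht).int.1
  have hP0 : ∀ t, 0 ≤ t → ∀ x, 0 ≤ P t x := fun t ht x =>
    mul_nonneg (Real.rpow_nonneg ((dρt t ht).nn x) _) ((dγ t ht).nn x)
  have hPle : ∀ t, 0 ≤ t → t ≤ 1 → ∀ x, P t x ≤ (ρ x + 1 * (α x + 1 * β x)) ^ (5 / 3 : ℝ) := by
    intro t ht ht1 x
    have h1 : ρ x + t * (α x + t * β x) ≤ ρ x + 1 * (α x + 1 * β x) := by
      have e1 : t * (α x + t * β x) ≤ 1 * (α x + 1 * β x) := by
        have := hα0 x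
        have := hβ0 x
        gcongr
      linarith
    have h2 : α x + t * β x ≤ ρ x + 1 * (α x + 1 * β x) := by
      have := hρ.nn x
      have := mul_le_of_le_one_left (hβ0 x) ht1
      linarith
    have hpos : 0 ≤ ρ x + 1 * (α x + 1 * β x) := (dρt 1 zero_le_one).nn x
    calc P t x ≤ (ρ x + 1 * (α x + 1 * β x)) ^ (2 / 3 : ℝ) * (ρ x + 1 * (α x + 1 * β x)) :=
          mul_le_mul (Real.rpow_le_rpow ((dρt t ht).nn x) h1 (by norm_num)) h2
            ((dγ t ht).nn x) (Real.rpow_nonneg hpos _)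
      _ = (ρ x + 1 * (α x + 1 * β x)) ^ (5 / 3 : ℝ) := by
          rcases hpos.eq_or_lt with h | h
          · rw [← h, Real.zero_rpow (by norm_num), Real.zero_rpow (by norm_num)]; simp
          · nth_rewrite 2 [← Real.rpow_one (ρ x + 1 * (α x + 1 * β x))]
            rw [← Real.rpow_add h]; norm_num
  have hPi : ∀ t, 0 ≤ t → t ≤ 1 → Integrable (P t) := fun t ht ht1 =>
    (dρt 1 zero_le_one).int53.mono' (hPm t ht) (Eventually.of_forall fun x => by
      rw [Real.norm_eq_abs, abs_of_nonneg (hP0 t ht x)]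
      exact hPle t ht ht1 x)
  -- energy comparison
  have key : ∀ t, 0 < t → t ≤ τ → 0 ≤ 2 * (∫ x, inner ℝ (g x) (γ x)) + t * (∫ x, ‖γ x‖ ^ 2)
      + (∫ x, P t x) - ((∫ x, VV z R x * α x) + t * (∫ x, VV z R x * β x))
      + ((∫ x, α x * U ρ x) + t * (∫ x, β x * U ρ x))
      + (t / 2) * ((∫ x, α x * U α x) + 2 * t * (∫ x, β x * U α x)
        + t ^ 2 * ∫ x, β x * U β x) := by
    intro t ht htτ
    have ht1 : t ≤ 1 := htτ.trans hτ1
    have h1 := hmin _ _ (hadmt t ht.le) (hmassle t ht.le htτ)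
    rw [energy_eq, energy_eq] at h1
    have e1 : ∫ x, ‖g x + t • γ x‖ ^ 2 = (∫ x, ‖g x‖ ^ 2) + 2 * t * (∫ x, inner ℝ (g x) (γ x)) +
        t ^ 2 * ∫ x, ‖γ x‖ ^ 2 := by
      have : ∀ x, ‖g x + t • γ x‖ ^ 2 = ‖g x‖ ^ 2 + 2 * t * inner ℝ (g x) (γ x) +
          t ^ 2 * ‖γ x‖ ^ 2 := by
        intro x
        rw [norm_add_sq_real, real_inner_smul_right, norm_smul, Real.norm_eq_abs, mul_pow, sq_abs]
        ring
      simp_rw [this]
      have hs : Integrable (fun x => ‖g x‖ ^ 2 + 2 * t * inner ℝ (g x) (γ x)) :=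
        ig.add (igγ.const_mul _)
      rw [integral_add hs (iγ.const_mul _), integral_add ig (igγ.const_mul _),
        integral_const_mul, integral_const_mul]
    have e2 : (∫ x, (ρ x + t * (α x + t * β x)) ^ (5 / 3 : ℝ)) - (∫ x, ρ x ^ (5 / 3 : ℝ)) ≤
        (5 / 3) * (t * ∫ x, P t x) := by
      rw [← integral_sub (dρt t ht.le).int53 hρ.int53, ← integral_const_mul, ← integral_const_mul]
      refine integral_mono ((dρt t ht.le).int53.sub hρ.int53)
        (((hPi t ht.le ht1).const_mul _).const_mul _) fun x => ?_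
      have h3 : ρ x ≤ ρ x + t * (α x + t * β x) := by
        have := mul_nonneg ht.le ((dγ t ht.le).nn x)
        linarith
      have h2 := rpow_sub_le (hρ.nn x) h3
      refine h2.trans (le_of_eq ?_)
      simp only [hP]
      ring
    have e3 : ∫ x, VV z R x * (ρ x + t * (α x + t * β x)) = (∫ x, VV z R x * ρ x) +
        t * ((∫ x, VV z R x * α x) + t * (∫ x, VV z R x * β x)) := by
      have : ∀ x, VV z R x * (ρ x + t * (α x + t * β x)) = VV z R x * ρ x +
          t * (VV z R x * α x + t * (VV z R x * β x)) := fun x => by ring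
      simp_rw [this]
      have hs : Integrable (fun x => VV z R x * α x + t * (VV z R x * β x)) :=
        iVα.add (iVβ.const_mul t)
      rw [integral_add (int_VV hρ) (hs.const_mul t), integral_const_mul,
        integral_add iVα (iVβ.const_mul t), integral_const_mul]
    have e4 := coulomb_expand hρ (dγ t ht.le) ht.le
    have e5 : ∫ x, (α x + t * β x) * U ρ x = (∫ x, α x * U ρ x) + t * ∫ x, β x * U ρ x := by
      have : ∀ x, (α x + t * β x) * U ρ x = α x * U ρ x + t * (β x * U ρ x) := fun x => by ring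
      simp_rw [this]
      rw [integral_add iUα (iUβ.const_mul t), integral_const_mul]
    have e6 := coulomb_expand dα dβ ht.le
    rw [e5, e6] at e4
    rw [e1, e3, e4] at h1
    have h2 : 0 ≤ t * (2 * (∫ x, inner ℝ (g x) (γ x)) + t * (∫ x, ‖γ x‖ ^ 2)
      + (∫ x, P t x) - ((∫ x, VV z R x * α x) + t * (∫ x, VV z R x * β x))
      + ((∫ x, α x * U ρ x) + t * (∫ x, β x * U ρ x))
      + (t / 2) * ((∫ x, α x * U α x) + 2 * t * (∫ x, β x * U α x)
        + t ^ 2 * ∫ x, β x * U β x)) := by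
      nlinarith [h1, e2]
    exact nonneg_of_mul_nonneg_right h2 ht
  -- limit t → 0
  have hPlim : Tendsto (fun n : ℕ => ∫ x, P (τ * (1 / ((n : ℝ) + 1))) x) atTop
      (𝓝 (∫ x, ρ x ^ (2 / 3 : ℝ) * α x)) := by
    have ht : ∀ n : ℕ, 0 ≤ τ * (1 / ((n : ℝ) + 1)) ∧ τ * (1 / ((n : ℝ) + 1)) ≤ 1 := by
      intro n
      refine ⟨by positivity, ?_⟩
      have h1 : (1 / ((n : ℝ) + 1)) ≤ 1 := by
        rw [div_le_one (by positivity)]
        have : (0 : ℝ) ≤ n := by positivity
        linarith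
      have h2 : (0 : ℝ) ≤ 1 / ((n : ℝ) + 1) := by positivity
      nlinarith
    refine tendsto_integral_of_dominated_convergence _ (fun n => hPm _ (ht n).1)
      (dρt 1 zero_le_one).int53 (fun n => Eventually.of_forall fun x => ?_)
      (Eventually.of_forall fun x => ?_)
    · rw [Real.norm_eq_abs, abs_of_nonneg (hP0 _ (ht n).1 x)]
      exact hPle _ (ht n).1 (ht n).2 x
    · have l0 : Tendsto (fun n : ℕ => τ * (1 / ((n : ℝ) + 1))) atTop (𝓝 0) := by
        have := (tendsto_one_div_add_atTop_nhds_zero_nat (𝕜 := ℝ)).const_mul τ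
        simpa using this
      have l1 : Tendsto (fun n : ℕ => α x + (τ * (1 / ((n : ℝ) + 1))) * β x) atTop
          (𝓝 (α x)) := by
        have := (l0.mul_const (β x)).const_add (α x)
        simpa using this
      have l2 : Tendsto (fun n : ℕ => ρ x + (τ * (1 / ((n : ℝ) + 1))) *
          (α x + (τ * (1 / ((n : ℝ) + 1))) * β x)) atTop (𝓝 (ρ x)) := by
        have := (l0.mul l1).const_add (ρ x)
        simpa using this
      exact ((Real.continuousAt_rpow_const _ _ (Or.inr (by norm_num))).tendsto.comp l2).mul l1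
  have l0 : Tendsto (fun n : ℕ => τ * (1 / ((n : ℝ) + 1))) atTop (𝓝 0) := by
    have := (tendsto_one_div_add_atTop_nhds_zero_nat (𝕜 := ℝ)).const_mul τ
    simpa using this
  have hlim : 0 ≤ 2 * (∫ x, inner ℝ (g x) (γ x)) + 0 * (∫ x, ‖γ x‖ ^ 2)
      + (∫ x, ρ x ^ (2 / 3 : ℝ) * α x) -
        ((∫ x, VV z R x * α x) + 0 * (∫ x, VV z R x * β x))
      + ((∫ x, α x * U ρ x) + 0 * (∫ x, β x * U ρ x))
      + (0 / 2) * ((∫ x, α x * U α x) + 2 * 0 * (∫ x, β x * U α x)
        + 0 ^ 2 * ∫ x, β x * U β x) := by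
    have big := (((((l0.mul_const (∫ x, ‖γ x‖ ^ 2)).const_add
      (2 * (∫ x, inner ℝ (g x) (γ x)))).add hPlim).sub
      ((l0.mul_const (∫ x, VV z R x * β x)).const_add (∫ x, VV z R x * α x))).add
      ((l0.mul_const (∫ x, β x * U ρ x)).const_add (∫ x, α x * U ρ x))).add
      ((l0.div_const 2).mul ((((l0.const_mul 2).mul_const (∫ x, β x * U α x)).const_add
        (∫ x, α x * U α x)).add ((l0.pow 2).mul_const (∫ x, β x * U β x))))
    refine ge_of_tendsto' big fun n => ?_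
    refine key (τ * (1 / ((n : ℝ) + 1))) (by positivity) ?_
    have h1 : (1 / ((n : ℝ) + 1)) ≤ 1 := by
      rw [div_le_one (by positivity)]
      have : (0 : ℝ) ≤ n := by positivity
      linarith
    exact mul_le_of_le_one_right hτ0.le h1
  have iP0 : Integrable (fun x => ρ x ^ (2 / 3 : ℝ) * α x) := by
    have := hPi 0 le_rfl zero_le_one
    simpa [hP] using this
  have efin : (fun x => Lf z R ρ x * (ψ x * η x)) =
      fun x => (1 / 2) * (ρ x ^ (2 / 3 : ℝ) * α x) - (1 / 2) * (VV z R x * α x) +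
        (1 / 2) * (α x * U ρ x) := by
    ext x
    simp only [Lf, hα]
    ring
  have i1 : Integrable (fun x => (1 / 2) * (ρ x ^ (2 / 3 : ℝ) * α x) -
      (1 / 2) * (VV z R x * α x)) := (iP0.const_mul _).sub (iVα.const_mul _)
  constructor
  · change Integrable (fun x => Lf z R ρ x * (ψ x * η x))
    rw [efin]
    exact i1.add (iUα.const_mul _)
  · change 0 ≤ (∫ x, inner ℝ (g x) (γ x)) + ∫ x, Lf z R ρ x * (ψ x * η x)
    rw [efin, integral_add i1 (iUα.const_mul _), integral_sub (iP0.const_mul _) (iVα.const_mul _),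
      integral_const_mul, integral_const_mul, integral_const_mul]
    linarith

end Var

end Pool.Agent.Helper99.TFW
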