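import Mathlib
import Pool.Agent.helper99.TFW.Variation

/-!
# The logarithmic inequality
-/

set_option autoImplicit false
set_option linter.unusedSectionVars false

open MeasureTheory Filter Topology
open scoped ENNReal NNReal

namespace Pool.Agent.Helper99.TFW

theorem fderiv_mul_coord {w : E → ℝ} (hw : ContDiff ℝ 1 w) (i : Fin 3) (x : E) :
    fderiv ℝ (fun x : E => w x * x i) x (EuclideanSpace.single i 1) =
      w x + x i * fderiv ℝ w x (EuclideanSpace.single i 1) := by
  have h1 : HasFDerivAt w (fderiv ℝ w x) x := (hw.differentiable (by norm_num) x).hasFDerivAt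
  have h2 : HasFDerivAt (fun x : E => x i) (EuclideanSpace.proj i : E →L[ℝ] ℝ) x :=
    (EuclideanSpace.proj i : E →L[ℝ] ℝ).hasFDerivAt
  have h3 : HasFDerivAt (fun x : E => w x * x i) (w x • (EuclideanSpace.proj i : E →L[ℝ] ℝ) +
      x i • fderiv ℝ w x) x := h1.mul h2
  rw [h3.fderiv]
  simp

theorem contDiff_coord (i : Fin 3) : ContDiff ℝ 1 (fun x : E => x i) :=
  (EuclideanSpace.proj i : E →L[ℝ] ℝ).contDiff

theorem sum_coord_fderiv {w : E → ℝ} (x : E) :
    ∑ i : Fin 3, (w x + x i * fderiv ℝ w x (EuclideanSpace.single i 1)) =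
      3 * w x + fderiv ℝ w x x := by
  rw [Finset.sum_add_distrib]
  have h1 : ∑ i : Fin 3, x i * fderiv ℝ w x (EuclideanSpace.single i 1) = fderiv ℝ w x x := by
    have h2 : x = ∑ i : Fin 3, x i • (EuclideanSpace.single i (1 : ℝ) : E) := by
      ext j
      simp [Finset.sum_apply, Pi.single_apply]
    conv_rhs => rw [h2]
    rw [map_sum]
    refine Finset.sum_congr rfl fun i _ => ?_
    rw [map_smul, smul_eq_mul]
    congr 2
    exact h2 ▸ rfl
  rw [h1]
  simp

theorem inner_single_left (a : E) (i : Fin 3) :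
    inner ℝ a (EuclideanSpace.single i (1 : ℝ) : E) = a i := by
  simp [EuclideanSpace.inner_single_right]

theorem sum_inner (a x : E) (c : ℝ) :
    ∑ i : Fin 3, inner ℝ a (EuclideanSpace.single i (1 : ℝ) : E) * (c * x i) =
      inner ℝ a (c • x) := by
  simp_rw [inner_single_left]
  rw [real_inner_smul_right]
  simp [PiLp.inner_apply, Fin.sum_univ_three]
  ring

/-- Testing weak gradients against `w(x) x`. -/
theorem H1.test_radial {v : E → ℝ} {γ : E → E} (h : H1 v γ) {w : E → ℝ} (hw : ContDiff ℝ 1 w)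
    (hc : HasCompactSupport w) :
    ∫ x, v x * (3 * w x + fderiv ℝ w x x) = -∫ x, inner ℝ (γ x) (w x • x) := by
  have hη : ∀ i : Fin 3, ContDiff ℝ 1 (fun x : E => w x * x i) := fun i =>
    hw.mul (contDiff_coord i)
  have hcη : ∀ i : Fin 3, HasCompactSupport (fun x : E => w x * x i) := fun i => hc.mul_right
  have hk : ∀ i : Fin 3, MemLp (fun x => fderiv ℝ (fun x : E => w x * x i) x
      (EuclideanSpace.single i 1)) 2 := fun i =>
    (continuous_fderiv_apply (hη i) _).memLp_of_hasCompactSupport (compact_fderiv_apply (hcη i) _)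
  have hk2 : ∀ i : Fin 3, MemLp (fun x : E => (w x * x i) • (EuclideanSpace.single i (1 : ℝ) : E)) 2 :=
    fun i => ((hη i).continuous.smul continuous_const).memLp_of_hasCompactSupport
      (hcη i).smul_right
  have e1 : ∫ x, v x * (3 * w x + fderiv ℝ w x x) =
      ∑ i : Fin 3, ∫ x, v x * fderiv ℝ (fun x : E => w x * x i) x (EuclideanSpace.single i 1) := by
    rw [← integral_finsetSum _ fun i _ => integrable_mul_L2 h.mem (hk i)]
    apply integral_congr_ae
    refine Eventually.of_forall fun x => ?_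
    simp only
    rw [← Finset.mul_sum, ← sum_coord_fderiv]
    simp_rw [fderiv_mul_coord hw]
  have e2 : ∫ x, inner ℝ (γ x) (w x • x) =
      ∑ i : Fin 3, ∫ x, inner ℝ (γ x) (EuclideanSpace.single i (1 : ℝ) : E) * (w x * x i) := by
    rw [← integral_finsetSum _ fun i _ => ?_]
    · apply integral_congr_ae
      refine Eventually.of_forall fun x => ?_
      simp only
      rw [sum_inner]
    · refine (integrable_inner h.memg (hk2 i)).congr (Eventually.of_forall fun x => ?_)
      simp only [real_inner_smul_right]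
      ring
  rw [e1, e2, ← Finset.sum_neg_distrib]
  refine Finset.sum_congr rfl fun i _ => ?_
  exact h.test (hη i) (hcη i) _

theorem div_integral_zero {w : E → ℝ} (hw : ContDiff ℝ 1 w) (hc : HasCompactSupport w) :
    ∫ x, (3 * w x + fderiv ℝ w x x) = 0 := by
  have hη : ∀ i : Fin 3, ContDiff ℝ 1 (fun x : E => w x * x i) := fun i =>
    hw.mul (contDiff_coord i)
  have hcη : ∀ i : Fin 3, HasCompactSupport (fun x : E => w x * x i) := fun i => hc.mul_right
  have h0 : ∀ i : Fin 3, ∫ x, fderiv ℝ (fun x : E => w x * x i) x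
      (EuclideanSpace.single i 1) = 0 := by
    intro i
    have := ibp (u := fun _ : E => (1 : ℝ)) contDiff_const (hη i) (hcη i)
      (EuclideanSpace.single i 1)
    simpa [inner_grad] using this
  have hi : ∀ i : Fin 3, Integrable (fun x => fderiv ℝ (fun x : E => w x * x i) x
      (EuclideanSpace.single i 1)) := fun i =>
    (continuous_fderiv_apply (hη i) _).integrable_of_hasCompactSupport
      (compact_fderiv_apply (hcη i) _)
  calc ∫ x, (3 * w x + fderiv ℝ w x x) =
      ∫ x, ∑ i : Fin 3, fderiv ℝ (fun x : E => w x * x i) x (EuclideanSpace.single i 1) := by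
        apply integral_congr_ae
        refine Eventually.of_forall fun x => ?_
        simp only
        rw [← sum_coord_fderiv]
        simp_rw [fderiv_mul_coord hw]
    _ = 0 := by
        rw [integral_finsetSum _ fun i _ => hi i]
        simp [h0]

section Log

variable {k : ℕ} {z : Fin k → ℝ} {R : Fin k → E}

/-- The conclusion of `variation`. -/
def VarIneq (z : Fin k → ℝ) (R : Fin k → E) (ρ : E → ℝ) (g : E → E) : Prop :=
  ∀ (η : E → ℝ) (γ : E → E), H1 η γ → (∀ x, 0 ≤ η x) → ∀ B S : ℝ, (∀ x, η x ≤ B) →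
    (∀ x, S ≤ ‖x‖ → η x = 0) →
    Integrable (fun x => Lf z R ρ x * (Real.sqrt (ρ x) * η x)) ∧
    0 ≤ (∫ x, inner ℝ (g x) (γ x)) + ∫ x, Lf z R ρ x * (Real.sqrt (ρ x) * η x)

/-- The regularized logarithmic gradient. -/
noncomputable def hh (ρ : E → ℝ) (g : E → E) (δ : ℝ) (x : E) : E :=
  (1 / (Real.sqrt (ρ x) + δ)) • g x

/-- The regularized ratio. -/
noncomputable def th (ρ : E → ℝ) (δ : ℝ) (x : E) : ℝ := Real.sqrt (ρ x) / (Real.sqrt (ρ x) + δ)

theorem th_nonneg (ρ : E → ℝ) {δ : ℝ} (hδ : 0 < δ) (x : E) : 0 ≤ th ρ δ x :=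
  div_nonneg (Real.sqrt_nonneg _) (add_nonneg (Real.sqrt_nonneg _) hδ.le)

theorem th_le (ρ : E → ℝ) {δ : ℝ} (hδ : 0 < δ) (x : E) : th ρ δ x ≤ 1 := by
  have := Real.sqrt_nonneg (ρ x)
  unfold th
  rw [div_le_one (by positivity)]
  linarith

theorem exists_radius {f : E → ℝ} (hc : HasCompactSupport f) : ∃ S : ℝ, ∀ x, S ≤ ‖x‖ → f x = 0 := by
  obtain ⟨S, hS⟩ := hc.isCompact.isBounded.subset_ball (0 : E)
  refine ⟨S, fun x hx => ?_⟩
  by_contra h
  have h1 : x ∈ tsupport f := subset_tsupport _ h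
  have h2 := hS h1
  simp only [Metric.mem_ball, dist_zero_right] at h2
  linarith

theorem h1_log {ρ : E → ℝ} {g : E → E} (hadm : Adm ρ g) {δ : ℝ} (hδ : 0 < δ) :
    H1 (fun x => Real.log (1 + Real.sqrt (ρ x) / δ)) (hh ρ g δ) := by
  have h := hadm.h1.chain (fun x => Real.sqrt_nonneg _) (Φ := fun s => Real.log (1 + s / δ))
    (Φ' := fun s => 1 / (s + δ)) (C := 1 / δ)
    (fun s hs => by
      have h1 : HasDerivAt (fun s : ℝ => 1 + s / δ) (1 / δ) s := by
        simpa using ((hasDerivAt_id s).div_const δ).const_add 1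
      have h2 : (1 + s / δ) ≠ 0 := by positivity
      have h3 := h1.log h2
      convert h3 using 1
      field_simp
      ring)
    (by
      refine ContinuousOn.div continuousOn_const (continuousOn_id.add continuousOn_const) ?_
      intro s hs
      have h1 : (0 : ℝ) ≤ s := hs
      have h2 : s + δ ≠ 0 := by positivity
      exact h2)
    (fun s hs => by
      rw [abs_of_nonneg (by positivity)]
      exact one_div_le_one_div_of_le hδ (by linarith))
    (by simp)
  exact h

theorem h1_quot {ρ : E → ℝ} {g : E → E} (hadm : Adm ρ g) {δ : ℝ} (hδ : 0 < δ) {f : E → ℝ}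
    (hf : ContDiff ℝ 1 f) (hc : HasCompactSupport f) :
    H1 (fun x => f x * (1 / (Real.sqrt (ρ x) + δ)))
      (fun x => (1 / (Real.sqrt (ρ x) + δ)) • grad f x -
        (f x * (1 / (Real.sqrt (ρ x) + δ)) ^ 2) • g x) := by
  have h := hadm.h1.chain (fun x => Real.sqrt_nonneg _) (Φ := fun s => (s + δ)⁻¹ - 1 / δ)
    (Φ' := fun s => -1 / (s + δ) ^ 2) (C := 1 / δ ^ 2)
    (fun s hs => by
      have h1 : HasDerivAt (fun s : ℝ => s + δ) 1 s := (hasDerivAt_id s).add_const δ
      have h2 : (s + δ) ≠ 0 := by positivity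
      exact (h1.inv h2).sub_const (1 / δ))
    (by
      refine ContinuousOn.div continuousOn_const
        ((continuousOn_id.add continuousOn_const).pow 2) ?_
      intro s hs
      have h1 : (0 : ℝ) ≤ s := hs
      have h2 : (s + δ) ^ 2 ≠ 0 := by positivity
      exact h2)
    (fun s hs => by
      rw [neg_div, abs_neg, abs_of_nonneg (by positivity)]
      refine one_div_le_one_div_of_le (by positivity) ?_
      exact pow_le_pow_left₀ hδ.le (by linarith) 2)
    (by simp)
  have h2 := (h.mul_test hf hc).add_smul (H1_of_compact hf hc) (1 / δ)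
  refine h2.congr_ae (Eventually.of_forall fun x => ?_) (Eventually.of_forall fun x => ?_)
  · simp only; ring
  · simp only
    have h3 : Real.sqrt (ρ x) + δ ≠ 0 := by
      have := Real.sqrt_nonneg (ρ x)
      positivity
    have e1 : (-1 / (Real.sqrt (ρ x) + δ) ^ 2) = -(1 / (Real.sqrt (ρ x) + δ)) ^ 2 := by
      field_simp
    rw [e1, sub_smul, neg_smul, smul_neg, smul_smul, one_div (Real.sqrt (ρ x) + δ)]
    abel

theorem int_Lf_mul {ρ : E → ℝ} {g : E → E} (hadm : Adm ρ g) {f : E → ℝ}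
    (hf : Continuous f) (hc : HasCompactSupport f) (hf0 : ∀ x, 0 ≤ f x) :
    Integrable (fun x => Lf z R ρ x * f x) := by
  obtain ⟨C, hC0, hC⟩ := exists_bound_of_compact hf hc
  obtain ⟨S, hS⟩ := exists_radius hc
  have df : Dens f := dens_of_bdd hf.aestronglyMeasurable hf0
    (fun x => (le_abs_self _).trans (hC x)) hS
  have i1 : Integrable (fun x => ρ x ^ (2 / 3 : ℝ) * f x) := by
    have h1 : Integrable (fun x => C * ρ x + f x) := (hadm.int.const_mul C).add df.int
    refine h1.mono' ((hadm.int.1.aemeasurable.pow_const _).aestronglyMeasurable.mul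
      hf.aestronglyMeasurable) (Eventually.of_forall fun x => ?_)
    have h2 : 0 ≤ ρ x ^ (2 / 3 : ℝ) := Real.rpow_nonneg (hadm.nn x) _
    rw [Real.norm_eq_abs, abs_of_nonneg (mul_nonneg h2 (hf0 x))]
    have h3 : ρ x ^ (2 / 3 : ℝ) ≤ ρ x + 1 := by
      rcases le_total (ρ x) 1 with h | h
      · have := Real.rpow_le_one (hadm.nn x) h (show (0 : ℝ) ≤ 2 / 3 by norm_num)
        linarith [hadm.nn x]
      · have := Real.rpow_le_rpow_of_exponent_le h (show (2 / 3 : ℝ) ≤ 1 by norm_num)
        rw [Real.rpow_one] at this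
        linarith
    have h4 : f x ≤ C := (le_abs_self _).trans (hC x)
    nlinarith [hadm.nn x, hf0 x, mul_le_mul_of_nonneg_right h3 (hf0 x),
      mul_le_mul_of_nonneg_left h4 (hadm.nn x)]
  have i2 := int_VV (z := z) (R := R) df
  have i3 := hadm.dens.int_mul_U df.int
  refine ((i1.sub i2).add i3).congr (Eventually.of_forall fun x => ?_)
  simp only [Pi.add_apply, Pi.sub_apply, Lf]
  ring

/-- The basic inequality for the regularized logarithm. -/
theorem bdelta {ρ : E → ℝ} {g : E → E} (hadm : Adm ρ g) (hv : VarIneq z R ρ g) {δ : ℝ}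
    (hδ : 0 < δ) {f : E → ℝ} (hf : ContDiff ℝ 1 f) (hc : HasCompactSupport f)
    (hf0 : ∀ x, 0 ≤ f x) :
    Integrable (fun x => inner ℝ (hh ρ g δ x) (grad f x) - f x * ‖hh ρ g δ x‖ ^ 2) ∧
    Integrable (fun x => Lf z R ρ x * (th ρ δ x * f x)) ∧
    0 ≤ (∫ x, (inner ℝ (hh ρ g δ x) (grad f x) - f x * ‖hh ρ g δ x‖ ^ 2)) +
      ∫ x, Lf z R ρ x * (th ρ δ x * f x) := by
  obtain ⟨C, hC0, hC⟩ := exists_bound_of_compact hf.continuous hc
  obtain ⟨S, hS⟩ := exists_radius hc
  have hq := h1_quot hadm hδ hf hc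
  have hψ0 : ∀ x, 0 ≤ Real.sqrt (ρ x) := fun x => Real.sqrt_nonneg _
  have hle : ∀ x, 1 / (Real.sqrt (ρ x) + δ) ≤ 1 / δ := fun x =>
    one_div_le_one_div_of_le hδ (by linarith [hψ0 x])
  have hnn : ∀ x, 0 ≤ 1 / (Real.sqrt (ρ x) + δ) := fun x => by
    have := hψ0 x
    positivity
  obtain ⟨j1, j2⟩ := hv _ _ hq (fun x => mul_nonneg (hf0 x) (hnn x)) (C * (1 / δ)) S
    (fun x => mul_le_mul ((le_abs_self _).trans (hC x)) (hle x) (hnn x) hC0)
    (fun x hx => by rw [hS x hx, zero_mul])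
  have e1 : ∀ x, inner ℝ (g x) ((1 / (Real.sqrt (ρ x) + δ)) • grad f x -
        (f x * (1 / (Real.sqrt (ρ x) + δ)) ^ 2) • g x) =
      inner ℝ (hh ρ g δ x) (grad f x) - f x * ‖hh ρ g δ x‖ ^ 2 := by
    intro x
    unfold hh
    rw [inner_sub_right, real_inner_smul_right, real_inner_smul_right, real_inner_smul_left,
      real_inner_self_eq_norm_sq, norm_smul, mul_pow, Real.norm_eq_abs, sq_abs]
    ring
  have e2 : ∀ x, Lf z R ρ x * (Real.sqrt (ρ x) * (f x * (1 / (Real.sqrt (ρ x) + δ)))) =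
      Lf z R ρ x * (th ρ δ x * f x) := by
    intro x
    unfold th
    ring
  simp_rw [e1, e2] at j2
  simp_rw [e2] at j1
  have j3 := integrable_inner hadm.memg hq.memg
  simp_rw [e1] at j3
  exact ⟨j3, j1, j2⟩

/-- Uniform local bound on the logarithmic gradient. -/
theorem hh_bound (hz : ∀ i, 0 < z i) {ρ : E → ℝ} {g : E → E} (hadm : Adm ρ g)
    (hv : VarIneq z R ρ g) {r : ℝ} (hr : 0 < r) :
    ∃ C : ℝ, ∀ δ : ℝ, 0 < δ → ∫ x in Metric.ball (0 : E) r, ‖hh ρ g δ x‖ ^ 2 ≤ C := by
  let χ : ContDiffBump (0 : E) := ⟨r, r + 1, hr, by linarith⟩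
  have hχ : ContDiff ℝ 1 χ := χ.contDiff
  have hcχ : HasCompactSupport χ := χ.hasCompactSupport
  set f : E → ℝ := fun x => χ x ^ 2 with hfdef
  have hf : ContDiff ℝ 1 f := hχ.pow 2
  have hcf : HasCompactSupport f := by
    have : f = fun x => χ x * χ x := by ext x; simp only [hfdef]; ring
    rw [this]
    exact hcχ.mul_left
  have hf0 : ∀ x, 0 ≤ f x := fun x => sq_nonneg _
  have hgf : ∀ x, grad f x = (2 * χ x) • grad χ x := by
    intro x
    refine ext_inner_right ℝ fun v => ?_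
    rw [inner_grad, real_inner_smul_left, inner_grad]
    have h1 : HasFDerivAt (χ : E → ℝ) (fderiv ℝ χ x) x :=
      (hχ.differentiable (by norm_num) x).hasFDerivAt
    have h2 := h1.pow 2
    have h3 : fderiv ℝ f x = _ := h2.fderiv
    rw [h3]
    simp
  have hM : MemLp (grad χ) 2 :=
    (continuous_grad hχ).memLp_of_hasCompactSupport (compact_grad hcχ)
  have iM := integrable_normsq hM
  set T : E → ℝ := fun x => (ρ x + 1 + Ub ρ) * f x with hT
  have iT : Integrable T := by
    have i1 : Integrable f := hf.continuous.integrable_of_hasCompactSupport hcf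
    have i2 : Integrable (fun x => ρ x * f x) := by
      refine hadm.int.mono' (hadm.int.1.mul hf.continuous.aestronglyMeasurable)
        (Eventually.of_forall fun x => ?_)
      rw [Real.norm_eq_abs, abs_of_nonneg (mul_nonneg (hadm.nn x) (hf0 x))]
      refine mul_le_of_le_one_right (hadm.nn x) ?_
      exact pow_le_one₀ χ.nonneg χ.le_one
    refine (i2.add (i1.const_mul (1 + Ub ρ))).congr (Eventually.of_forall fun x => ?_)
    simp only [Pi.add_apply, hT]
    ring
  refine ⟨2 * (2 * (∫ x, ‖grad χ x‖ ^ 2) + ∫ x, T x), fun δ hδ => ?_⟩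
  obtain ⟨j1, j2, j3⟩ := bdelta hadm hv hδ hf hcf hf0
  have hhm : MemLp (hh ρ g δ) 2 := (h1_log hadm hδ).memg
  have ih := integrable_normsq hhm
  have ifh : Integrable (fun x => f x * ‖hh ρ g δ x‖ ^ 2) := by
    refine ih.mono' (hf.continuous.aestronglyMeasurable.mul ih.1) (Eventually.of_forall fun x => ?_)
    rw [Real.norm_eq_abs, abs_of_nonneg (mul_nonneg (hf0 x) (sq_nonneg _))]
    refine mul_le_of_le_one_left (sq_nonneg _) ?_
    exact pow_le_one₀ χ.nonneg χ.le_one
  have b1 : ∫ x, (inner ℝ (hh ρ g δ x) (grad f x) - f x * ‖hh ρ g δ x‖ ^ 2) ≤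
      ∫ x, (2 * ‖grad χ x‖ ^ 2 - (1 / 2) * (f x * ‖hh ρ g δ x‖ ^ 2)) := by
    refine integral_mono j1 ((iM.const_mul 2).sub (ifh.const_mul _)) fun x => ?_
    simp only
    rw [hgf, real_inner_smul_right]
    have h1 : inner ℝ (hh ρ g δ x) (grad χ x) ≤ ‖hh ρ g δ x‖ * ‖grad χ x‖ := real_inner_le_norm _ _
    have h2 : 0 ≤ χ x := χ.nonneg
    have h3 : 2 * χ x * inner ℝ (hh ρ g δ x) (grad χ x) ≤
        2 * χ x * (‖hh ρ g δ x‖ * ‖grad χ x‖) := mul_le_mul_of_nonneg_left h1 (by positivity)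
    simp only [hfdef]
    nlinarith [sq_nonneg (χ x * ‖hh ρ g δ x‖ - 2 * ‖grad χ x‖)]
  have b2 : ∫ x, Lf z R ρ x * (th ρ δ x * f x) ≤ ∫ x, T x := by
    refine integral_mono j2 iT fun x => ?_
    simp only [hT]
    have t0 := th_nonneg ρ hδ x
    have t1 := th_le ρ hδ x
    have h1 : Lf z R ρ x ≤ ρ x + 1 + Ub ρ := by
      unfold Lf
      have v0 := VV_nonneg (R := R) hz x
      have u0 := hadm.dens.U_le x
      have h3 : ρ x ^ (2 / 3 : ℝ) ≤ ρ x + 1 := by
        rcases le_total (ρ x) 1 with h | h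
        · have := Real.rpow_le_one (hadm.nn x) h (show (0 : ℝ) ≤ 2 / 3 by norm_num)
          linarith [hadm.nn x]
        · have := Real.rpow_le_rpow_of_exponent_le h (show (2 / 3 : ℝ) ≤ 1 by norm_num)
          rw [Real.rpow_one] at this
          linarith
      linarith
    have h2 : 0 ≤ ρ x + 1 + Ub ρ := by
      have := hadm.nn x
      have := (U_nonneg hadm.nn x).trans (hadm.dens.U_le x)
      linarith
    calc Lf z R ρ x * (th ρ δ x * f x) ≤ (ρ x + 1 + Ub ρ) * (th ρ δ x * f x) :=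
          mul_le_mul_of_nonneg_right h1 (mul_nonneg t0 (hf0 x))
      _ ≤ (ρ x + 1 + Ub ρ) * f x :=
          mul_le_mul_of_nonneg_left (mul_le_of_le_one_left (hf0 x) t1) h2
  have b3 : ∫ x, (2 * ‖grad χ x‖ ^ 2 - (1 / 2) * (f x * ‖hh ρ g δ x‖ ^ 2)) =
      2 * (∫ x, ‖grad χ x‖ ^ 2) - (1 / 2) * ∫ x, f x * ‖hh ρ g δ x‖ ^ 2 := by
    rw [integral_sub (iM.const_mul 2) (ifh.const_mul _), integral_const_mul, integral_const_mul]
  have b4 : ∫ x in Metric.ball (0 : E) r, ‖hh ρ g δ x‖ ^ 2 ≤ ∫ x, f x * ‖hh ρ g δ x‖ ^ 2 := by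
    rw [← integral_indicator measurableSet_ball]
    refine integral_mono (ih.indicator measurableSet_ball) ifh fun x => ?_
    by_cases hx : ‖x‖ < r
    · rw [Set.indicator_of_mem (by simpa using hx)]
      have : χ x = 1 := χ.one_of_mem_closedBall (by
        simp only [Metric.mem_closedBall, dist_zero_right]
        exact hx.le)
      simp [hfdef, this]
    · rw [Set.indicator_of_notMem (by simpa using hx)]
      exact mul_nonneg (hf0 x) (sq_nonneg _)
  rw [b3] at b1
  linarith

end Log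

end Pool.Agent.Helper99.TFW
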