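import Mathlib
import Pool.Agent.helper99.TFW.LogIneq

/-!
# Positivity and local integrability of the logarithm; the limiting inequality
-/

set_option autoImplicit false
set_option linter.unusedSectionVars false

open MeasureTheory Filter Topology
open scoped ENNReal NNReal

namespace Pool.Agent.Helper99.TFW

variable {k : ℕ} {z : Fin k → ℝ} {R : Fin k → E}

theorem exists_pos_set {ρ : E → ℝ} (h0 : ∀ x, 0 ≤ ρ x) (hpos : 0 < ∫ x, ρ x) :
    ∃ n : ℕ, 0 < volume {x : E | ‖x‖ < n ∧ 1 / ((n : ℝ) + 1) ≤ Real.sqrt (ρ x)} := by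
  by_contra hcon
  push Not at hcon
  have h1 : ∀ n : ℕ, volume {x : E | ‖x‖ < n ∧ 1 / ((n : ℝ) + 1) ≤ Real.sqrt (ρ x)} = 0 :=
    fun n => le_antisymm (hcon n) (zero_le)
  have h2 : volume (⋃ n : ℕ, {x : E | ‖x‖ < n ∧ 1 / ((n : ℝ) + 1) ≤ Real.sqrt (ρ x)}) = 0 :=
    measure_iUnion_null h1
  have h3 : ρ =ᵐ[volume] 0 := by
    rw [Filter.EventuallyEq, ae_iff]
    refine measure_mono_null ?_ h2
    intro x hx
    simp only [Set.mem_ofPred_eq, Pi.zero_apply] at hx
    have hx' : 0 < ρ x := lt_of_le_of_ne (h0 x) (Ne.symm hx)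
    have hs : 0 < Real.sqrt (ρ x) := Real.sqrt_pos.2 hx'
    obtain ⟨n1, hn1⟩ := exists_nat_gt ‖x‖
    obtain ⟨n2, hn2⟩ := exists_nat_one_div_lt hs
    simp only [Set.mem_iUnion, Set.mem_ofPred_eq]
    refine ⟨max n1 n2, ?_, ?_⟩
    · exact hn1.trans_le (by exact_mod_cast le_max_left _ _)
    · refine le_trans ?_ hn2.le
      refine one_div_le_one_div_of_le (by positivity) ?_
      have : (n2 : ℝ) ≤ ((max n1 n2 : ℕ) : ℝ) := by exact_mod_cast le_max_right _ _
      linarith
  rw [integral_congr_ae h3] at hpos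
  simp at hpos

/-- Uniform bound used in the proof of positivity. -/
theorem log_bound (hz : ∀ i, 0 < z i) {ρ : E → ℝ} {g : E → E} (hadm : Adm ρ g)
    (hv : VarIneq z R ρ g) {r c : ℝ} (hr : 0 < r) (hc : 0 < c) :
    ∃ C : ℝ≥0∞, C ≠ ⊤ ∧ ∀ δ : ℝ, 0 < δ →
      volume {x : E | ‖x‖ < r ∧ c ≤ Real.sqrt (ρ x)} *
        ∫⁻ x in Metric.ball (0 : E) r,
          ENNReal.ofReal ((max (Real.log c - Real.log (Real.sqrt (ρ x) + δ)) 0) ^ 2) ≤ C := by
  obtain ⟨C0, hC0⟩ := hh_bound hz hadm hv (r := 3 * r) (by positivity)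
  refine ⟨volume (Metric.ball (0 : E) (2 * r)) * ENNReal.ofReal ((2 * r) ^ 2 * C0),
    ENNReal.mul_ne_top measure_ball_lt_top.ne ENNReal.ofReal_ne_top, fun δ hδ => ?_⟩
  have hψ0 : ∀ x, 0 ≤ Real.sqrt (ρ x) := fun x => Real.sqrt_nonneg _
  set v : E → ℝ := fun x => Real.log (1 + Real.sqrt (ρ x) / δ) with hvdef
  have hH := h1_log hadm hδ
  have hp := hH.poincare hr
  have hvlog : ∀ x, v x = Real.log (Real.sqrt (ρ x) + δ) - Real.log δ := by
    intro x
    have := hψ0 x
    rw [hvdef]
    simp only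
    rw [← Real.log_div (by positivity) hδ.ne']
    congr 1
    field_simp
    ring
  set S : Set E := {x : E | ‖x‖ < r ∧ c ≤ Real.sqrt (ρ x)} with hS
  have hvm : AEStronglyMeasurable v volume := hH.mem.1
  have step : ∀ x, volume S *
      ENNReal.ofReal ((max (Real.log c - Real.log (Real.sqrt (ρ x) + δ)) 0) ^ 2) ≤
      ∫⁻ y in Metric.ball (0 : E) r, ENNReal.ofReal (‖v y - v x‖ ^ 2) := by
    intro x
    set ε := ENNReal.ofReal ((max (Real.log c - Real.log (Real.sqrt (ρ x) + δ)) 0) ^ 2) with hε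
    have hm : AEMeasurable (fun y => ENNReal.ofReal (‖v y - v x‖ ^ 2))
        (volume.restrict (Metric.ball (0 : E) r)) :=
      (((hvm.sub aestronglyMeasurable_const).norm.pow 2).aemeasurable.ennreal_ofReal).restrict
    have h1 := mul_meas_ge_le_lintegral₀ hm ε
    refine le_trans ?_ h1
    rw [mul_comm]
    refine mul_le_mul' le_rfl ?_
    rw [Measure.restrict_apply' measurableSet_ball]
    refine measure_mono ?_
    rintro y ⟨hy1, hy2⟩
    refine ⟨?_, by simpa using hy1⟩
    simp only [Set.mem_ofPred_eq, hε]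
    refine ENNReal.ofReal_le_ofReal ?_
    refine pow_le_pow_left₀ (le_max_right _ _) ?_ 2
    rw [Real.norm_eq_abs]
    refine max_le ?_ (abs_nonneg _)
    rw [hvlog, hvlog]
    have h2 : Real.log c ≤ Real.log (Real.sqrt (ρ y) + δ) :=
      Real.log_le_log hc (by linarith)
    refine le_trans ?_ (le_abs_self _)
    linarith
  calc volume S * ∫⁻ x in Metric.ball (0 : E) r,
        ENNReal.ofReal ((max (Real.log c - Real.log (Real.sqrt (ρ x) + δ)) 0) ^ 2)
      ≤ ∫⁻ x in Metric.ball (0 : E) r, volume S *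
        ENNReal.ofReal ((max (Real.log c - Real.log (Real.sqrt (ρ x) + δ)) 0) ^ 2) :=
        lintegral_const_mul_le _ _
    _ ≤ ∫⁻ x in Metric.ball (0 : E) r, ∫⁻ y in Metric.ball (0 : E) r,
          ENNReal.ofReal (‖v y - v x‖ ^ 2) := lintegral_mono step
    _ ≤ volume (Metric.ball (0 : E) (2 * r)) *
      ENNReal.ofReal ((2 * r) ^ 2 * ∫ x in Metric.ball (0 : E) (3 * r), ‖hh ρ g δ x‖ ^ 2) := hp
    _ ≤ _ := by
        refine mul_le_mul' le_rfl (ENNReal.ofReal_le_ofReal ?_)
        exact mul_le_mul_of_nonneg_left (hC0 δ hδ) (sq_nonneg _)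

/-- Positivity almost everywhere and local integrability of the logarithm. -/
theorem log_int (hz : ∀ i, 0 < z i) {ρ : E → ℝ} {g : E → E} (hadm : Adm ρ g)
    (hv : VarIneq z R ρ g) (hpos : 0 < ∫ x, ρ x) :
    (∀ᵐ x, 0 < ρ x) ∧
      ∀ r : ℝ, IntegrableOn (fun x => Real.log (Real.sqrt (ρ x))) (Metric.ball (0 : E) r) := by
  obtain ⟨n0, hn0⟩ := exists_pos_set hadm.nn hpos
  set c : ℝ := 1 / ((n0 : ℝ) + 1) with hc
  have hc0 : 0 < c := by positivity
  have hψ0 : ∀ x, 0 ≤ Real.sqrt (ρ x) := fun x => Real.sqrt_nonneg _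
  have hψm : AEStronglyMeasurable (fun x => Real.sqrt (ρ x)) volume := hadm.h1.mem.1
  -- main statement on balls
  have main : ∀ r : ℝ, (n0 : ℝ) + 1 ≤ r →
      (∀ᵐ x ∂(volume.restrict (Metric.ball (0 : E) r)), 0 < ρ x) ∧
      IntegrableOn (fun x => Real.log (Real.sqrt (ρ x))) (Metric.ball (0 : E) r) := by
    intro r hr
    have hr0 : 0 < r := by
      have : (0 : ℝ) ≤ n0 := by positivity
      linarith
    set μ := volume.restrict (Metric.ball (0 : E) r) with hμ
    obtain ⟨C, hC, hb⟩ := log_bound hz hadm hv hr0 hc0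
    set m := volume {x : E | ‖x‖ < r ∧ c ≤ Real.sqrt (ρ x)} with hm
    have hmpos : m ≠ 0 := by
      refine (hn0.trans_le (measure_mono ?_)).ne'
      rintro x ⟨h1, h2⟩
      exact ⟨by linarith, h2⟩
    have hmtop : m ≠ ⊤ := by
      refine ne_top_of_le_ne_top (measure_ball_lt_top (x := (0 : E)) (r := r)).ne
        (measure_mono ?_)
      rintro x ⟨h1, _⟩
      simpa using h1
    have hb' : ∀ n : ℕ, ∫⁻ x, ENNReal.ofReal
        ((max (Real.log c - Real.log (Real.sqrt (ρ x) + 1 / ((n : ℝ) + 1))) 0) ^ 2) ∂μ ≤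
        C / m := by
      intro n
      rw [ENNReal.le_div_iff_mul_le (Or.inl hmpos) (Or.inl hmtop), mul_comm]
      exact hb _ (by positivity)
    have hfin : ∫⁻ x, liminf (fun n : ℕ => ENNReal.ofReal
        ((max (Real.log c - Real.log (Real.sqrt (ρ x) + 1 / ((n : ℝ) + 1))) 0) ^ 2)) atTop ∂μ ≤
        C / m := by
      refine (lintegral_liminf_le' fun n => ?_).trans ?_
      · have h1 : AEMeasurable (fun x => Real.log (Real.sqrt (ρ x) + 1 / ((n : ℝ) + 1))) μ :=
          (Real.measurable_log.comp_aemeasurable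
            (hψm.aemeasurable.add_const _)).restrict
        exact ((((aemeasurable_const.sub h1).max aemeasurable_const).pow_const 2)).ennreal_ofReal
      · refine liminf_le_of_le (by isBoundedDefault) fun b hb2 => ?_
        obtain ⟨n, hn⟩ := hb2.exists
        exact hn.trans (hb' n)
    have hCm : C / m ≠ ⊤ := ENNReal.div_ne_top hC hmpos
    -- the pointwise limit
    set FL : ℝ → ℝ≥0∞ := fun s => if s = 0 then ⊤ else
      ENNReal.ofReal ((max (Real.log c - Real.log s) 0) ^ 2) with hFL
    have hFLm : Measurable FL := by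
      refine Measurable.ite (measurableSet_singleton 0) measurable_const ?_
      exact (((measurable_const.sub Real.measurable_log).max measurable_const).pow_const
        2).ennreal_ofReal
    have hptl : ∀ x, liminf (fun n : ℕ => ENNReal.ofReal
        ((max (Real.log c - Real.log (Real.sqrt (ρ x) + 1 / ((n : ℝ) + 1))) 0) ^ 2)) atTop =
        FL (Real.sqrt (ρ x)) := by
      intro x
      by_cases hs0 : Real.sqrt (ρ x) = 0
      · have l0 : Tendsto (fun n : ℕ => (1 : ℝ) / ((n : ℝ) + 1)) atTop (𝓝[>] 0) := by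
          rw [tendsto_nhdsWithin_iff]
          exact ⟨tendsto_one_div_add_atTop_nhds_zero_nat,
            Eventually.of_forall fun n => by simp only [Set.mem_Ioi]; positivity⟩
        have l1 : Tendsto (fun n : ℕ => Real.log ((1 : ℝ) / ((n : ℝ) + 1))) atTop atBot :=
          Real.tendsto_log_nhdsGT_zero.comp l0
        have l2 : Tendsto (fun n : ℕ => Real.log c - Real.log ((1 : ℝ) / ((n : ℝ) + 1)))
            atTop atTop := by
          simp only [sub_eq_add_neg]
          exact tendsto_atTop_add_const_left _ _ (tendsto_neg_atBot_atTop.comp l1)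
        have l3 : Tendsto (fun n : ℕ => (max (Real.log c - Real.log (Real.sqrt (ρ x) +
            1 / ((n : ℝ) + 1))) 0) ^ 2) atTop atTop := by
          rw [hs0]
          simp only [zero_add]
          refine (tendsto_pow_atTop (two_ne_zero)).comp ?_
          exact tendsto_atTop_mono (fun n => le_max_left _ _) l2
        have l4 := (ENNReal.tendsto_ofReal_nhds_top.2 l3).liminf_eq
        rw [l4, hFL]
        simp [hs0]
      · have hs : 0 < Real.sqrt (ρ x) := lt_of_le_of_ne (hψ0 x) (Ne.symm hs0)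
        have l1 : Tendsto (fun n : ℕ => Real.sqrt (ρ x) + 1 / ((n : ℝ) + 1)) atTop
            (𝓝 (Real.sqrt (ρ x))) := by
          have := (tendsto_one_div_add_atTop_nhds_zero_nat (𝕜 := ℝ)).const_add (Real.sqrt (ρ x))
          simpa using this
        have l2 := (Real.continuousAt_log hs.ne').tendsto.comp l1
        have l3 := (((l2.const_sub (Real.log c)).max (tendsto_const_nhds (x := (0 : ℝ)))).pow 2)
        have l4 := (ENNReal.continuous_ofReal.tendsto _).comp l3
        rw [hFL]
        simp only [hs0, if_false]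
        exact l4.liminf_eq
    simp_rw [hptl] at hfin
    have hmeasL : AEMeasurable (fun x => FL (Real.sqrt (ρ x))) μ :=
      (hFLm.comp_aemeasurable hψm.aemeasurable).restrict
    have hlt := ae_lt_top' hmeasL (ne_top_of_le_ne_top hCm hfin)
    -- positivity
    have hae : ∀ᵐ x ∂μ, 0 < ρ x := by
      filter_upwards [hlt] with x hx
      by_contra hcon
      have hx0 : ρ x = 0 := le_antisymm (not_lt.1 hcon) (hadm.nn x)
      have hs0 : Real.sqrt (ρ x) = 0 := by rw [hx0, Real.sqrt_zero]
      rw [hFL] at hx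
      simp [hs0] at hx
    refine ⟨hae, ?_⟩
    -- integrability
    set G : E → ℝ := fun x => (max (Real.log c - Real.log (Real.sqrt (ρ x))) 0) ^ 2 with hG
    have hlogm : AEMeasurable (fun x => Real.log (Real.sqrt (ρ x))) μ :=
      (Real.measurable_log.comp_aemeasurable hψm.aemeasurable).restrict
    have hGm : AEMeasurable G μ :=
      ((aemeasurable_const.sub hlogm).max aemeasurable_const).pow_const 2
    have hG0 : ∀ x, 0 ≤ G x := fun x => sq_nonneg _
    have hGi : Integrable G μ := by
      refine ⟨hGm.aestronglyMeasurable, ?_⟩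
      rw [hasFiniteIntegral_iff_ofReal (Eventually.of_forall hG0)]
      refine lt_of_le_of_lt ?_ hCm.lt_top
      refine le_trans (le_of_eq ?_) hfin
      apply lintegral_congr_ae
      filter_upwards [hae] with x hx
      have hs : 0 < Real.sqrt (ρ x) := Real.sqrt_pos.2 hx
      simp only [hFL, hG, hs.ne', if_false]
    have hψi : Integrable (fun x => Real.sqrt (ρ x)) μ := by
      have h1 := locInt_of_L2 hadm.h1.mem
      exact (h1.integrableOn_isCompact (isCompact_closedBall (0 : E) r)).mono_set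
        Metric.ball_subset_closedBall
    have hbd : Integrable (fun x => Real.sqrt (ρ x) + (|Real.log c| + 1) + G x) μ := by
      refine (hψi.add ?_).add hGi
      exact integrable_const_iff.2 (Or.inr ⟨by
        rw [hμ, Measure.restrict_apply_univ]; exact measure_ball_lt_top⟩)
    refine hbd.mono' hlogm.aestronglyMeasurable ?_
    filter_upwards [hae] with x hx
    have hs : 0 < Real.sqrt (ρ x) := Real.sqrt_pos.2 hx
    have h1 : Real.log (Real.sqrt (ρ x)) ≤ Real.sqrt (ρ x) := by
      have := Real.log_le_sub_one_of_pos hs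
      linarith
    have h2 : Real.log c - Real.log (Real.sqrt (ρ x)) ≤
        max (Real.log c - Real.log (Real.sqrt (ρ x))) 0 := le_max_left _ _
    have h3 : max (Real.log c - Real.log (Real.sqrt (ρ x))) 0 ≤ 1 + G x := by
      simp only [hG]
      nlinarith [sq_nonneg (max (Real.log c - Real.log (Real.sqrt (ρ x))) 0 - 1),
        le_max_right (Real.log c - Real.log (Real.sqrt (ρ x))) 0]
    have h4 := neg_abs_le (Real.log c)
    have h5 := abs_nonneg (Real.log c)
    rw [Real.norm_eq_abs, abs_le]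
    constructor
    · linarith
    · linarith [hG0 x]
  constructor
  · -- positivity everywhere
    rw [ae_iff]
    have h1 : {x : E | ¬ 0 < ρ x} ⊆ ⋃ n : ℕ,
        ({x : E | ¬ 0 < ρ x} ∩ Metric.ball (0 : E) ((n0 : ℝ) + 1 + n)) := by
      intro x hx
      obtain ⟨n, hn⟩ := exists_nat_gt ‖x‖
      refine Set.mem_iUnion.2 ⟨n, hx, ?_⟩
      simp only [Metric.mem_ball, dist_zero_right]
      have : (0 : ℝ) ≤ n0 := by positivity
      linarith
    refine measure_mono_null h1 (measure_iUnion_null fun n => ?_)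
    have h2 := (main ((n0 : ℝ) + 1 + n) (by
      have : (0 : ℝ) ≤ n := by positivity
      linarith)).1
    rw [ae_iff, Measure.restrict_apply' measurableSet_ball] at h2
    exact h2
  · intro r
    have h1 := (main (max r ((n0 : ℝ) + 1)) (le_max_right _ _)).2
    exact h1.mono_set (Metric.ball_subset_ball (le_max_left _ _))

/-- The limiting inequality. -/
theorem limit_ineq {ρ : E → ℝ} {g : E → E} (hadm : Adm ρ g)
    (hv : VarIneq z R ρ g) (hpos : ∀ᵐ x, 0 < ρ x)
    (hlog : ∀ r : ℝ, IntegrableOn (fun x => Real.log (Real.sqrt (ρ x))) (Metric.ball (0 : E) r))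
    {f w K : E → ℝ} (hf : ContDiff ℝ 1 f) (hcf : HasCompactSupport f) (hf0 : ∀ x, 0 ≤ f x)
    (hw : ContDiff ℝ 1 w) (hcw : HasCompactSupport w) (hK : Integrable K)
    (hpt : ∀ (x h : E), inner ℝ h (grad f x) - f x * ‖h‖ ^ 2 ≤ inner ℝ h (w x • x) + K x) :
    Integrable (fun x => (3 * w x + fderiv ℝ w x x) * Real.log (Real.sqrt (ρ x))) ∧
    0 ≤ -(∫ x, (3 * w x + fderiv ℝ w x x) * Real.log (Real.sqrt (ρ x))) + (∫ x, K x) +
      ∫ x, Lf z R ρ x * f x := by
  set J : E → ℝ := fun x => 3 * w x + fderiv ℝ w x x with hJ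
  have hψ0 : ∀ x, 0 ≤ Real.sqrt (ρ x) := fun x => Real.sqrt_nonneg _
  have hψm : AEStronglyMeasurable (fun x => Real.sqrt (ρ x)) volume := hadm.h1.mem.1
  have hJc : Continuous J :=
    (continuous_const.mul hw.continuous).add
      ((hw.continuous_fderiv (by norm_num)).clm_apply continuous_id)
  have hJcs : HasCompactSupport J := by
    have h1 : HasCompactSupport (fun x => 3 * w x) := hcw.mul_left
    have h2 : HasCompactSupport (fun x => fderiv ℝ w x x) := by
      refine (hcw.fderiv (𝕜 := ℝ)).mono' ?_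
      intro x hx
      refine subset_tsupport _ ?_
      intro h
      exact hx (by simp [h])
    exact h1.add h2
  obtain ⟨CJ, hCJ0, hCJ⟩ := exists_bound_of_compact hJc hJcs
  obtain ⟨S, hS⟩ := exists_radius hJcs
  have hJ0 := div_integral_zero hw hcw
  have hJi : Integrable J := hJc.integrable_of_hasCompactSupport hJcs
  -- domination
  set D : E → ℝ := (Metric.ball (0 : E) S).indicator
    (fun x => CJ * (|Real.log (Real.sqrt (ρ x))| + Real.sqrt (ρ x) + 1)) with hD
  have hDi : Integrable D := by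
    rw [hD, integrable_indicator_iff measurableSet_ball]
    have h1 := locInt_of_L2 hadm.h1.mem
    have h2 : IntegrableOn (fun x => Real.sqrt (ρ x)) (Metric.ball (0 : E) S) :=
      (h1.integrableOn_isCompact (isCompact_closedBall (0 : E) S)).mono_set
        Metric.ball_subset_closedBall
    have h3 : IntegrableOn (fun _ : E => (1 : ℝ)) (Metric.ball (0 : E) S) :=
      integrableOn_const measure_ball_lt_top.ne
    exact ((((hlog S).abs).add h2).add h3).const_mul CJ
  have hlogle : ∀ x, 0 < ρ x → ∀ δ, 0 ≤ δ → δ ≤ 1 →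
      |Real.log (Real.sqrt (ρ x) + δ)| ≤ |Real.log (Real.sqrt (ρ x))| + Real.sqrt (ρ x) + 1 := by
    intro x hx δ hδ hδ1
    have hs : 0 < Real.sqrt (ρ x) := Real.sqrt_pos.2 hx
    have h1 : Real.log (Real.sqrt (ρ x)) ≤ Real.log (Real.sqrt (ρ x) + δ) :=
      Real.log_le_log hs (by linarith)
    have h2 : Real.log (Real.sqrt (ρ x) + δ) ≤ Real.sqrt (ρ x) := by
      have := Real.log_le_sub_one_of_pos (show 0 < Real.sqrt (ρ x) + δ by linarith)
      linarith
    have h3 := neg_abs_le (Real.log (Real.sqrt (ρ x)))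
    have h4 := abs_nonneg (Real.log (Real.sqrt (ρ x)))
    rw [abs_le]
    constructor <;> linarith
  have hdom : ∀ x, 0 < ρ x → ∀ δ, 0 ≤ δ → δ ≤ 1 →
      ‖J x * Real.log (Real.sqrt (ρ x) + δ)‖ ≤ D x := by
    intro x hx δ hδ hδ1
    by_cases hxS : ‖x‖ < S
    · rw [hD, Set.indicator_of_mem (by simpa using hxS), norm_mul]
      exact mul_le_mul (hCJ x) (hlogle x hx δ hδ hδ1) (norm_nonneg _) hCJ0
    · rw [hD, Set.indicator_of_notMem (by simpa using hxS), hS x (not_lt.1 hxS), zero_mul,
        norm_zero]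
  have hmeas : ∀ δ : ℝ, AEStronglyMeasurable
      (fun x => J x * Real.log (Real.sqrt (ρ x) + δ)) volume := fun δ =>
    hJc.aestronglyMeasurable.mul (Real.measurable_log.comp_aemeasurable
      (hψm.aemeasurable.add_const _)).aestronglyMeasurable
  have hint0 : Integrable (fun x => J x * Real.log (Real.sqrt (ρ x))) := by
    refine hDi.mono' ?_ ?_
    · have := hmeas 0
      simpa using this
    · filter_upwards [hpos] with x hx
      have := hdom x hx 0 le_rfl zero_le_one
      simpa using this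
  -- inequality for each δ
  have ineq : ∀ δ : ℝ, 0 < δ → δ ≤ 1 → 0 ≤ -(∫ x, J x * Real.log (Real.sqrt (ρ x) + δ)) +
      (∫ x, K x) + ∫ x, Lf z R ρ x * (th ρ δ x * f x) := by
    intro δ hδ hδ1
    obtain ⟨j1, j2, j3⟩ := bdelta hadm hv hδ hf hcf hf0
    have hH := h1_log hadm hδ
    have hwx : MemLp (fun x : E => w x • x) 2 :=
      (hw.continuous.smul continuous_id).memLp_of_hasCompactSupport hcw.smul_right
    have i1 := integrable_inner hH.memg hwx
    have b1 : ∫ x, (inner ℝ (hh ρ g δ x) (grad f x) - f x * ‖hh ρ g δ x‖ ^ 2) ≤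
        (∫ x, inner ℝ (hh ρ g δ x) (w x • x)) + ∫ x, K x := by
      rw [← integral_add i1 hK]
      exact integral_mono j1 (i1.add hK) fun x => hpt x _
    have b2 := hH.test_radial hw hcw
    have b3 : ∫ x, Real.log (1 + Real.sqrt (ρ x) / δ) * (3 * w x + fderiv ℝ w x x) =
        ∫ x, J x * Real.log (Real.sqrt (ρ x) + δ) := by
      have h1 : ∀ x, Real.log (1 + Real.sqrt (ρ x) / δ) * (3 * w x + fderiv ℝ w x x) =
          J x * Real.log (Real.sqrt (ρ x) + δ) - Real.log δ * J x := by
        intro x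
        have := hψ0 x
        have e1 : Real.log (1 + Real.sqrt (ρ x) / δ) =
            Real.log (Real.sqrt (ρ x) + δ) - Real.log δ := by
          rw [← Real.log_div (by positivity) hδ.ne']
          congr 1
          field_simp
          ring
        rw [e1]
        simp only [hJ]
        ring
      have i2 : Integrable (fun x => J x * Real.log (Real.sqrt (ρ x) + δ)) := by
        refine hDi.mono' (hmeas δ) ?_
        filter_upwards [hpos] with x hx
        exact hdom x hx δ hδ.le hδ1
      simp_rw [h1]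
      rw [integral_sub i2 (hJi.const_mul _), integral_const_mul, hJ0]
      ring
    rw [b3] at b2
    linarith
  -- limit
  have l1 : Tendsto (fun n : ℕ => ∫ x, J x * Real.log (Real.sqrt (ρ x) + 1 / ((n : ℝ) + 1)))
      atTop (𝓝 (∫ x, J x * Real.log (Real.sqrt (ρ x)))) := by
    refine tendsto_integral_of_dominated_convergence D (fun n => hmeas _) hDi (fun n => ?_) ?_
    · filter_upwards [hpos] with x hx
      refine hdom x hx _ (by positivity) ?_
      rw [div_le_one (by positivity)]
      have : (0 : ℝ) ≤ n := by positivity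
      linarith
    · filter_upwards [hpos] with x hx
      have hs : 0 < Real.sqrt (ρ x) := Real.sqrt_pos.2 hx
      have l1 : Tendsto (fun n : ℕ => Real.sqrt (ρ x) + 1 / ((n : ℝ) + 1)) atTop
          (𝓝 (Real.sqrt (ρ x))) := by
        have := (tendsto_one_div_add_atTop_nhds_zero_nat (𝕜 := ℝ)).const_add (Real.sqrt (ρ x))
        simpa using this
      exact ((Real.continuousAt_log hs.ne').tendsto.comp l1).const_mul _
  have iL := int_Lf_mul (z := z) (R := R) hadm hf.continuous hcf hf0
  have l2 : Tendsto (fun n : ℕ => ∫ x, Lf z R ρ x * (th ρ (1 / ((n : ℝ) + 1)) x * f x))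
      atTop (𝓝 (∫ x, Lf z R ρ x * f x)) := by
    refine tendsto_integral_of_dominated_convergence (fun x => ‖Lf z R ρ x * f x‖)
      (fun n => ?_) iL.norm (fun n => ?_) ?_
    · exact (bdelta hadm hv (δ := 1 / ((n : ℝ) + 1)) (by positivity) hf hcf hf0).2.1.1
    · refine Eventually.of_forall fun x => ?_
      have hδ : (0 : ℝ) < 1 / ((n : ℝ) + 1) := by positivity
      rw [norm_mul, norm_mul, norm_mul]
      refine mul_le_mul_of_nonneg_left ?_ (norm_nonneg _)
      refine mul_le_of_le_one_left (norm_nonneg _) ?_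
      rw [Real.norm_eq_abs, abs_of_nonneg (th_nonneg ρ hδ x)]
      exact th_le ρ hδ x
    · filter_upwards [hpos] with x hx
      have hs : 0 < Real.sqrt (ρ x) := Real.sqrt_pos.2 hx
      have l1 : Tendsto (fun n : ℕ => Real.sqrt (ρ x) + 1 / ((n : ℝ) + 1)) atTop
          (𝓝 (Real.sqrt (ρ x))) := by
        have := (tendsto_one_div_add_atTop_nhds_zero_nat (𝕜 := ℝ)).const_add (Real.sqrt (ρ x))
        simpa using this
      have l3 : Tendsto (fun n : ℕ => th ρ (1 / ((n : ℝ) + 1)) x) atTop (𝓝 1) := by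
        have := (tendsto_const_nhds (x := Real.sqrt (ρ x))).div l1 hs.ne'
        rw [div_self hs.ne'] at this
        exact this
      have := (l3.mul_const (f x)).const_mul (Lf z R ρ x)
      simpa using this
  refine ⟨hint0, ?_⟩
  have l4 := ((l1.neg).add (tendsto_const_nhds (x := ∫ x, K x))).add l2
  refine ge_of_tendsto' l4 fun n => ?_
  refine ineq _ (by positivity) ?_
  rw [div_le_one (by positivity)]
  have : (0 : ℝ) ≤ n := by positivity
  linarith

end Pool.Agent.Helper99.TFW
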