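import Mathlib
import Pool.Agent.helper99.TFW.LogInt

/-!
# The radial test functions
-/

set_option autoImplicit false
set_option linter.unusedSectionVars false

open MeasureTheory Filter Topology
open scoped ENNReal NNReal

namespace Pool.Agent.Helper99.TFW

/-! ### One variable profiles -/

theorem hasDerivAt_ite {P Q P' Q' : ℝ → ℝ} (hP : ∀ s ≤ 1, HasDerivAt P (P' s) s)
    (hQ : ∀ s, 1 ≤ s → HasDerivAt Q (Q' s) s) (h1 : P 1 = Q 1) (h2 : P' 1 = Q' 1) (s : ℝ) :
    HasDerivAt (fun s => if s ≤ 1 then P s else Q s) (if s ≤ 1 then P' s else Q' s) s := by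
  rcases lt_trichotomy s 1 with h | h | h
  · rw [if_pos h.le]
    refine (hP s h.le).congr_of_eventuallyEq ?_
    filter_upwards [gt_mem_nhds h] with t ht
    rw [if_pos ht.le]
  · subst h
    rw [if_pos le_rfl]
    have l1 : HasDerivWithinAt (fun s => if s ≤ 1 then P s else Q s) (P' 1) (Set.Iic 1) 1 := by
      refine (hP 1 le_rfl).hasDerivWithinAt.congr (fun t ht => ?_) ?_
      · rw [if_pos (Set.mem_Iic.1 ht)]
      · rw [if_pos le_rfl]
    have l2 : HasDerivWithinAt (fun s => if s ≤ 1 then P s else Q s) (P' 1) (Set.Ici 1) 1 := by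
      rw [h2]
      refine (hQ 1 le_rfl).hasDerivWithinAt.congr (fun t ht => ?_) ?_
      · rcases (Set.mem_Ici.1 ht).eq_or_lt with h | h
        · rw [← h, if_pos le_rfl, h1]
        · rw [if_neg (not_le.2 h)]
      · rw [if_pos le_rfl, h1]
    have l3 := l1.union l2
    rw [Set.Iic_union_Ici] at l3
    exact hasDerivWithinAt_univ.1 l3
  · rw [if_neg (not_le.2 h)]
    refine (hQ s h.le).congr_of_eventuallyEq ?_
    filter_upwards [lt_mem_nhds h] with t ht
    rw [if_neg (not_le.2 ht)]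

/-- The profile of the test function. -/
noncomputable def aa (s : ℝ) : ℝ :=
  if s ≤ 1 then 1 - (s - 1) / 2 + 3 / 8 * (s - 1) ^ 2 else s ^ (-(1 / 2) : ℝ)

/-- Minus twice the derivative of `aa`. -/
noncomputable def bb (s : ℝ) : ℝ := if s ≤ 1 then (5 - 3 * s) / 2 else s ^ (-(3 / 2) : ℝ)

/-- The derivative of `bb`. -/
noncomputable def bbd (s : ℝ) : ℝ := if s ≤ 1 then -(3 / 2) else -(3 / 2) * s ^ (-(5 / 2) : ℝ)

theorem hasDerivAt_aa (s : ℝ) : HasDerivAt aa (-(bb s) / 2) s := by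
  have h := hasDerivAt_ite (P := fun s => 1 - (s - 1) / 2 + 3 / 8 * (s - 1) ^ 2)
    (P' := fun s => -((5 - 3 * s) / 2) / 2) (Q := fun s => s ^ (-(1 / 2) : ℝ))
    (Q' := fun s => -(s ^ (-(3 / 2) : ℝ)) / 2)
    (fun s _ => by
      have h1 : HasDerivAt (fun s : ℝ => s - 1) 1 s := (hasDerivAt_id s).sub_const 1
      have h2 := ((h1.div_const 2).const_sub 1).add ((h1.pow 2).const_mul (3 / 8))
      refine h2.congr_deriv ?_
      ring)
    (fun s hs => by
      have hs0 : s ≠ 0 := by linarith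
      have h1 := Real.hasDerivAt_rpow_const (x := s) (p := -(1 / 2)) (Or.inl hs0)
      refine h1.congr_deriv ?_
      have : (-(1 / 2) - 1 : ℝ) = -(3 / 2) := by norm_num
      rw [this]; ring)
    (by norm_num) (by norm_num) s
  refine h.congr_deriv ?_
  unfold bb
  split_ifs <;> rfl

theorem hasDerivAt_bb (s : ℝ) : HasDerivAt bb (bbd s) s := by
  exact hasDerivAt_ite (P := fun s => (5 - 3 * s) / 2)
    (P' := fun _ => -(3 / 2)) (Q := fun s => s ^ (-(3 / 2) : ℝ))
    (Q' := fun s => -(3 / 2) * s ^ (-(5 / 2) : ℝ))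
    (fun s _ => by
      have h1 : HasDerivAt (fun s : ℝ => s) 1 s := hasDerivAt_id s
      have h2 := ((h1.const_mul 3).const_sub 5).div_const 2
      refine h2.congr_deriv ?_
      ring)
    (fun s hs => by
      have hs0 : s ≠ 0 := by linarith
      have h1 := Real.hasDerivAt_rpow_const (x := s) (p := -(3 / 2)) (Or.inl hs0)
      refine h1.congr_deriv ?_
      have : (-(3 / 2) - 1 : ℝ) = -(5 / 2) := by norm_num
      rw [this])
    (by norm_num) (by norm_num) s

theorem continuous_bb : Continuous bb :=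
  continuous_iff_continuousAt.2 fun s => (hasDerivAt_bb s).continuousAt

theorem continuous_bbd : Continuous bbd := by
  rw [continuous_iff_continuousAt]
  intro s
  rcases lt_trichotomy s 1 with h | h | h
  · have : (fun _ => -(3 / 2) : ℝ → ℝ) =ᶠ[𝓝 s] bbd := by
      filter_upwards [gt_mem_nhds h] with t ht
      simp only [bbd, ht.le, if_true]
    exact continuousAt_const.congr this
  · subst h
    have e1 : ContinuousAt (fun s : ℝ => -(3 / 2) * s ^ (-(5 / 2) : ℝ)) 1 :=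
      (Real.continuousAt_rpow_const _ _ (Or.inl one_ne_zero)).const_mul _
    rw [continuousAt_iff_continuous_left_right]
    constructor
    · refine (continuousWithinAt_const (b := (-(3 / 2) : ℝ))).congr (fun t ht => ?_) ?_
      · have : t ≤ 1 := ht
        simp only [bbd, this, if_true]
      · simp only [bbd, le_refl, if_true]
    · refine e1.continuousWithinAt.congr (fun t ht => ?_) ?_
      · rcases (Set.mem_Ici.1 ht).eq_or_lt with h | h
        · rw [← h]; simp [bbd]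
        · simp only [bbd, not_le.2 h, if_false]
      · simp [bbd]
  · have e1 : ContinuousAt (fun s : ℝ => -(3 / 2) * s ^ (-(5 / 2) : ℝ)) s :=
      (Real.continuousAt_rpow_const _ _ (Or.inl (by linarith))).const_mul _
    have : (fun s : ℝ => -(3 / 2) * s ^ (-(5 / 2) : ℝ)) =ᶠ[𝓝 s] bbd := by
      filter_upwards [lt_mem_nhds h] with t ht
      simp only [bbd, not_le.2 ht, if_false]
    exact e1.congr this

theorem contDiff_bb : ContDiff ℝ 1 bb := by
  rw [contDiff_one_iff_deriv]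
  refine ⟨fun s => (hasDerivAt_bb s).differentiableAt, ?_⟩
  have : deriv bb = bbd := by ext s; exact (hasDerivAt_bb s).deriv
  rw [this]
  exact continuous_bbd

theorem contDiff_aa : ContDiff ℝ 1 aa := by
  rw [contDiff_one_iff_deriv]
  refine ⟨fun s => (hasDerivAt_aa s).differentiableAt, ?_⟩
  have : deriv aa = fun s => -(bb s) / 2 := by ext s; exact (hasDerivAt_aa s).deriv
  rw [this]
  exact continuous_bb.neg.div_const 2

theorem aa_pos {s : ℝ} : 0 < aa s := by
  unfold aa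
  split_ifs with h
  · nlinarith [sq_nonneg (s - 1)]
  · push Not at h
    have : 0 < s := by linarith
    positivity

theorem bb_pos {s : ℝ} : 0 < bb s := by
  unfold bb
  split_ifs with h
  · linarith
  · push Not at h
    have : 0 < s := by linarith
    positivity

theorem aa_antitone : Antitone aa := by
  refine antitone_of_deriv_nonpos (fun s => (hasDerivAt_aa s).differentiableAt) fun s => ?_
  rw [(hasDerivAt_aa s).deriv]
  have := bb_pos (s := s)
  linarith

theorem aa_one_le {s : ℝ} (h : s ≤ 1) : 1 ≤ aa s := by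
  have := aa_antitone h
  have h1 : aa 1 = 1 := by simp [aa]
  linarith

theorem aa_le {s : ℝ} (h0 : 0 ≤ s) : aa s ≤ 15 / 8 := by
  have := aa_antitone h0
  have h1 : aa 0 = 15 / 8 := by norm_num [aa]
  linarith

theorem aa_eq {r : ℝ} (h : 1 ≤ r) : aa (r ^ 2) = r⁻¹ := by
  have hr : 0 < r := by linarith
  rcases h.eq_or_lt with h | h
  · rw [← h]; simp [aa]
  · have h2 : ¬ (r ^ 2 ≤ 1) := by nlinarith
    simp only [aa, h2, if_false]
    rw [← Real.rpow_natCast, ← Real.rpow_mul hr.le]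
    norm_num
    exact Real.rpow_neg_one r

theorem bb_eq {r : ℝ} (h : 1 ≤ r) : bb (r ^ 2) = (r ^ 3)⁻¹ := by
  have hr : 0 < r := by linarith
  rcases h.eq_or_lt with h | h
  · rw [← h]; norm_num [bb]
  · have h2 : ¬ (r ^ 2 ≤ 1) := by nlinarith
    simp only [bb, h2, if_false]
    rw [← Real.rpow_natCast, ← Real.rpow_mul hr.le, ← Real.rpow_natCast, ← Real.rpow_neg hr.le]
    norm_num

theorem bbd_eq {r : ℝ} (h : 1 ≤ r) : bbd (r ^ 2) = -(3 / 2) * (r ^ 5)⁻¹ := by
  have hr : 0 < r := by linarith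
  rcases h.eq_or_lt with h | h
  · rw [← h]; norm_num [bbd]
  · have h2 : ¬ (r ^ 2 ≤ 1) := by nlinarith
    simp only [bbd, h2, if_false]
    rw [← Real.rpow_natCast, ← Real.rpow_mul hr.le, ← Real.rpow_natCast, ← Real.rpow_neg hr.le]
    norm_num

/-- The cutoff profile. -/
noncomputable def vt (s : ℝ) : ℝ := Real.smoothTransition ((4 - s) / 3)

theorem vt_contDiff : ContDiff ℝ 1 vt :=
  Real.smoothTransition.contDiff.comp ((contDiff_const.sub contDiff_id).div_const 3)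

theorem vt_nonneg (s : ℝ) : 0 ≤ vt s := Real.smoothTransition.nonneg _

theorem vt_le_one (s : ℝ) : vt s ≤ 1 := Real.smoothTransition.le_one _

theorem vt_one {s : ℝ} (h : s ≤ 1) : vt s = 1 :=
  Real.smoothTransition.one_of_one_le (by rw [le_div_iff₀ (by norm_num)]; linarith)

theorem vt_zero {s : ℝ} (h : 4 ≤ s) : vt s = 0 :=
  Real.smoothTransition.zero_of_nonpos (by
    apply div_nonpos_of_nonpos_of_nonneg <;> linarith)

theorem vt_antitone : Antitone vt := fun s t h =>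
  Real.smoothTransition.monotone (by
    apply div_le_div_of_nonneg_right _ (by norm_num : (0 : ℝ) ≤ 3)
    linarith)

theorem hasDerivAt_vt (s : ℝ) : HasDerivAt vt (deriv vt s) s :=
  (vt_contDiff.differentiable (by norm_num) s).hasDerivAt

theorem deriv_vt_left {s : ℝ} (h : s ≤ 1) : deriv vt s = 0 := by
  have : IsLocalMax vt s := Eventually.of_forall fun t => by
    rw [vt_one h]; exact vt_le_one t
  exact this.deriv_eq_zero

theorem deriv_vt_right {s : ℝ} (h : 4 ≤ s) : deriv vt s = 0 := by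
  have : IsLocalMin vt s := Eventually.of_forall fun t => by
    rw [vt_zero h]; exact vt_nonneg t
  exact this.deriv_eq_zero

theorem deriv_vt_nonpos (s : ℝ) : deriv vt s ≤ 0 := vt_antitone.deriv_nonpos

theorem exists_deriv_vt_bound : ∃ C : ℝ, 0 ≤ C ∧ ∀ s, |deriv vt s| ≤ C := by
  have hc : Continuous (deriv vt) := vt_contDiff.continuous_deriv (by norm_num)
  obtain ⟨C, hC⟩ := (isCompact_Icc (a := (1 : ℝ)) (b := 4)).exists_bound_of_continuousOn
    hc.continuousOn
  refine ⟨max C 0, le_max_right _ _, fun s => ?_⟩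
  rcases le_total s 1 with h | h
  · rw [deriv_vt_left h]; simp
  · rcases le_total 4 s with h' | h'
    · rw [deriv_vt_right h']; simp
    · exact (hC s ⟨h, h'⟩).trans (le_max_left _ _)

/-! ### Radial functions -/

theorem hasFDerivAt_radial {Φ : ℝ → ℝ} {d : ℝ} {x : E} (h : HasDerivAt Φ d (‖x‖ ^ 2)) :
    HasFDerivAt (fun x : E => Φ (‖x‖ ^ 2)) (d • (2 • (innerSL ℝ x))) x := by
  have h1 : HasFDerivAt (fun x : E => ‖x‖ ^ 2) (2 • (innerSL ℝ x)) x :=
    (hasStrictFDerivAt_norm_sq x).hasFDerivAt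
  exact h.comp_hasFDerivAt x h1

theorem fderiv_radial {Φ : ℝ → ℝ} {d : ℝ} {x : E} (h : HasDerivAt Φ d (‖x‖ ^ 2)) (v : E) :
    fderiv ℝ (fun x : E => Φ (‖x‖ ^ 2)) x v = 2 * d * inner ℝ x v := by
  rw [(hasFDerivAt_radial h).fderiv]
  simp
  ring

theorem grad_radial {Φ : ℝ → ℝ} {d : ℝ} {x : E} (h : HasDerivAt Φ d (‖x‖ ^ 2)) :
    grad (fun x : E => Φ (‖x‖ ^ 2)) x = (2 * d) • x := by
  refine ext_inner_right ℝ fun v => ?_
  rw [inner_grad, fderiv_radial h, real_inner_smul_left]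

/-- Profile of the scalar test function. -/
noncomputable def fp (L s : ℝ) : ℝ := aa s * vt (s / L ^ 2) ^ 2

/-- Profile of the vector test function. -/
noncomputable def wp (L s : ℝ) : ℝ := 2 * bb s * vt (s / L ^ 2) ^ 2

/-- Scalar test function. -/
noncomputable def fL (L : ℝ) (x : E) : ℝ := fp L (‖x‖ ^ 2)

/-- Vector test function divided by `x`. -/
noncomputable def wL (L : ℝ) (x : E) : ℝ := wp L (‖x‖ ^ 2)

/-- Auxiliary profile. -/
noncomputable def kap (L s : ℝ) : ℝ :=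
  -3 * bb s * vt (s / L ^ 2) + 4 * aa s * deriv vt (s / L ^ 2) / L ^ 2

/-- The error term from completing the square. -/
noncomputable def KL (L : ℝ) (x : E) : ℝ :=
  ‖x‖ ^ 2 * kap L (‖x‖ ^ 2) ^ 2 / (4 * aa (‖x‖ ^ 2))

theorem hasDerivAt_vtL (L s : ℝ) :
    HasDerivAt (fun s => vt (s / L ^ 2)) (deriv vt (s / L ^ 2) / L ^ 2) s := by
  have h1 : HasDerivAt (fun s : ℝ => s / L ^ 2) (1 / L ^ 2) s := (hasDerivAt_id s).div_const _
  have h2 := (hasDerivAt_vt (s / L ^ 2)).comp s h1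
  refine h2.congr_deriv ?_
  ring

theorem hasDerivAt_fp (L s : ℝ) : HasDerivAt (fp L)
    (-(bb s) / 2 * vt (s / L ^ 2) ^ 2 +
      aa s * (2 * vt (s / L ^ 2) * (deriv vt (s / L ^ 2) / L ^ 2))) s := by
  have h1 := (hasDerivAt_aa s).mul ((hasDerivAt_vtL L s).pow 2)
  refine h1.congr_deriv ?_
  simp

theorem hasDerivAt_wp (L s : ℝ) : HasDerivAt (wp L)
    (2 * bbd s * vt (s / L ^ 2) ^ 2 +
      2 * bb s * (2 * vt (s / L ^ 2) * (deriv vt (s / L ^ 2) / L ^ 2))) s := by
  have h1 := ((hasDerivAt_bb s).const_mul 2).mul ((hasDerivAt_vtL L s).pow 2)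
  refine h1.congr_deriv ?_
  simp

theorem contDiff_fL (L : ℝ) : ContDiff ℝ 1 (fL L) := by
  have h1 : ContDiff ℝ 1 (fp L) :=
    contDiff_aa.mul ((vt_contDiff.comp (contDiff_id.div_const _)).pow 2)
  exact h1.comp (contDiff_norm_sq ℝ)

theorem contDiff_wL (L : ℝ) : ContDiff ℝ 1 (wL L) := by
  have h1 : ContDiff ℝ 1 (wp L) :=
    (contDiff_const.mul contDiff_bb).mul ((vt_contDiff.comp (contDiff_id.div_const _)).pow 2)
  exact h1.comp (contDiff_norm_sq ℝ)

theorem four_le {L r : ℝ} (hL : 1 ≤ L) (hr : 2 * L ≤ r) : 4 ≤ r ^ 2 / L ^ 2 := by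
  have : 0 < L := by linarith
  rw [le_div_iff₀ (by positivity)]
  nlinarith

theorem le_one_of {L r : ℝ} (hL : 1 ≤ L) (hr0 : 0 ≤ r) (hr : r ≤ L) : r ^ 2 / L ^ 2 ≤ 1 := by
  have : 0 < L := by linarith
  rw [div_le_one (by positivity)]
  nlinarith

theorem fL_zero {L : ℝ} (hL : 1 ≤ L) {x : E} (hx : 2 * L ≤ ‖x‖) : fL L x = 0 := by
  unfold fL fp
  rw [vt_zero (four_le hL hx)]
  simp

theorem wL_zero {L : ℝ} (hL : 1 ≤ L) {x : E} (hx : 2 * L ≤ ‖x‖) : wL L x = 0 := by
  unfold wL wp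
  rw [vt_zero (four_le hL hx)]
  simp

theorem KL_zero {L : ℝ} (hL : 1 ≤ L) {x : E} (hx : 2 * L ≤ ‖x‖) : KL L x = 0 := by
  unfold KL kap
  rw [vt_zero (four_le hL hx), deriv_vt_right (four_le hL hx)]
  simp

theorem compact_fL {L : ℝ} (hL : 1 ≤ L) : HasCompactSupport (fL L) := by
  refine HasCompactSupport.intro (isCompact_closedBall (0 : E) (2 * L)) fun x hx => ?_
  simp only [Metric.mem_closedBall, dist_zero_right, not_le] at hx
  exact fL_zero hL hx.le

theorem compact_wL {L : ℝ} (hL : 1 ≤ L) : HasCompactSupport (wL L) := by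
  refine HasCompactSupport.intro (isCompact_closedBall (0 : E) (2 * L)) fun x hx => ?_
  simp only [Metric.mem_closedBall, dist_zero_right, not_le] at hx
  exact wL_zero hL hx.le

theorem fL_nonneg (L : ℝ) (x : E) : 0 ≤ fL L x :=
  mul_nonneg aa_pos.le (sq_nonneg _)

theorem continuous_KL (L : ℝ) : Continuous (KL L) := by
  have hn : Continuous (fun x : E => ‖x‖ ^ 2) := continuous_norm.pow 2
  have h1 : Continuous (fun s => kap L s) := by
    unfold kap
    have hv : Continuous (fun s : ℝ => vt (s / L ^ 2)) :=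
      vt_contDiff.continuous.comp (continuous_id.div_const _)
    have hv' : Continuous (fun s : ℝ => deriv vt (s / L ^ 2)) :=
      (vt_contDiff.continuous_deriv (by norm_num)).comp (continuous_id.div_const _)
    exact ((continuous_const.mul continuous_bb).mul hv).add
      (((continuous_const.mul contDiff_aa.continuous).mul hv').div_const _)
  unfold KL
  refine Continuous.div (hn.mul ((h1.comp hn).pow 2)) (continuous_const.mul
    (contDiff_aa.continuous.comp hn)) fun x => ?_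
  have := aa_pos (s := ‖x‖ ^ 2)
  positivity

theorem compact_KL {L : ℝ} (hL : 1 ≤ L) : HasCompactSupport (KL L) := by
  refine HasCompactSupport.intro (isCompact_closedBall (0 : E) (2 * L)) fun x hx => ?_
  simp only [Metric.mem_closedBall, dist_zero_right, not_le] at hx
  exact KL_zero hL hx.le

theorem KL_nonneg (L : ℝ) (x : E) : 0 ≤ KL L x := by
  unfold KL
  have := aa_pos (s := ‖x‖ ^ 2)
  positivity

/-- Completing the square. -/
theorem hpt (L : ℝ) (x h : E) :
    inner ℝ h (grad (fL L) x) - fL L x * ‖h‖ ^ 2 ≤ inner ℝ h (wL L x • x) + KL L x := by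
  have hg : grad (fL L) x = (2 * (-(bb (‖x‖ ^ 2)) / 2 * vt (‖x‖ ^ 2 / L ^ 2) ^ 2 +
      aa (‖x‖ ^ 2) * (2 * vt (‖x‖ ^ 2 / L ^ 2) * (deriv vt (‖x‖ ^ 2 / L ^ 2) / L ^ 2)))) • x :=
    grad_radial (hasDerivAt_fp L (‖x‖ ^ 2))
  rw [hg, real_inner_smul_right, real_inner_smul_right]
  have hf : fL L x = aa (‖x‖ ^ 2) * vt (‖x‖ ^ 2 / L ^ 2) ^ 2 := rfl
  have hw : wL L x = 2 * bb (‖x‖ ^ 2) * vt (‖x‖ ^ 2 / L ^ 2) ^ 2 := rfl
  have hK : KL L x = ‖x‖ ^ 2 * kap L (‖x‖ ^ 2) ^ 2 / (4 * aa (‖x‖ ^ 2)) := rfl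
  have hk : kap L (‖x‖ ^ 2) = -3 * bb (‖x‖ ^ 2) * vt (‖x‖ ^ 2 / L ^ 2) +
    4 * aa (‖x‖ ^ 2) * deriv vt (‖x‖ ^ 2 / L ^ 2) / L ^ 2 := rfl
  rw [hf, hw, hK]
  have ha := aa_pos (s := ‖x‖ ^ 2)
  set a := aa (‖x‖ ^ 2)
  set b := bb (‖x‖ ^ 2)
  set t := vt (‖x‖ ^ 2 / L ^ 2)
  set t' := deriv vt (‖x‖ ^ 2 / L ^ 2)
  set κ := kap L (‖x‖ ^ 2)
  have e1 : 2 * (-b / 2 * t ^ 2 + a * (2 * t * (t' / L ^ 2))) - 2 * b * t ^ 2 = t * κ := by
    rw [hk]; ring
  have h1 : (2 * (-b / 2 * t ^ 2 + a * (2 * t * (t' / L ^ 2)))) * inner ℝ h x -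
      2 * b * t ^ 2 * inner ℝ h x = t * κ * inner ℝ h x := by
    rw [← e1]; ring
  have h2 : |inner ℝ h x| ≤ ‖h‖ * ‖x‖ := abs_real_inner_le_norm h x
  have h3 : t * κ * inner ℝ h x ≤ a * t ^ 2 * ‖h‖ ^ 2 + ‖x‖ ^ 2 * κ ^ 2 / (4 * a) := by
    have h4 : t * κ * inner ℝ h x ≤ |t * κ| * (‖h‖ * ‖x‖) := by
      calc t * κ * inner ℝ h x ≤ |t * κ * inner ℝ h x| := le_abs_self _
        _ = |t * κ| * |inner ℝ h x| := abs_mul _ _
        _ ≤ _ := mul_le_mul_of_nonneg_left h2 (abs_nonneg _)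
    refine h4.trans ?_
    have h5 : |t * κ| = |t| * |κ| := abs_mul _ _
    rw [h5]
    have h6 : ‖x‖ ^ 2 * κ ^ 2 / (4 * a) = (‖x‖ * |κ|) ^ 2 / (4 * a) := by
      rw [mul_pow, sq_abs]
    have h7 : a * t ^ 2 * ‖h‖ ^ 2 = a * (|t| * ‖h‖) ^ 2 := by
      rw [mul_pow, sq_abs]; ring
    rw [h6, h7]
    set p := |t| * ‖h‖
    set r := ‖x‖ * |κ|
    have h8 : |t| * |κ| * (‖h‖ * ‖x‖) = p * r := by
      simp only [p, r]; ring
    rw [h8]
    have h9 : 0 ≤ (2 * a * p - r) ^ 2 / (4 * a) := by positivity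
    have h10 : (2 * a * p - r) ^ 2 / (4 * a) = a * p ^ 2 - p * r + r ^ 2 / (4 * a) := by
      field_simp
      ring
    linarith
  linarith

end Pool.Agent.Helper99.TFW
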