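import Mathlib
import Pool.Agent.helper99.TFW.TestFn

/-!
# Radial integrals of the test functions
-/

set_option autoImplicit false
set_option linter.unusedSectionVars false

open MeasureTheory Filter Topology
open scoped ENNReal NNReal

namespace Pool.Agent.Helper99.TFW

/-- Volume of the unit ball. -/
noncomputable def V1 : ℝ := volume.real (Metric.ball (0 : E) 1)

/-- Area of the unit sphere. -/
noncomputable def om : ℝ := 3 * V1

theorem V1_pos : 0 < V1 := by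
  unfold V1
  rw [measureReal_def]
  exact ENNReal.toReal_pos (Metric.measure_ball_pos _ _ one_pos).ne' measure_ball_lt_top.ne

theorem om_pos : 0 < om := by
  have := V1_pos
  unfold om
  positivity

theorem radial_integral (f : ℝ → ℝ) :
    ∫ x : E, f ‖x‖ = om * ∫ y in Set.Ioi (0 : ℝ), y ^ 2 * f y := by
  have h := integral_fun_norm_addHaar (volume : Measure E) f
  rw [finrank_E] at h
  rw [h]
  simp only [smul_eq_mul, nsmul_eq_mul]
  unfold om V1
  push_cast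
  ring_nf

/-- The indicator of the unit ball. -/
noncomputable def I1 (x : E) : ℝ := if ‖x‖ < 1 then 1 else 0

theorem meas_ltnorm (a : ℝ) : MeasurableSet {x : E | ‖x‖ < a} :=
  measurableSet_lt continuous_norm.measurable measurable_const

theorem meas_lenorm (a : ℝ) : MeasurableSet {x : E | a ≤ ‖x‖} :=
  measurableSet_le measurable_const continuous_norm.measurable

theorem I1_meas : Measurable I1 := Measurable.ite (meas_ltnorm 1) measurable_const measurable_const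

theorem I1_integrable : Integrable I1 := by
  refine integrable_of_bdd (C := 1) (S := 1) I1_meas.aestronglyMeasurable (fun x => ?_)
    (fun x hx => ?_)
  · unfold I1; split_ifs <;> simp
  · unfold I1; rw [if_neg (not_lt.2 hx)]

theorem I1_integral : ∫ x, I1 x = V1 := by
  have h : I1 = (Metric.ball (0 : E) 1).indicator (fun _ => (1 : ℝ)) := by
    ext x
    unfold I1
    by_cases hx : ‖x‖ < 1
    · rw [if_pos hx, Set.indicator_of_mem (by simpa using hx)]
    · rw [if_neg hx, Set.indicator_of_notMem (by simpa using hx)]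
  rw [h, integral_indicator measurableSet_ball]
  simp [V1]

/-- The shell function. -/
noncomputable def T (a b : ℝ) (x : E) : ℝ := if a ≤ ‖x‖ ∧ ‖x‖ < b then (‖x‖ ^ 3)⁻¹ else 0

theorem T_nonneg (a b : ℝ) (x : E) : 0 ≤ T a b x := by
  unfold T
  split_ifs
  · positivity
  · exact le_rfl

theorem T_meas (a b : ℝ) : Measurable (T a b) :=
  Measurable.ite ((meas_lenorm a).inter (meas_ltnorm b))
    ((continuous_norm.measurable.pow_const 3).inv) measurable_const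

theorem T_integrable {a : ℝ} (ha : 0 < a) (b : ℝ) : Integrable (T a b) := by
  refine integrable_of_bdd (C := (a ^ 3)⁻¹) (S := b) (T_meas a b).aestronglyMeasurable
    (fun x => ?_) (fun x hx => ?_)
  · rw [abs_of_nonneg (T_nonneg a b x)]
    unfold T
    split_ifs with h
    · exact inv_anti₀ (by positivity) (pow_le_pow_left₀ ha.le h.1 3)
    · positivity
  · unfold T
    rw [if_neg (fun h => absurd h.2 (not_lt.2 hx))]

theorem T_integral {a b : ℝ} (ha : 0 < a) (hab : a ≤ b) :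
    ∫ x, T a b x = om * (Real.log b - Real.log a) := by
  have h := radial_integral (fun r => if a ≤ r ∧ r < b then (r ^ 3)⁻¹ else 0)
  have h2 : ∫ x, T a b x = ∫ x : E, (fun r => if a ≤ r ∧ r < b then (r ^ 3)⁻¹ else 0) ‖x‖ := rfl
  rw [h2, h]
  congr 1
  have hb : 0 < b := ha.trans_le hab
  have e1 : ∫ y in Set.Ioi (0 : ℝ), y ^ 2 * (if a ≤ y ∧ y < b then (y ^ 3)⁻¹ else 0) =
      ∫ y in Set.Ioi (0 : ℝ), (Set.Ico a b).indicator (fun y => y⁻¹) y := by
    refine setIntegral_congr_fun measurableSet_Ioi fun y hy => ?_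
    have hy0 : (0 : ℝ) < y := hy
    by_cases hyab : a ≤ y ∧ y < b
    · simp only [hyab, and_self, if_true]
      rw [Set.indicator_of_mem (show y ∈ Set.Ico a b from hyab)]
      field_simp
    · simp only [hyab, if_false]
      rw [Set.indicator_of_notMem (show y ∉ Set.Ico a b from hyab), mul_zero]
  rw [e1, setIntegral_indicator measurableSet_Ico]
  have e2 : Set.Ioi (0 : ℝ) ∩ Set.Ico a b = Set.Ico a b := by
    apply Set.inter_eq_right.2
    intro y hy
    exact ha.trans_le hy.1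
  rw [e2, integral_Ico_eq_integral_Ioc, ← intervalIntegral.integral_of_le hab,
    integral_inv_of_pos ha hb, Real.log_div hb.ne' ha.ne']

/-- The inner source. -/
noncomputable def Jin (x : E) : ℝ := if ‖x‖ < 1 then 15 * (1 - ‖x‖ ^ 2) else 0

theorem Jin_meas : Measurable Jin :=
  Measurable.ite (meas_ltnorm 1) (measurable_const.mul
    (measurable_const.sub (continuous_norm.measurable.pow_const 2))) measurable_const

theorem Jin_abs (x : E) : |Jin x| ≤ 15 := by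
  unfold Jin
  split_ifs with h
  · have h0 := norm_nonneg x
    rw [abs_le]
    constructor <;> nlinarith
  · simp

theorem Jin_zero {x : E} (h : 1 ≤ ‖x‖) : Jin x = 0 := by
  unfold Jin; rw [if_neg (not_lt.2 h)]

theorem Jin_integrable : Integrable Jin :=
  integrable_of_bdd (C := 15) (S := 1) Jin_meas.aestronglyMeasurable Jin_abs
    (fun _ hx => Jin_zero hx)

theorem Jin_integral : ∫ x, Jin x = 2 * om := by
  have h := radial_integral (fun r => if r < 1 then 15 * (1 - r ^ 2) else 0)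
  have h2 : ∫ x, Jin x = ∫ x : E, (fun r : ℝ => if r < 1 then 15 * (1 - r ^ 2) else 0) ‖x‖ := rfl
  rw [h2, h, mul_comm 2 om]
  congr 1
  have e1 : ∫ y in Set.Ioi (0 : ℝ), y ^ 2 * (if y < 1 then 15 * (1 - y ^ 2) else 0) =
      ∫ y in Set.Ioi (0 : ℝ), (Set.Ioo (0 : ℝ) 1).indicator (fun y => 15 * y ^ 2 - 15 * y ^ 4) y := by
    refine setIntegral_congr_fun measurableSet_Ioi fun y hy => ?_
    have hy0 : (0 : ℝ) < y := hy
    by_cases hy1 : y < 1
    · simp only [hy1, if_true]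
      rw [Set.indicator_of_mem (show y ∈ Set.Ioo (0 : ℝ) 1 from ⟨hy0, hy1⟩)]
      ring
    · simp only [hy1, if_false]
      rw [Set.indicator_of_notMem (show y ∉ Set.Ioo (0 : ℝ) 1 from fun h => hy1 h.2), mul_zero]
  rw [e1, setIntegral_indicator measurableSet_Ioo]
  have e2 : Set.Ioi (0 : ℝ) ∩ Set.Ioo 0 1 = Set.Ioo 0 1 := by
    apply Set.inter_eq_right.2
    intro y hy
    exact hy.1
  rw [e2, ← integral_Ioc_eq_integral_Ioo, ← intervalIntegral.integral_of_le zero_le_one]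
  have c1 : Continuous (fun y : ℝ => 15 * y ^ 2) := by fun_prop
  have c2 : Continuous (fun y : ℝ => 15 * y ^ 4) := by fun_prop
  rw [intervalIntegral.integral_sub (c1.intervalIntegrable _ _) (c2.intervalIntegrable _ _),
    intervalIntegral.integral_const_mul, intervalIntegral.integral_const_mul, integral_pow,
    integral_pow]
  norm_num

/-- The outer sink. -/
noncomputable def Jout (L : ℝ) (x : E) : ℝ :=
  if ‖x‖ < 1 then 0 else 8 * (‖x‖ ^ 2 * bb (‖x‖ ^ 2)) *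
    (vt (‖x‖ ^ 2 / L ^ 2) * deriv vt (‖x‖ ^ 2 / L ^ 2)) / L ^ 2

theorem J_eq {L : ℝ} (hL : 1 ≤ L) (x : E) :
    3 * wL L x + fderiv ℝ (wL L) x x = Jin x + Jout L x := by
  have h1 : fderiv ℝ (wL L) x x = 2 * (2 * bbd (‖x‖ ^ 2) * vt (‖x‖ ^ 2 / L ^ 2) ^ 2 +
      2 * bb (‖x‖ ^ 2) * (2 * vt (‖x‖ ^ 2 / L ^ 2) * (deriv vt (‖x‖ ^ 2 / L ^ 2) / L ^ 2))) *
      inner ℝ x x := fderiv_radial (hasDerivAt_wp L (‖x‖ ^ 2)) x
  rw [h1, real_inner_self_eq_norm_sq]
  have hw : wL L x = 2 * bb (‖x‖ ^ 2) * vt (‖x‖ ^ 2 / L ^ 2) ^ 2 := rfl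
  rw [hw]
  have h0 := norm_nonneg x
  by_cases hx : ‖x‖ < 1
  · have hs : ‖x‖ ^ 2 ≤ 1 := by nlinarith
    have hL2 : ‖x‖ ^ 2 / L ^ 2 ≤ 1 := le_one_of hL h0 (by linarith)
    rw [vt_one hL2, deriv_vt_left hL2]
    unfold Jin Jout bb bbd
    simp only [hx, hs, if_true]
    ring
  · have hx1 : 1 ≤ ‖x‖ := not_lt.1 hx
    have hr : 0 < ‖x‖ := by linarith
    unfold Jin Jout
    simp only [hx, if_false]
    rw [bb_eq hx1, bbd_eq hx1]
    have hL0 : 0 < L := by linarith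
    field_simp
    ring

theorem Jout_nonpos (L : ℝ) (x : E) : Jout L x ≤ 0 := by
  unfold Jout
  split_ifs
  · exact le_rfl
  · have h1 := bb_pos (s := ‖x‖ ^ 2)
    have h2 := vt_nonneg (‖x‖ ^ 2 / L ^ 2)
    have h3 := deriv_vt_nonpos (‖x‖ ^ 2 / L ^ 2)
    apply div_nonpos_of_nonpos_of_nonneg _ (sq_nonneg _)
    apply mul_nonpos_of_nonneg_of_nonpos (by positivity)
    exact mul_nonpos_of_nonneg_of_nonpos h2 h3

theorem Jout_bound {L : ℝ} (hL : 1 ≤ L) {C : ℝ} (hC : ∀ s, |deriv vt s| ≤ C) (x : E) :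
    -(Jout L x) ≤ 8 * C / L ^ 3 := by
  have hC0 : 0 ≤ C := (abs_nonneg _).trans (hC 0)
  have hL0 : 0 < L := by linarith
  unfold Jout
  split_ifs with hx
  · rw [neg_zero]; positivity
  · have hx1 : 1 ≤ ‖x‖ := not_lt.1 hx
    have hr : 0 < ‖x‖ := by linarith
    rcases le_total ‖x‖ L with h | h
    · rw [deriv_vt_left (le_one_of hL hr.le h)]
      simp only [mul_zero, zero_div, neg_zero]
      positivity
    · rw [bb_eq hx1]
      have e1 : ‖x‖ ^ 2 * (‖x‖ ^ 3)⁻¹ = ‖x‖⁻¹ := by field_simp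
      rw [e1]
      have h1 : ‖x‖⁻¹ ≤ L⁻¹ := inv_anti₀ hL0 h
      have h2 : -(vt (‖x‖ ^ 2 / L ^ 2) * deriv vt (‖x‖ ^ 2 / L ^ 2)) ≤ C := by
        have a1 := vt_nonneg (‖x‖ ^ 2 / L ^ 2)
        have a2 := vt_le_one (‖x‖ ^ 2 / L ^ 2)
        have a3 := deriv_vt_nonpos (‖x‖ ^ 2 / L ^ 2)
        have a4 := hC (‖x‖ ^ 2 / L ^ 2)
        rw [abs_of_nonpos a3] at a4
        nlinarith
      have h3 : -(8 * ‖x‖⁻¹ * (vt (‖x‖ ^ 2 / L ^ 2) * deriv vt (‖x‖ ^ 2 / L ^ 2)) / L ^ 2) =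
          8 * (‖x‖⁻¹ * (-(vt (‖x‖ ^ 2 / L ^ 2) * deriv vt (‖x‖ ^ 2 / L ^ 2)))) / L ^ 2 := by ring
      rw [h3]
      have h4 : ‖x‖⁻¹ * (-(vt (‖x‖ ^ 2 / L ^ 2) * deriv vt (‖x‖ ^ 2 / L ^ 2))) ≤ L⁻¹ * C := by
        have a0 : 0 ≤ -(vt (‖x‖ ^ 2 / L ^ 2) * deriv vt (‖x‖ ^ 2 / L ^ 2)) := by
          have a1 := vt_nonneg (‖x‖ ^ 2 / L ^ 2)
          have a3 := deriv_vt_nonpos (‖x‖ ^ 2 / L ^ 2)
          nlinarith
        exact mul_le_mul h1 h2 a0 (by positivity)
      calc 8 * (‖x‖⁻¹ * (-(vt (‖x‖ ^ 2 / L ^ 2) * deriv vt (‖x‖ ^ 2 / L ^ 2)))) / L ^ 2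
          ≤ 8 * (L⁻¹ * C) / L ^ 2 := by gcongr
        _ = 8 * C / L ^ 3 := by field_simp

theorem Jout_zero {L : ℝ} (hL : 1 ≤ L) {x : E} (h : 2 * L ≤ ‖x‖) : Jout L x = 0 := by
  unfold Jout
  rw [deriv_vt_right (four_le hL h)]
  simp

theorem Jtot_integrable {L : ℝ} (hL : 1 ≤ L) :
    Integrable (fun x => 3 * wL L x + fderiv ℝ (wL L) x x) := by
  have hc : Continuous (fun x => 3 * wL L x + fderiv ℝ (wL L) x x) :=
    (continuous_const.mul (contDiff_wL L).continuous).add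
      (((contDiff_wL L).continuous_fderiv (by norm_num)).clm_apply continuous_id)
  have h0 : ∀ x : E, 2 * L ≤ ‖x‖ → 3 * wL L x + fderiv ℝ (wL L) x x = 0 := by
    intro x hx
    rw [J_eq hL, Jin_zero (by linarith), Jout_zero hL hx, add_zero]
  refine hc.integrable_of_hasCompactSupport ?_
  refine HasCompactSupport.intro (isCompact_closedBall (0 : E) (2 * L)) fun x hx => ?_
  simp only [Metric.mem_closedBall, dist_zero_right, not_le] at hx
  exact h0 x hx.le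

theorem Jout_integrable {L : ℝ} (hL : 1 ≤ L) : Integrable (Jout L) := by
  refine ((Jtot_integrable hL).sub Jin_integrable).congr (Eventually.of_forall fun x => ?_)
  simp only [Pi.sub_apply]
  rw [J_eq hL]
  ring

theorem Jout_integral {L : ℝ} (hL : 1 ≤ L) : ∫ x, Jout L x = -(2 * om) := by
  have h1 := div_integral_zero (contDiff_wL L) (compact_wL hL)
  simp_rw [J_eq hL] at h1
  rw [integral_add Jin_integrable (Jout_integrable hL), Jin_integral] at h1
  linarith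

theorem fL_le (L : ℝ) (x : E) : fL L x ≤ aa (‖x‖ ^ 2) := by
  have h1 := vt_nonneg (‖x‖ ^ 2 / L ^ 2)
  have h2 := vt_le_one (‖x‖ ^ 2 / L ^ 2)
  have h3 := aa_pos (s := ‖x‖ ^ 2)
  have h4 : vt (‖x‖ ^ 2 / L ^ 2) ^ 2 ≤ 1 := pow_le_one₀ h1 h2
  change aa (‖x‖ ^ 2) * vt (‖x‖ ^ 2 / L ^ 2) ^ 2 ≤ _
  exact mul_le_of_le_one_right h3.le h4

theorem fL_cube {L : ℝ} (hL : 1 ≤ L) (x : E) : fL L x ^ 3 ≤ 8 * I1 x + T 1 (2 * L) x := by
  have h0 := norm_nonneg x
  have hf0 := fL_nonneg L x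
  have hf1 := fL_le L x
  by_cases hx : ‖x‖ < 1
  · have h1 : aa (‖x‖ ^ 2) ≤ 15 / 8 := aa_le (sq_nonneg _)
    have h2 : fL L x ^ 3 ≤ (15 / 8) ^ 3 := pow_le_pow_left₀ hf0 (hf1.trans h1) 3
    have h3 : I1 x = 1 := by simp [I1, hx]
    have h4 := T_nonneg 1 (2 * L) x
    rw [h3]
    norm_num at h2 ⊢
    linarith
  · have hx1 : 1 ≤ ‖x‖ := not_lt.1 hx
    have h3 : I1 x = 0 := by simp [I1, hx]
    rw [h3]
    by_cases hx2 : ‖x‖ < 2 * L
    · have h4 : T 1 (2 * L) x = (‖x‖ ^ 3)⁻¹ := by simp [T, hx1, hx2]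
      rw [h4]
      rw [aa_eq hx1] at hf1
      have := pow_le_pow_left₀ hf0 hf1 3
      rw [inv_pow] at this
      linarith
    · rw [fL_zero hL (not_lt.1 hx2)]
      have h4 := T_nonneg 1 (2 * L) x
      simp only [ne_eq, OfNat.ofNat_ne_zero, not_false_eq_true, zero_pow]
      linarith

theorem fL_cube_integrable {L : ℝ} (hL : 1 ≤ L) : Integrable (fun x => fL L x ^ 3) := by
  refine ((contDiff_fL L).continuous.pow 3).integrable_of_hasCompactSupport ?_
  refine HasCompactSupport.intro (isCompact_closedBall (0 : E) (2 * L)) fun x hx => ?_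
  simp only [Metric.mem_closedBall, dist_zero_right, not_le] at hx
  simp [fL_zero hL hx.le]

theorem fL_cube_integral {L : ℝ} (hL : 1 ≤ L) :
    ∫ x, fL L x ^ 3 ≤ 8 * V1 + om * Real.log (2 * L) := by
  have h1 : ∫ x, (8 * I1 x + T 1 (2 * L) x) = 8 * V1 + om * Real.log (2 * L) := by
    rw [integral_add (I1_integrable.const_mul 8) (T_integrable one_pos _), integral_const_mul,
      I1_integral, T_integral one_pos (by linarith)]
    simp
  rw [← h1]
  exact integral_mono (fL_cube_integrable hL)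
    ((I1_integrable.const_mul 8).add (T_integrable one_pos _)) fun x => fL_cube hL x

theorem KL_le {L : ℝ} (hL : 1 ≤ L) {C : ℝ} (hC : ∀ s, |deriv vt s| ≤ C) (x : E) :
    KL L x ≤ 15 * I1 x + 9 / 4 * T 1 L x + (3 + 16 * C) ^ 2 / 4 * T L (2 * L) x := by
  have hC0 : 0 ≤ C := (abs_nonneg _).trans (hC 0)
  have hL0 : 0 < L := by linarith
  have h0 := norm_nonneg x
  have t1 := T_nonneg 1 L x
  have t2 := T_nonneg L (2 * L) x
  have p1 : 0 ≤ 9 / 4 * T 1 L x := by positivity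
  have p2 : 0 ≤ (3 + 16 * C) ^ 2 / 4 * T L (2 * L) x := by positivity
  by_cases hx : ‖x‖ < 1
  · have h3 : I1 x = 1 := by simp [I1, hx]
    rw [h3]
    have hs : ‖x‖ ^ 2 ≤ 1 := by nlinarith
    have hs0 : 0 ≤ ‖x‖ ^ 2 := sq_nonneg _
    have hL2 : ‖x‖ ^ 2 / L ^ 2 ≤ 1 := le_one_of hL h0 (by linarith)
    have hk : kap L (‖x‖ ^ 2) = -3 * bb (‖x‖ ^ 2) := by
      unfold kap
      rw [vt_one hL2, deriv_vt_left hL2]
      ring
    have hb : bb (‖x‖ ^ 2) ≤ 5 / 2 := by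
      unfold bb
      rw [if_pos hs]
      linarith
    have hb0 := bb_pos (s := ‖x‖ ^ 2)
    have ha := aa_one_le hs
    have h5 : KL L x ≤ 15 := by
      unfold KL
      rw [hk, div_le_iff₀ (by linarith)]
      have h6 : (-3 * bb (‖x‖ ^ 2)) ^ 2 ≤ 9 * (25 / 4) := by nlinarith
      have h7 : ‖x‖ ^ 2 * (-3 * bb (‖x‖ ^ 2)) ^ 2 ≤ 1 * (9 * (25 / 4)) :=
        mul_le_mul hs h6 (sq_nonneg _) zero_le_one
      linarith
    linarith
  · have hx1 : 1 ≤ ‖x‖ := not_lt.1 hx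
    have hr : 0 < ‖x‖ := by linarith
    have h3 : I1 x = 0 := by simp [I1, hx]
    rw [h3]
    by_cases hx2 : ‖x‖ < L
    · have h4 : T 1 L x = (‖x‖ ^ 3)⁻¹ := by simp [T, hx1, hx2]
      have hL2 : ‖x‖ ^ 2 / L ^ 2 ≤ 1 := le_one_of hL h0 (by linarith)
      have hk : kap L (‖x‖ ^ 2) = -3 * (‖x‖ ^ 3)⁻¹ := by
        unfold kap
        rw [vt_one hL2, deriv_vt_left hL2, bb_eq hx1]
        ring
      have h5 : KL L x = 9 / 4 * (‖x‖ ^ 3)⁻¹ := by
        unfold KL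
        rw [hk, aa_eq hx1]
        field_simp
        ring
      rw [h5, h4]
      linarith
    · push Not at hx2
      by_cases hx3 : ‖x‖ < 2 * L
      · have h4 : T L (2 * L) x = (‖x‖ ^ 3)⁻¹ := by simp [T, hx2, hx3]
        have h5 : |kap L (‖x‖ ^ 2)| ≤ (3 + 16 * C) * (‖x‖ ^ 3)⁻¹ := by
          unfold kap
          rw [bb_eq hx1, aa_eq hx1]
          have a1 : |vt (‖x‖ ^ 2 / L ^ 2)| ≤ 1 := by
            rw [abs_of_nonneg (vt_nonneg _)]; exact vt_le_one _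
          have a2 := hC (‖x‖ ^ 2 / L ^ 2)
          have a3 : |-3 * (‖x‖ ^ 3)⁻¹ * vt (‖x‖ ^ 2 / L ^ 2)| ≤ 3 * (‖x‖ ^ 3)⁻¹ := by
            rw [abs_mul, abs_mul]
            have : |(‖x‖ ^ 3)⁻¹| = (‖x‖ ^ 3)⁻¹ := abs_of_nonneg (by positivity)
            rw [this]
            have h3' : |(-3 : ℝ)| = 3 := by norm_num
            rw [h3']
            exact mul_le_of_le_one_right (by positivity) a1
          have a4 : |4 * ‖x‖⁻¹ * deriv vt (‖x‖ ^ 2 / L ^ 2) / L ^ 2| ≤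
              16 * C * (‖x‖ ^ 3)⁻¹ := by
            rw [abs_div, abs_mul, abs_mul]
            have b1 : |(4 : ℝ)| = 4 := by norm_num
            have b2 : |‖x‖⁻¹| = ‖x‖⁻¹ := abs_of_nonneg (by positivity)
            have b3 : |L ^ 2| = L ^ 2 := abs_of_nonneg (by positivity)
            rw [b1, b2, b3, div_le_iff₀ (by positivity)]
            have b4 : ‖x‖ ^ 2 ≤ 4 * L ^ 2 := by nlinarith
            have b5 : ‖x‖⁻¹ ≤ 4 * (‖x‖ ^ 3)⁻¹ * L ^ 2 := by
              have e1 : ‖x‖⁻¹ = (‖x‖ ^ 3)⁻¹ * ‖x‖ ^ 2 := by field_simp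
              rw [e1]
              have := mul_le_mul_of_nonneg_left b4 (show 0 ≤ (‖x‖ ^ 3)⁻¹ by positivity)
              linarith
            calc 4 * ‖x‖⁻¹ * |deriv vt (‖x‖ ^ 2 / L ^ 2)| ≤ 4 * ‖x‖⁻¹ * C := by gcongr
              _ ≤ 4 * (4 * (‖x‖ ^ 3)⁻¹ * L ^ 2) * C := by gcongr
              _ = 16 * C * (‖x‖ ^ 3)⁻¹ * L ^ 2 := by ring
          have a5 := abs_add_le (-3 * (‖x‖ ^ 3)⁻¹ * vt (‖x‖ ^ 2 / L ^ 2))
            (4 * ‖x‖⁻¹ * deriv vt (‖x‖ ^ 2 / L ^ 2) / L ^ 2)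
          linarith
        have h6 : kap L (‖x‖ ^ 2) ^ 2 ≤ ((3 + 16 * C) * (‖x‖ ^ 3)⁻¹) ^ 2 := by
          rw [← sq_abs (kap L (‖x‖ ^ 2))]
          exact pow_le_pow_left₀ (abs_nonneg _) h5 2
        have h7 : KL L x ≤ (3 + 16 * C) ^ 2 / 4 * (‖x‖ ^ 3)⁻¹ := by
          unfold KL
          rw [aa_eq hx1]
          calc ‖x‖ ^ 2 * kap L (‖x‖ ^ 2) ^ 2 / (4 * ‖x‖⁻¹) ≤
              ‖x‖ ^ 2 * ((3 + 16 * C) * (‖x‖ ^ 3)⁻¹) ^ 2 / (4 * ‖x‖⁻¹) := by gcongr
            _ = (3 + 16 * C) ^ 2 / 4 * (‖x‖ ^ 3)⁻¹ := by field_simp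
        rw [h4]
        linarith
      · rw [KL_zero hL (not_lt.1 hx3)]
        linarith

theorem KL_integral {L : ℝ} (hL : 1 ≤ L) {C : ℝ} (hC : ∀ s, |deriv vt s| ≤ C) :
    ∫ x, KL L x ≤ 15 * V1 + 9 / 4 * (om * Real.log L) + (3 + 16 * C) ^ 2 / 4 * (om * Real.log 2) := by
  have hL0 : 0 < L := by linarith
  have i1 : Integrable (fun x => 15 * I1 x + 9 / 4 * T 1 L x) :=
    (I1_integrable.const_mul 15).add ((T_integrable one_pos L).const_mul _)
  have i2 : Integrable (fun x => (3 + 16 * C) ^ 2 / 4 * T L (2 * L) x) :=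
    (T_integrable hL0 (2 * L)).const_mul _
  have h1 : ∫ x, (15 * I1 x + 9 / 4 * T 1 L x + (3 + 16 * C) ^ 2 / 4 * T L (2 * L) x) =
      15 * V1 + 9 / 4 * (om * Real.log L) + (3 + 16 * C) ^ 2 / 4 * (om * Real.log 2) := by
    rw [integral_add i1 i2, integral_add (I1_integrable.const_mul 15)
      ((T_integrable one_pos L).const_mul _), integral_const_mul, integral_const_mul,
      integral_const_mul, I1_integral, T_integral one_pos hL, T_integral hL0 (by linarith),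
      Real.log_mul two_ne_zero hL0.ne']
    simp
  rw [← h1]
  exact integral_mono ((continuous_KL L).integrable_of_hasCompactSupport (compact_KL hL))
    (i1.add i2) fun x => KL_le hL hC x

end Pool.Agent.Helper99.TFW
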