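import Mathlib
import Pool.Agent.helper99.TFW.Radial

/-!
# Comparison of Coulomb potentials of radial decreasing functions
-/

set_option autoImplicit false
set_option linter.unusedSectionVars false

open MeasureTheory Filter Topology
open scoped ENNReal NNReal

namespace Pool.Agent.Helper99.TFW

theorem ae_ne (a : E) : ∀ᵐ x : E, x ≠ a := by
  rw [ae_iff]
  simp

/-- The Coulomb potential of a radially decreasing function is largest at the origin. -/
theorem newton {f : E → ℝ} (hf : Dens f) {F : ℝ → ℝ} (hF : AntitoneOn F (Set.Ici 0))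
    (hfF : ∀ x, f x = F ‖x‖) (y : E) : ∫ x, f x / ‖x - y‖ ≤ ∫ x, f x / ‖x‖ := by
  have i1 : Integrable (fun x => f x / ‖x‖) := by
    have := hf.kernel_integrable 0
    simpa using this
  have i2 := hf.kernel_integrable y
  have i3 : Integrable (fun x => f (y - x) / ‖x‖) := by
    have := i2.comp_sub_left y
    refine this.congr (Eventually.of_forall fun x => ?_)
    simp only
    congr 1
    rw [show y - x - y = -x by abel, norm_neg]
  have i4 : Integrable (fun x => f (y - x) / ‖x - y‖) := by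
    have := i1.comp_sub_left y
    refine this.congr (Eventually.of_forall fun x => ?_)
    simp only
    rw [norm_sub_rev]
  have e3 : ∫ x, f (y - x) / ‖x‖ = ∫ x, f x / ‖x - y‖ := by
    rw [← integral_sub_left_eq_self (fun x => f x / ‖x - y‖) (volume : Measure E) y]
    apply integral_congr_ae
    refine Eventually.of_forall fun x => ?_
    simp only
    congr 1
    rw [show y - x - y = -x by abel, norm_neg]
  have e4 : ∫ x, f (y - x) / ‖x - y‖ = ∫ x, f x / ‖x‖ := by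
    rw [← integral_sub_left_eq_self (fun x => f x / ‖x‖) (volume : Measure E) y]
    apply integral_congr_ae
    refine Eventually.of_forall fun x => ?_
    simp only
    rw [norm_sub_rev]
  have key : 0 ≤ ∫ x, ((f x / ‖x‖ - f x / ‖x - y‖) - (f (y - x) / ‖x‖ - f (y - x) / ‖x - y‖)) := by
    apply integral_nonneg_of_ae
    filter_upwards [ae_ne 0, ae_ne y] with x hx0 hxy
    have h1 : 0 < ‖x‖ := norm_pos_iff.2 hx0
    have h2 : 0 < ‖x - y‖ := norm_pos_iff.2 (sub_ne_zero.2 hxy)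
    have e : (f x / ‖x‖ - f x / ‖x - y‖) - (f (y - x) / ‖x‖ - f (y - x) / ‖x - y‖) =
        (f x - f (y - x)) * (1 / ‖x‖ - 1 / ‖x - y‖) := by ring
    simp only [Pi.zero_apply]
    rw [e, hfF x, hfF (y - x), norm_sub_rev y x]
    rcases le_total ‖x‖ ‖x - y‖ with h | h
    · have a1 := hF (Set.mem_Ici.2 h1.le) (Set.mem_Ici.2 h2.le) h
      have a2 := one_div_le_one_div_of_le h1 h
      exact mul_nonneg (sub_nonneg.2 a1) (sub_nonneg.2 a2)
    · have a1 := hF (Set.mem_Ici.2 h2.le) (Set.mem_Ici.2 h1.le) h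
      have a2 := one_div_le_one_div_of_le h2 h
      exact mul_nonneg_of_nonpos_of_nonpos (sub_nonpos.2 a1) (sub_nonpos.2 a2)
  have j1 : Integrable (fun x => f x / ‖x‖ - f x / ‖x - y‖) := i1.sub i2
  have j2 : Integrable (fun x => f (y - x) / ‖x‖ - f (y - x) / ‖x - y‖) := i3.sub i4
  rw [integral_sub j1 j2, integral_sub i1 i2, integral_sub i3 i4, e3, e4] at key
  linarith

theorem inv_tangent {p r : ℝ} (hp : 0 < p) (hr : 0 < r) :
    1 / r - (p ^ 2 - r ^ 2) / (2 * r ^ 3) ≤ 1 / p := by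
  have h : 1 / p - (1 / r - (p ^ 2 - r ^ 2) / (2 * r ^ 3)) =
      (p - r) ^ 2 * (p + 2 * r) / (2 * r ^ 3 * p) := by
    field_simp
    ring
  have h2 : 0 ≤ (p - r) ^ 2 * (p + 2 * r) / (2 * r ^ 3 * p) := by positivity
  linarith

/-- The dominating function. -/
noncomputable def GR (a : E) (x : E) : ℝ :=
  15 / 8 * (I1 x / ‖x‖) + ‖a‖ ^ 2 / 2 * (if 1 ≤ ‖x‖ then (‖x‖ ^ 4)⁻¹ else 0)

theorem I1_dens : Dens I1 := by
  refine dens_of_bdd (C := 1) (S := 1) I1_meas.aestronglyMeasurable (fun x => ?_) (fun x => ?_)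
    (fun x hx => ?_)
  · unfold I1; split_ifs <;> norm_num
  · unfold I1; split_ifs <;> norm_num
  · unfold I1; rw [if_neg (not_lt.2 hx)]

theorem tail_integrable : Integrable (fun x : E => if 1 ≤ ‖x‖ then (‖x‖ ^ 4)⁻¹ else 0) := by
  have h := integrable_fun_norm_addHaar (volume : Measure E)
    (f := fun r : ℝ => if 1 ≤ r then (r ^ 4)⁻¹ else 0)
  rw [finrank_E] at h
  refine h.2 ?_
  have h1 : IntegrableOn (fun y : ℝ => y ^ (-2 : ℝ)) (Set.Ioi 1) :=
    integrableOn_Ioi_rpow_of_lt (by norm_num) one_pos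
  have h2 : Integrable ((Set.Ioi (1 : ℝ)).indicator (fun y : ℝ => y ^ (-2 : ℝ))) :=
    (integrable_indicator_iff measurableSet_Ioi).2 h1
  refine (h2.integrableOn (s := Set.Ioi 0)).congr ?_
  have hne : ∀ᵐ y : ℝ ∂(volume.restrict (Set.Ioi (0 : ℝ))), y ≠ 1 := by
    refine ae_restrict_of_ae ?_
    rw [ae_iff]
    simp
  filter_upwards [hne, ae_restrict_mem measurableSet_Ioi] with y hy1 hy0
  have hy0' : (0 : ℝ) < y := hy0
  by_cases h : 1 ≤ y
  · have h' : 1 < y := lt_of_le_of_ne h (Ne.symm hy1)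
    rw [Set.indicator_of_mem (Set.mem_Ioi.2 h')]
    simp only [h, if_true, smul_eq_mul]
    rw [Real.rpow_neg hy0'.le]
    norm_num
    field_simp
  · rw [Set.indicator_of_notMem (show y ∉ Set.Ioi (1 : ℝ) from fun h' => h (le_of_lt h'))]
    simp [h]

theorem GR_integrable (a : E) : Integrable (GR a) := by
  have i1 : Integrable (fun x => I1 x / ‖x‖) := by
    have := I1_dens.kernel_integrable 0
    simpa using this
  exact (i1.const_mul _).add (tail_integrable.const_mul _)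

theorem newton_lower {f : E → ℝ} (hf : Dens f) (heven : ∀ x, f (-x) = f x)
    (hle : ∀ x, f x ≤ aa (‖x‖ ^ 2)) (a : E) :
    (∫ x, f x / ‖x‖) - ∫ x, GR a x ≤ ∫ x, f x / ‖x - a‖ := by
  have i1 : Integrable (fun x => f x / ‖x‖) := by
    have := hf.kernel_integrable 0
    simpa using this
  have i2 := hf.kernel_integrable a
  have i3 := hf.kernel_integrable (-a)
  have e3 : ∫ x, f x / ‖x - -a‖ = ∫ x, f x / ‖x - a‖ := by
    rw [← integral_neg_eq_self (fun x => f x / ‖x - a‖) (volume : Measure E)]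
    apply integral_congr_ae
    refine Eventually.of_forall fun x => ?_
    simp only
    rw [heven x, show -x - a = -(x - -a) by abel, norm_neg]
  have hpt : ∀ᵐ x, f x / ‖x‖ - (1 / 2) * (f x / ‖x - a‖ + f x / ‖x - -a‖) ≤ GR a x := by
    filter_upwards [ae_ne 0, ae_ne a, ae_ne (-a)] with x h0 h1 h2
    have p0 : 0 < ‖x‖ := norm_pos_iff.2 h0
    have p1 : 0 < ‖x - a‖ := norm_pos_iff.2 (sub_ne_zero.2 h1)
    have p2 : 0 < ‖x - -a‖ := norm_pos_iff.2 (sub_ne_zero.2 h2)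
    have hf0 := hf.nn x
    unfold GR
    by_cases hx : ‖x‖ < 1
    · have hI : I1 x = 1 := by simp [I1, hx]
      rw [hI, if_neg (not_le.2 hx)]
      have h3 : f x ≤ 15 / 8 := (hle x).trans (aa_le (sq_nonneg _))
      have h4 : f x / ‖x‖ ≤ 15 / 8 * (1 / ‖x‖) := by
        rw [mul_one_div]
        exact div_le_div_of_nonneg_right h3 p0.le
      have h5 : 0 ≤ f x / ‖x - a‖ := by positivity
      have h6 : 0 ≤ f x / ‖x - -a‖ := by positivity
      linarith
    · have hx1 : 1 ≤ ‖x‖ := not_lt.1 hx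
      have hI : I1 x = 0 := by simp [I1, hx]
      rw [hI, if_pos hx1]
      have t1 := inv_tangent p1 p0
      have t2 := inv_tangent p2 p0
      have par : ‖x - a‖ ^ 2 + ‖x - -a‖ ^ 2 = 2 * (‖x‖ ^ 2 + ‖a‖ ^ 2) := by
        rw [sub_neg_eq_add, norm_sub_sq_real, norm_add_sq_real]
        ring
      have h3 : 1 / ‖x‖ - (1 / 2) * (1 / ‖x - a‖ + 1 / ‖x - -a‖) ≤ ‖a‖ ^ 2 / (2 * ‖x‖ ^ 3) := by
        have e : (‖x - a‖ ^ 2 - ‖x‖ ^ 2) / (2 * ‖x‖ ^ 3) + (‖x - -a‖ ^ 2 - ‖x‖ ^ 2) /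
            (2 * ‖x‖ ^ 3) = 2 * (‖a‖ ^ 2 / (2 * ‖x‖ ^ 3)) := by
          rw [← add_div]
          have : ‖x - a‖ ^ 2 - ‖x‖ ^ 2 + (‖x - -a‖ ^ 2 - ‖x‖ ^ 2) = 2 * ‖a‖ ^ 2 := by linarith
          rw [this]; ring
        linarith
      have h4 : f x ≤ ‖x‖⁻¹ := by
        have := hle x
        rwa [aa_eq hx1] at this
      have h5 : f x / ‖x‖ - (1 / 2) * (f x / ‖x - a‖ + f x / ‖x - -a‖) =
          f x * (1 / ‖x‖ - (1 / 2) * (1 / ‖x - a‖ + 1 / ‖x - -a‖)) := by ring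
      rw [h5]
      have h6 : f x * (1 / ‖x‖ - (1 / 2) * (1 / ‖x - a‖ + 1 / ‖x - -a‖)) ≤
          f x * (‖a‖ ^ 2 / (2 * ‖x‖ ^ 3)) := mul_le_mul_of_nonneg_left h3 hf0
      have h7 : f x * (‖a‖ ^ 2 / (2 * ‖x‖ ^ 3)) ≤ ‖x‖⁻¹ * (‖a‖ ^ 2 / (2 * ‖x‖ ^ 3)) :=
        mul_le_mul_of_nonneg_right h4 (by positivity)
      have h8 : ‖x‖⁻¹ * (‖a‖ ^ 2 / (2 * ‖x‖ ^ 3)) = ‖a‖ ^ 2 / 2 * (‖x‖ ^ 4)⁻¹ := by
        field_simp
      rw [zero_div, mul_zero, zero_add]
      linarith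
  have j1 : Integrable (fun x => (1 / 2) * (f x / ‖x - a‖ + f x / ‖x - -a‖)) :=
    (i2.add i3).const_mul _
  have j2 : Integrable (fun x => f x / ‖x - a‖ + f x / ‖x - -a‖) := i2.add i3
  have h := integral_mono_ae (i1.sub j1) (GR_integrable a) hpt
  have e5 : ∫ x, (f x / ‖x‖ - (1 / 2) * (f x / ‖x - a‖ + f x / ‖x - -a‖)) =
      (∫ x, f x / ‖x‖) - ∫ x, f x / ‖x - a‖ := by
    rw [integral_sub i1 j1, integral_const_mul, integral_add i2 i3, e3]
    ring
  have e6 : ∫ x, ((fun x => f x / ‖x‖) - fun x => (1 / 2) * (f x / ‖x - a‖ + f x / ‖x - -a‖)) x =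
      (∫ x, f x / ‖x‖) - ∫ x, f x / ‖x - a‖ := e5
  rw [e6] at h
  linarith

/-- The test function as a density. -/
theorem fL_dens {L : ℝ} (hL : 1 ≤ L) : Dens (fL L) :=
  dens_of_bdd (C := 15 / 8) (S := 2 * L) (contDiff_fL L).continuous.aestronglyMeasurable
    (fL_nonneg L) (fun x => (fL_le L x).trans (aa_le (sq_nonneg _))) fun _ hx => fL_zero hL hx

theorem fL_radial (L : ℝ) (x : E) : fL L x = (fun r => fp L (r ^ 2)) ‖x‖ := rfl

theorem fp_antitone {L : ℝ} (hL : 1 ≤ L) : AntitoneOn (fun r => fp L (r ^ 2)) (Set.Ici 0) := by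
  have hL0 : 0 < L := by linarith
  intro r hr s hs hrs
  have hr0 : (0 : ℝ) ≤ r := hr
  have h1 : r ^ 2 ≤ s ^ 2 := pow_le_pow_left₀ hr0 hrs 2
  simp only [fp]
  have h2 := aa_antitone h1
  have h3 : vt (s ^ 2 / L ^ 2) ≤ vt (r ^ 2 / L ^ 2) :=
    vt_antitone (div_le_div_of_nonneg_right h1 (sq_nonneg _))
  have h4 : vt (s ^ 2 / L ^ 2) ^ 2 ≤ vt (r ^ 2 / L ^ 2) ^ 2 :=
    pow_le_pow_left₀ (vt_nonneg _) h3 2
  exact mul_le_mul h2 h4 (sq_nonneg _) aa_pos.le

end Pool.Agent.Helper99.TFW
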