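import Mathlib
import Pool.Agent.helper99.TFW.Newton

/-!
# A trial state of negative energy
-/

set_option autoImplicit false
set_option linter.unusedSectionVars false

open MeasureTheory Filter Topology
open scoped ENNReal NNReal

namespace Pool.Agent.Helper99.TFW

variable {k : ℕ} {z : Fin k → ℝ} {R : Fin k → E}

theorem vol_ball {r : ℝ} (hr : 0 ≤ r) : volume.real (Metric.ball (0 : E) r) = r ^ 3 * V1 := by
  rw [measureReal_def, Measure.addHaar_ball (volume : Measure E) (0 : E) hr, finrank_E,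
    ENNReal.toReal_mul, ENNReal.toReal_ofReal (by positivity)]
  rfl

theorem pow_bound {t c φ : ℝ} (hc0 : 0 ≤ c) (hc1 : c ≤ 1) (hφ0 : 0 ≤ φ) (hφ1 : φ ≤ 1)
    (ht : t = c * φ) : (t ^ 2) ^ (5 / 3 : ℝ) ≤ c ^ 3 * φ ^ 2 := by
  have ht0 : 0 ≤ t := by rw [ht]; positivity
  have ht1 : t ≤ 1 := by rw [ht]; exact mul_le_one₀ hc1 hφ0 hφ1
  have h1 : (t ^ 2) ^ (5 / 3 : ℝ) ≤ t ^ 3 := by
    rcases ht0.eq_or_lt with h | h
    · rw [← h]; norm_num
    · rw [← Real.rpow_natCast, ← Real.rpow_natCast, ← Real.rpow_mul h.le]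
      exact Real.rpow_le_rpow_of_exponent_ge h ht1 (by norm_num)
  refine h1.trans ?_
  rw [ht, mul_pow]
  refine mul_le_mul_of_nonneg_left ?_ (by positivity)
  exact pow_le_pow_of_le_one hφ0 hφ1 (by norm_num)

/-- Scaling a trial function down produces negative energy. -/
theorem neg_energy_of_trial {M : ℝ} (hM : 0 < M) {φ : E → ℝ} (hφ : ContDiff ℝ 1 φ)
    (hc : HasCompactSupport φ) (h0 : ∀ x, 0 ≤ φ x) (h1 : ∀ x, φ x ≤ 1)
    (hlt : ∫ x, ‖grad φ x‖ ^ 2 < ∫ x, VV z R x * φ x ^ 2) :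
    ∃ σ h, Adm σ h ∧ ∫ x, σ x ≤ M ∧ energy z R σ h < 0 := by
  obtain ⟨S, hS⟩ := exists_radius hc
  have hH := H1_of_compact hφ hc
  have dφ : Dens (fun x => φ x ^ 2) := by
    refine dens_of_bdd (C := 1) (S := S) (hφ.continuous.pow 2).aestronglyMeasurable
      (fun x => sq_nonneg _) (fun x => pow_le_one₀ (h0 x) (h1 x)) fun x hx => ?_
    rw [hS x hx]; simp
  set A0 := ∫ x, φ x ^ 2 with hA0
  set G := ∫ x, ‖grad φ x‖ ^ 2 with hG
  set W := ∫ x, VV z R x * φ x ^ 2 with hW
  set D := ∫ x, φ x ^ 2 * U (fun x => φ x ^ 2) x with hD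
  have A0nn : 0 ≤ A0 := integral_nonneg fun x => sq_nonneg _
  have Dnn : 0 ≤ D := integral_nonneg fun x => mul_nonneg (sq_nonneg _) (U_nonneg dφ.nn x)
  set c := min 1 (min (M / (A0 + 1)) ((W - G) / (A0 + D + 1))) with hcdef
  have hWG : 0 < W - G := by linarith
  have hc0 : 0 < c := lt_min one_pos (lt_min (by positivity) (by positivity))
  have hc1 : c ≤ 1 := min_le_left _ _
  have hc2 : c ≤ M / (A0 + 1) := (min_le_right _ _).trans (min_le_left _ _)
  have hc3 : c ≤ (W - G) / (A0 + D + 1) := (min_le_right _ _).trans (min_le_right _ _)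
  have hcsq : c ^ 2 ≤ c := by nlinarith
  have dσ : Dens (fun x => c ^ 2 * φ x ^ 2) := dφ.smul (sq_nonneg c)
  have hH' : H1 (fun x => c * φ x) (fun x => c • grad φ x) := by
    have hz0 : H1 (fun _ : E => (0 : ℝ)) (fun _ => (0 : E)) := by
      refine ⟨MemLp.zero, MemLp.zero, ?_⟩
      intro φ _ _ v
      simp
    have := hz0.add_smul hH c
    refine this.congr_ae (Eventually.of_forall fun x => ?_) (Eventually.of_forall fun x => ?_)
    · simp
    · simp
  have hadm : Adm (fun x => c ^ 2 * φ x ^ 2) (fun x => c • grad φ x) := by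
    refine ⟨dσ.nn, dσ.int, dσ.int53, hH'.memg, ?_⟩
    have : (fun x => Real.sqrt (c ^ 2 * φ x ^ 2)) = fun x => c * φ x := by
      ext x
      rw [← mul_pow, Real.sqrt_sq (mul_nonneg hc0.le (h0 x))]
    rw [this]
    exact hH'.wg
  refine ⟨_, _, hadm, ?_, ?_⟩
  · rw [integral_const_mul]
    have h2 : c * (A0 + 1) ≤ M := by
      rwa [le_div_iff₀ (by positivity)] at hc2
    nlinarith
  · rw [energy_eq]
    have e1 : ∫ x, ‖c • grad φ x‖ ^ 2 = c ^ 2 * G := by
      rw [hG, ← integral_const_mul]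
      apply integral_congr_ae
      refine Eventually.of_forall fun x => ?_
      simp only
      rw [norm_smul, mul_pow, Real.norm_eq_abs, sq_abs]
    have e2 : ∫ x, (c ^ 2 * φ x ^ 2) ^ (5 / 3 : ℝ) ≤ c ^ 3 * A0 := by
      rw [hA0, ← integral_const_mul]
      refine integral_mono dσ.int53 (dφ.int.const_mul _) fun x => ?_
      simp only
      rw [← mul_pow]
      exact pow_bound hc0.le hc1 (h0 x) (h1 x) rfl
    have e3 : ∫ x, VV z R x * (c ^ 2 * φ x ^ 2) = c ^ 2 * W := by
      rw [hW, ← integral_const_mul]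
      apply integral_congr_ae
      refine Eventually.of_forall fun x => ?_
      simp only
      ring
    have e4 : ∫ x, (c ^ 2 * φ x ^ 2) * U (fun x => c ^ 2 * φ x ^ 2) x = c ^ 4 * D := by
      rw [hD, ← integral_const_mul]
      apply integral_congr_ae
      refine Eventually.of_forall fun x => ?_
      simp only
      rw [U_smul]
      ring
    rw [e1, e3, e4]
    have h3 : c * (A0 + D + 1) ≤ W - G := by
      rwa [le_div_iff₀ (by positivity)] at hc3
    have h4 : c ^ 3 ≤ c ^ 2 * c := by ring_nf; exact le_rfl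
    have hc4 : c ^ 4 ≤ c ^ 2 * c := by
      have : c ^ 4 = c ^ 2 * (c * c) := by ring
      rw [this]
      refine mul_le_mul_of_nonneg_left ?_ (by positivity)
      exact mul_le_of_le_one_right hc0.le hc1
    have h5 : c ^ 4 * D ≤ c ^ 2 * c * D := mul_le_mul_of_nonneg_right hc4 Dnn
    have h6 : c ^ 3 * A0 = c ^ 2 * c * A0 := by ring
    have h7 : c ^ 2 * (c * (A0 + D + 1)) ≤ c ^ 2 * (W - G) :=
      mul_le_mul_of_nonneg_left h3 (by positivity)
    have h8 : 0 < c ^ 2 * c := by positivity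
    have h9 : 0 ≤ c ^ 2 * c * A0 := by positivity
    have h10 : 0 ≤ c ^ 2 * c * D := by positivity
    nlinarith

theorem exists_neg_energy (hk : 0 < k) (hz : ∀ i, 0 < z i) {M : ℝ} (hM : 0 < M) :
    ∃ σ h, Adm σ h ∧ ∫ x, σ x ≤ M ∧ energy z R σ h < 0 := by
  obtain ⟨C, hC0, hC⟩ := exists_deriv_vt_bound
  set i0 : Fin k := ⟨0, hk⟩ with hi0
  have hz0 := hz i0
  have hV := V1_pos
  set l : ℝ := 128 * C ^ 2 / z i0 + 1 with hl
  have hl0 : 0 < l := by positivity
  set φ0 : E → ℝ := fun x => vt (‖x‖ ^ 2 / l ^ 2) with hφ0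
  have hφ0c : ContDiff ℝ 1 φ0 := by
    have h1 : ContDiff ℝ 1 (fun s : ℝ => vt (s / l ^ 2)) :=
      vt_contDiff.comp (contDiff_id.div_const _)
    exact h1.comp (contDiff_norm_sq ℝ)
  have hφ0z : ∀ x : E, 2 * l ≤ ‖x‖ → φ0 x = 0 := by
    intro x hx
    apply vt_zero
    rw [le_div_iff₀ (by positivity)]
    nlinarith
  set φ : E → ℝ := fun x => φ0 (x - R i0) with hφ
  have hφc : ContDiff ℝ 1 φ := hφ0c.comp (contDiff_id.sub contDiff_const)
  have hφcs : HasCompactSupport φ := by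
    refine HasCompactSupport.intro (isCompact_closedBall (R i0) (2 * l)) fun x hx => ?_
    simp only [Metric.mem_closedBall, dist_eq_norm, not_le] at hx
    exact hφ0z _ hx.le
  have h0 : ∀ x, 0 ≤ φ x := fun x => vt_nonneg _
  have h1 : ∀ x, φ x ≤ 1 := fun x => vt_le_one _
  refine neg_energy_of_trial hM hφc hφcs h0 h1 ?_
  have hgrad0 : ∀ x : E, grad φ0 x = (2 * (deriv vt (‖x‖ ^ 2 / l ^ 2) / l ^ 2)) • x := fun x =>
    grad_radial (Φ := fun s => vt (s / l ^ 2)) (hasDerivAt_vtL l (‖x‖ ^ 2))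
  have hgrad : ∀ x, grad φ x = grad φ0 (x - R i0) := by
    intro x
    have : fderiv ℝ φ x = fderiv ℝ φ0 (x - R i0) := fderiv_comp_sub (R i0)
    unfold grad
    rw [this]
  -- kinetic bound
  have kin : ∫ x, ‖grad φ x‖ ^ 2 ≤ 128 * C ^ 2 * V1 * l := by
    have e1 : ∫ x, ‖grad φ x‖ ^ 2 = ∫ x, ‖grad φ0 x‖ ^ 2 := by
      simp_rw [hgrad]
      exact integral_sub_right_eq_self (fun x => ‖grad φ0 x‖ ^ 2) (R i0)
    rw [e1]
    have hb : ∀ x : E, ‖grad φ0 x‖ ^ 2 ≤
        (Metric.ball (0 : E) (2 * l)).indicator (fun _ => 16 * C ^ 2 / l ^ 2) x := by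
      intro x
      rw [hgrad0 x]
      by_cases hx : ‖x‖ < 2 * l
      · rw [Set.indicator_of_mem (by simpa using hx), norm_smul, mul_pow, Real.norm_eq_abs, sq_abs]
        have a1 := hC (‖x‖ ^ 2 / l ^ 2)
        have a2 : (deriv vt (‖x‖ ^ 2 / l ^ 2)) ^ 2 ≤ C ^ 2 := by
          rw [← sq_abs]; exact pow_le_pow_left₀ (abs_nonneg _) a1 2
        have a3 : ‖x‖ ^ 2 ≤ (2 * l) ^ 2 := pow_le_pow_left₀ (norm_nonneg _) hx.le 2
        have a4 : (2 * (deriv vt (‖x‖ ^ 2 / l ^ 2) / l ^ 2)) ^ 2 * ‖x‖ ^ 2 =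
            4 * ((deriv vt (‖x‖ ^ 2 / l ^ 2)) ^ 2 * ‖x‖ ^ 2) / l ^ 4 := by
          field_simp
          ring
        rw [a4]
        have a5 : (deriv vt (‖x‖ ^ 2 / l ^ 2)) ^ 2 * ‖x‖ ^ 2 ≤ C ^ 2 * (2 * l) ^ 2 :=
          mul_le_mul a2 a3 (sq_nonneg _) (sq_nonneg _)
        calc 4 * ((deriv vt (‖x‖ ^ 2 / l ^ 2)) ^ 2 * ‖x‖ ^ 2) / l ^ 4 ≤
            4 * (C ^ 2 * (2 * l) ^ 2) / l ^ 4 := by gcongr
          _ = 16 * C ^ 2 / l ^ 2 := by field_simp; ring
      · rw [Set.indicator_of_notMem (by simpa using hx)]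
        have a0 : 4 ≤ ‖x‖ ^ 2 / l ^ 2 := by
          rw [le_div_iff₀ (by positivity)]
          have := not_lt.1 hx
          nlinarith
        rw [deriv_vt_right a0]
        simp
    have iG : Integrable (fun x => ‖grad φ0 x‖ ^ 2) := by
      have hcs : HasCompactSupport φ0 := by
        refine HasCompactSupport.intro (isCompact_closedBall (0 : E) (2 * l)) fun x hx => ?_
        simp only [Metric.mem_closedBall, dist_zero_right, not_le] at hx
        exact hφ0z _ hx.le
      exact integrable_normsq (H1_of_compact hφ0c hcs).memg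
    have iI : Integrable ((Metric.ball (0 : E) (2 * l)).indicator
        (fun _ => 16 * C ^ 2 / l ^ 2)) := by
      rw [integrable_indicator_iff measurableSet_ball]
      exact integrableOn_const measure_ball_lt_top.ne
    have h2 := integral_mono iG iI hb
    rw [integral_indicator measurableSet_ball, setIntegral_const, smul_eq_mul] at h2
    have h3 : volume.real (Metric.ball (0 : E) (2 * l)) = (2 * l) ^ 3 * V1 :=
      vol_ball (by positivity)
    rw [h3] at h2
    refine h2.trans (le_of_eq ?_)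
    field_simp
    ring
  -- potential bound
  have pot : z i0 * (l ^ 2 * V1) ≤ ∫ x, VV z R x * φ x ^ 2 := by
    have dφ : Dens (fun x => φ x ^ 2) := by
      obtain ⟨S, hS⟩ := exists_radius hφcs
      refine dens_of_bdd (C := 1) (S := S) (hφc.continuous.pow 2).aestronglyMeasurable
        (fun x => sq_nonneg _) (fun x => pow_le_one₀ (h0 x) (h1 x)) fun x hx => ?_
      rw [hS x hx]; simp
    rw [integral_VV dφ]
    have h2 : z i0 * ∫ x, φ x ^ 2 / ‖x - R i0‖ ≤ ∑ i, z i * ∫ x, φ x ^ 2 / ‖x - R i‖ := by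
      refine Finset.single_le_sum (f := fun i => z i * ∫ x, φ x ^ 2 / ‖x - R i‖)
        (fun i _ => ?_) (Finset.mem_univ i0)
      refine mul_nonneg (hz i).le (integral_nonneg fun x => ?_)
      exact div_nonneg (sq_nonneg _) (norm_nonneg _)
    refine le_trans (mul_le_mul_of_nonneg_left ?_ hz0.le) h2
    have e1 : ∫ x, φ x ^ 2 / ‖x - R i0‖ = ∫ x, φ0 x ^ 2 / ‖x‖ :=
      integral_sub_right_eq_self (fun x => φ0 x ^ 2 / ‖x‖) (R i0)
    rw [e1]
    have iφ : Integrable (fun x => φ0 x ^ 2 / ‖x‖) := by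
      have := (dφ.kernel_integrable (R i0)).comp_add_right (R i0)
      refine this.congr (Eventually.of_forall fun x => ?_)
      simp only [hφ]
      rw [add_sub_cancel_right]
    have iI : Integrable ((Metric.ball (0 : E) l).indicator (fun _ => 1 / l)) := by
      rw [integrable_indicator_iff measurableSet_ball]
      exact integrableOn_const measure_ball_lt_top.ne
    have hb : ∀ᵐ x : E, (Metric.ball (0 : E) l).indicator (fun _ => 1 / l) x ≤
        φ0 x ^ 2 / ‖x‖ := by
      filter_upwards [ae_ne 0] with x hx0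
      have hx0' : 0 < ‖x‖ := norm_pos_iff.2 hx0
      by_cases hx : ‖x‖ < l
      · rw [Set.indicator_of_mem (by simpa using hx)]
        have : φ0 x = 1 := by
          apply vt_one
          rw [div_le_one (by positivity)]
          exact pow_le_pow_left₀ (norm_nonneg _) hx.le 2
        rw [this, one_pow]
        exact one_div_le_one_div_of_le hx0' hx.le
      · rw [Set.indicator_of_notMem (by simpa using hx)]
        positivity
    have h3 := integral_mono_ae iI iφ hb
    rw [integral_indicator measurableSet_ball, setIntegral_const, smul_eq_mul] at h3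
    have h4 : volume.real (Metric.ball (0 : E) l) = l ^ 3 * V1 := vol_ball hl0.le
    rw [h4] at h3
    refine le_trans (le_of_eq ?_) h3
    field_simp
  refine lt_of_le_of_lt kin (lt_of_lt_of_le ?_ pot)
  have h5 : 128 * C ^ 2 < z i0 * l := by
    rw [hl, mul_add, mul_div_cancel₀ _ hz0.ne']
    linarith
  have h6 : 0 < V1 * l := by positivity
  have h7 := mul_lt_mul_of_pos_right h5 h6
  calc 128 * C ^ 2 * V1 * l = 128 * C ^ 2 * (V1 * l) := by ring
    _ < z i0 * l * (V1 * l) := h7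
    _ = z i0 * (l ^ 2 * V1) := by ring

end Pool.Agent.Helper99.TFW
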