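import Mathlib
import Pool.Agent.helper99.TFW.Nontriv

/-!
# The critical electron number exceeds the nuclear charge
-/

set_option autoImplicit false
set_option linter.unusedSectionVars false

open MeasureTheory Filter Topology
open scoped ENNReal NNReal

namespace Pool.Agent.Helper99.TFW

variable {k : ℕ} {z : Fin k → ℝ} {R : Fin k → E}

theorem rho_term {a f : ℝ} (ha : 0 ≤ a) (hf : 0 ≤ f) :
    a ^ (2 / 3 : ℝ) * f ≤ 2 / 3 * a + 1 / 3 * f ^ 3 := by
  have hc : (3 / 2 : ℝ).HolderConjugate 3 := by
    rw [Real.holderConjugate_iff]; norm_num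
  have h := Real.young_inequality_of_nonneg (a := a ^ (2 / 3 : ℝ)) (b := f)
    (Real.rpow_nonneg ha _) hf hc
  rw [← Real.rpow_mul ha] at h
  norm_num at h
  linarith

/-- The Coulomb terms tested against `fL` are bounded from above uniformly in `L`. -/
theorem coulomb_bound (hz : ∀ i, 0 < z i) {ρ : E → ℝ} (hρ : Dens ρ)
    (hN : ∫ x, ρ x ≤ ∑ i, z i) {L : ℝ} (hL : 1 ≤ L) :
    (∫ x, fL L x * U ρ x) - (∫ x, VV z R x * fL L x) ≤ ∑ i, z i * ∫ x, GR (R i) x := by
  have df := fL_dens hL
  set A := ∫ x, fL L x / ‖x‖ with hA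
  have hA0 : 0 ≤ A := integral_nonneg fun x => div_nonneg (fL_nonneg L x) (norm_nonneg _)
  have h1 : ∫ x, fL L x * U ρ x ≤ A * ∫ x, ρ x := by
    rw [U_symm df hρ, ← integral_const_mul]
    refine integral_mono (df.int_mul_U hρ.int) (hρ.int.const_mul A) fun x => ?_
    simp only
    rw [mul_comm]
    refine mul_le_mul_of_nonneg_right ?_ (hρ.nn x)
    rw [U_eq]
    exact newton df (fp_antitone hL) (fL_radial L) x
  have h2 : (∑ i, z i) * A - ∑ i, z i * ∫ x, GR (R i) x ≤ ∫ x, VV z R x * fL L x := by
    rw [integral_VV df, Finset.sum_mul, ← Finset.sum_sub_distrib]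
    refine Finset.sum_le_sum fun i _ => ?_
    have h3 := newton_lower df (fun x => by unfold fL; rw [norm_neg]) (fL_le L) (R i)
    have h4 := mul_le_mul_of_nonneg_left h3 (hz i).le
    linarith
  have h3 : A * ∫ x, ρ x ≤ (∑ i, z i) * A := by
    rw [mul_comm]
    exact mul_le_mul_of_nonneg_right hN hA0
  linarith

theorem Lf_integral {ρ : E → ℝ} (hρ : Dens ρ) {L : ℝ} (hL : 1 ≤ L) :
    ∫ x, Lf z R ρ x * fL L x ≤ 2 / 3 * (∫ x, ρ x) + 1 / 3 * (∫ x, fL L x ^ 3) +
      ((∫ x, fL L x * U ρ x) - (∫ x, VV z R x * fL L x)) := by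
  have df := fL_dens hL
  have i2 := int_VV (z := z) (R := R) df
  have i3 := hρ.int_mul_U df.int
  have i4 : Integrable (fun x => 2 / 3 * ρ x + 1 / 3 * fL L x ^ 3) :=
    (hρ.int.const_mul _).add ((fL_cube_integrable hL).const_mul _)
  have i1 : Integrable (fun x => ρ x ^ (2 / 3 : ℝ) * fL L x) := by
    refine i4.mono' ((hρ.int.1.aemeasurable.pow_const _).aestronglyMeasurable.mul
      (contDiff_fL L).continuous.aestronglyMeasurable) (Eventually.of_forall fun x => ?_)
    rw [Real.norm_eq_abs, abs_of_nonneg (mul_nonneg (Real.rpow_nonneg (hρ.nn x) _)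
      (fL_nonneg L x))]
    exact rho_term (hρ.nn x) (fL_nonneg L x)
  have e : ∫ x, Lf z R ρ x * fL L x = (∫ x, ρ x ^ (2 / 3 : ℝ) * fL L x) -
      (∫ x, VV z R x * fL L x) + ∫ x, fL L x * U ρ x := by
    have i5 : Integrable (fun x => ρ x ^ (2 / 3 : ℝ) * fL L x - VV z R x * fL L x) := i1.sub i2
    rw [← integral_sub i1 i2, ← integral_add i5 i3]
    apply integral_congr_ae
    refine Eventually.of_forall fun x => ?_
    simp only [Lf]
    ring
  have h1 : ∫ x, ρ x ^ (2 / 3 : ℝ) * fL L x ≤ 2 / 3 * (∫ x, ρ x) + 1 / 3 * (∫ x, fL L x ^ 3) := by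
    rw [← integral_const_mul, ← integral_const_mul,
      ← integral_add (hρ.int.const_mul _) ((fL_cube_integrable hL).const_mul _)]
    exact integral_mono i1 i4 fun x => rho_term (hρ.nn x) (fL_nonneg L x)
  rw [e]
  linarith

/-- The mass of a minimizer for the relaxed problem exceeds the nuclear charge. -/
theorem mass_gt (hz : ∀ i, 0 < z i) {ρ : E → ℝ} {g : E → E} (hadm : Adm ρ g)
    (hv : VarIneq z R ρ g) (hpos : 0 < ∫ x, ρ x) : ∑ i, z i < ∫ x, ρ x := by
  by_contra hcon
  have hN : ∫ x, ρ x ≤ ∑ i, z i := not_lt.1 hcon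
  obtain ⟨hae, hlog⟩ := log_int hz hadm hv hpos
  obtain ⟨C, hC0, hC⟩ := exists_deriv_vt_bound
  set N := ∫ x, ρ x with hNdef
  set Λ := ∫ x in Metric.ball (0 : E) 1, |Real.log (Real.sqrt (ρ x))| with hΛ
  have hom := om_pos
  -- the main estimate
  have main : ∀ L : ℝ, 1 ≤ L → 0 ≤ 15 * Λ + (4 * C * N - om * (1 + 3 * Real.log L)) +
      (15 * V1 + 9 / 4 * (om * Real.log L) + (3 + 16 * C) ^ 2 / 4 * (om * Real.log 2)) +
      (2 / 3 * N + 1 / 3 * (8 * V1 + om * Real.log (2 * L)) + ∑ i, z i * ∫ x, GR (R i) x) := by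
    intro L hL
    have hL0 : 0 < L := by linarith
    obtain ⟨j1, j2⟩ := limit_ineq (z := z) (R := R) hadm hv hae hlog (contDiff_fL L)
      (compact_fL hL) (fL_nonneg L) (contDiff_wL L) (compact_wL hL)
      ((continuous_KL L).integrable_of_hasCompactSupport (compact_KL hL)) (hpt L)
    have b1 := KL_integral hL hC
    have b2 := Lf_integral (z := z) (R := R) hadm.dens hL
    have b3 := coulomb_bound (R := R) hz hadm.dens hN hL
    have b4 := fL_cube_integral hL
    -- the source term
    have iin : Integrable (fun x => Jin x * Real.log (Real.sqrt (ρ x))) := by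
      have h1 : Integrable ((Metric.ball (0 : E) 1).indicator
          fun x => 15 * |Real.log (Real.sqrt (ρ x))|) := by
        rw [integrable_indicator_iff measurableSet_ball]
        exact ((hlog 1).abs).const_mul 15
      refine h1.mono' ?_ (Eventually.of_forall fun x => ?_)
      · exact Jin_meas.aestronglyMeasurable.mul
          (Real.measurable_log.comp_aemeasurable hadm.h1.mem.1.aemeasurable).aestronglyMeasurable
      · by_cases hx : ‖x‖ < 1
        · rw [Set.indicator_of_mem (by simpa using hx), norm_mul, Real.norm_eq_abs,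
            Real.norm_eq_abs]
          exact mul_le_mul_of_nonneg_right (Jin_abs x) (abs_nonneg _)
        · rw [Set.indicator_of_notMem (by simpa using hx), Jin_zero (not_lt.1 hx), zero_mul,
            norm_zero]
    simp_rw [J_eq hL] at j1 j2
    have iout : Integrable (fun x => Jout L x * Real.log (Real.sqrt (ρ x))) := by
      refine (j1.sub iin).congr (Eventually.of_forall fun x => ?_)
      simp only [Pi.sub_apply]
      ring
    have e1 : ∫ x, (Jin x + Jout L x) * Real.log (Real.sqrt (ρ x)) =
        (∫ x, Jin x * Real.log (Real.sqrt (ρ x))) +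
          ∫ x, Jout L x * Real.log (Real.sqrt (ρ x)) := by
      rw [← integral_add iin iout]
      apply integral_congr_ae
      refine Eventually.of_forall fun x => ?_
      simp only
      ring
    have b5 : -(∫ x, Jin x * Real.log (Real.sqrt (ρ x))) ≤ 15 * Λ := by
      rw [← integral_neg, hΛ, ← integral_const_mul, ← integral_indicator measurableSet_ball]
      have h1 : Integrable ((Metric.ball (0 : E) 1).indicator
          fun x => 15 * |Real.log (Real.sqrt (ρ x))|) := by
        rw [integrable_indicator_iff measurableSet_ball]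
        exact ((hlog 1).abs).const_mul 15
      refine integral_mono iin.neg h1 fun x => ?_
      simp only
      by_cases hx : ‖x‖ < 1
      · rw [Set.indicator_of_mem (by simpa using hx)]
        refine (neg_le_abs _).trans ?_
        rw [abs_mul]
        exact mul_le_mul_of_nonneg_right (Jin_abs x) (abs_nonneg _)
      · rw [Set.indicator_of_notMem (by simpa using hx), Jin_zero (not_lt.1 hx), zero_mul,
          neg_zero]
    have b6 : -(∫ x, Jout L x * Real.log (Real.sqrt (ρ x))) ≤
        4 * C * N - om * (1 + 3 * Real.log L) := by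
      have h1 : ∀ᵐ x, -(Jout L x * Real.log (Real.sqrt (ρ x))) ≤
          4 * C * ρ x - (-(Jout L x)) * ((1 + 3 * Real.log L) / 2) := by
        filter_upwards [hae] with x hx
        have h2 : Real.log (Real.sqrt (ρ x)) = Real.log (ρ x) / 2 := Real.log_sqrt hx.le
        have h3 : Real.log (L ^ 3 * ρ x) ≤ L ^ 3 * ρ x - 1 :=
          Real.log_le_sub_one_of_pos (by positivity)
        rw [Real.log_mul (by positivity) hx.ne', Real.log_pow] at h3
        push_cast at h3
        have h4 : Real.log (Real.sqrt (ρ x)) ≤ (L ^ 3 * ρ x - 1 - 3 * Real.log L) / 2 := by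
          rw [h2]; linarith
        have h5 : 0 ≤ -(Jout L x) := by linarith [Jout_nonpos L x]
        have h6 := mul_le_mul_of_nonneg_left h4 h5
        have h7 : -(Jout L x) * (L ^ 3 * ρ x) ≤ 8 * C * ρ x := by
          have h8 := Jout_bound hL hC x
          have h9 : 0 ≤ L ^ 3 * ρ x := by positivity
          calc -(Jout L x) * (L ^ 3 * ρ x) ≤ 8 * C / L ^ 3 * (L ^ 3 * ρ x) :=
                mul_le_mul_of_nonneg_right h8 h9
            _ = 8 * C * ρ x := by field_simp
        linarith
      have i1 : Integrable (fun x => 4 * C * ρ x - (-(Jout L x)) * ((1 + 3 * Real.log L) / 2)) :=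
        (hadm.int.const_mul _).sub ((Jout_integrable hL).neg.mul_const _)
      rw [← integral_neg]
      refine (integral_mono_ae iout.neg i1 h1).trans (le_of_eq ?_)
      have i2 : Integrable (fun x => (-(Jout L x)) * ((1 + 3 * Real.log L) / 2)) :=
        (Jout_integrable hL).neg.mul_const _
      rw [integral_sub (hadm.int.const_mul _) i2, integral_const_mul, integral_mul_const,
        integral_neg, Jout_integral hL]
      ring
    rw [e1] at j2
    linarith
  -- choose L
  set B := 15 * Λ + (4 * C * N - om) +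
      (15 * V1 + (3 + 16 * C) ^ 2 / 4 * (om * Real.log 2)) +
      (2 / 3 * N + 1 / 3 * (8 * V1 + om * Real.log 2) + ∑ i, z i * ∫ x, GR (R i) x) with hB
  set t := max 0 (12 / 5 * (B + 1) / om) with ht
  have ht0 : 0 ≤ t := le_max_left _ _
  have hL1 : 1 ≤ Real.exp t := Real.one_le_exp ht0
  have h1 := main (Real.exp t) hL1
  rw [Real.log_mul two_ne_zero (Real.exp_pos t).ne', Real.log_exp] at h1
  have h2 : 12 / 5 * (B + 1) ≤ t * om := by
    have h3 : 12 / 5 * (B + 1) / om ≤ t := le_max_right _ _
    rwa [div_le_iff₀ hom] at h3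
  have h3 : 0 ≤ B - 5 / 12 * (t * om) := by
    rw [hB]
    linarith
  linarith

/-- The critical electron number of a molecule exceeds its nuclear charge. -/
theorem critical_gt (hk : 0 < k) (hz : ∀ i, 0 < z i) :
    ∃ N : ℝ, (∑ i, z i) < N ∧ ∃ ρ g, Adm ρ g ∧ ∫ x, ρ x = N ∧
      ∀ σ h, Adm σ h → ∫ x, σ x = N → energy z R ρ g ≤ energy z R σ h := by
  have hZ := sum_nonneg' hz
  set M : ℝ := (∑ i, z i) + 1 with hM
  have hM0 : 0 < M := by positivity
  obtain ⟨ρ, g, hadm, hmass, hmin⟩ := exists_min (R := R) hz hM0.le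
  refine ⟨∫ x, ρ x, ?_, ρ, g, hadm, rfl, fun σ h hσ hσN => hmin σ h hσ (hσN.trans_le hmass)⟩
  rcases lt_or_ge (∑ i, z i) (∫ x, ρ x) with h | h
  · exact h
  · have hlt : ∫ x, ρ x < M := by linarith
    have hv : VarIneq z R ρ g := fun η γ hη hη0 B S hB hS =>
      variation hz hadm hlt hmin hη hη0 hB hS
    refine mass_gt hz hadm hv ?_
    have hnn : 0 ≤ ∫ x, ρ x := integral_nonneg hadm.nn
    rcases hnn.eq_or_lt with h0 | h0
    · exfalso
      have hρ0 : ρ =ᵐ[volume] 0 :=
        (integral_eq_zero_iff_of_nonneg hadm.nn hadm.int).1 h0.symm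
      obtain ⟨σ, h, hσ, hσM, hneg⟩ := exists_neg_energy (R := R) hk hz hM0
      have h1 := hmin σ h hσ hσM
      have h2 : 0 ≤ energy z R ρ g := by
        rw [energy_eq]
        have e1 : ∫ x, ρ x ^ (5 / 3 : ℝ) = 0 := by
          rw [integral_eq_zero_of_ae]
          filter_upwards [hρ0] with x hx
          rw [hx]
          simp only [Pi.zero_apply]
          exact Real.zero_rpow (by norm_num)
        have e2 : ∫ x, VV z R x * ρ x = 0 := by
          rw [integral_eq_zero_of_ae]
          filter_upwards [hρ0] with x hx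
          rw [hx]
          simp
        have e3 : ∫ x, ρ x * U ρ x = 0 := by
          rw [integral_eq_zero_of_ae]
          filter_upwards [hρ0] with x hx
          rw [hx]
          simp
        rw [e1, e2, e3]
        have : 0 ≤ ∫ x, ‖g x‖ ^ 2 := integral_nonneg fun _ => sq_nonneg _
        linarith
      linarith
    · exact h0

end Pool.Agent.Helper99.TFW
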